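import Pool.Agent.E8helper92.OQ.Sound

/-!
# Local soundness
-/

set_option linter.unusedSectionVars false

namespace Pool.Agent.E8helper92.OQ

open Pool.Agent.H619R2.QP

section

variable {P M nb : ℕ} {X Y Z : ℕ → ℕ} {pos : ℕ × ℕ → ℕ}

theorem exists_std (H : Loc P (HV P M nb) (Pf P M) (LA P M nb X Y Z) pos) (hM : 1 ≤ M)
    (hnb : 4 ≤ nb) {N : ℕ} (hN : ∀ v, HV P M nb v → pos v < N) :
    ∃ pos' : ℕ × ℕ → ℕ, Std P M nb X Y Z pos' := by
  have hne : (Pf P M).Nonempty := ⟨(0, 0), mem_Pf.2 (Or.inl ⟨rfl, by omega⟩)⟩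
  obtain ⟨a, ha, hamin⟩ := (Pf P M).exists_min_image pos hne
  obtain ⟨b, hb, hbmax⟩ := (Pf P M).exists_max_image pos hne
  have ha0 : rk (Pf P M) pos a = 0 := rk_eq_zero hamin
  have hb0 : rk (Pf P M) pos b = P * (M + 3) + 3 := by
    rw [H.rk_last hb hbmax, card_Pf]
    rfl
  have haF := mem_Pf.1 ha
  have hbF := mem_Pf.1 hb
  rcases extremes H hM hnb haF hbF ha0 hb0 with ⟨h1, h2⟩ | ⟨h1, h2⟩
  · refine ⟨pos, H, ⟨a.2, ?_, ?_⟩, ⟨b.2, ?_, ?_⟩⟩
    · unfold FV at haF
      omega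
    · rw [show ((0, a.2) : ℕ × ℕ) = a from Prod.ext h1.symm rfl]
      exact ha0
    · unfold FV at hbF
      omega
    · rw [show ((2 * M + 2, b.2) : ℕ × ℕ) = b from Prod.ext h2.symm rfl]
      exact hb0
  · have Hr := H.rev hN
    have ra : rk (Pf P M) (fun v => N - pos v) b = 0 := by
      refine rk_eq_zero (fun f hf => ?_)
      have := hbmax f hf
      omega
    have rb : rk (Pf P M) (fun v => N - pos v) a = P * (M + 3) + 3 := by
      rw [Hr.rk_last ha (fun f hf => by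
        have := hamin f hf
        omega), card_Pf]
      rfl
    refine ⟨fun v => N - pos v, Hr, ⟨b.2, ?_, ?_⟩, ⟨a.2, ?_, ?_⟩⟩
    · unfold FV at hbF
      omega
    · rw [show ((0, b.2) : ℕ × ℕ) = b from Prod.ext h2.symm rfl]
      exact ra
    · unfold FV at haF
      omega
    · rw [show ((2 * M + 2, a.2) : ℕ × ℕ) = a from Prod.ext h1.symm rfl]
      exact rb

section

variable (H : Std P M nb X Y Z pos) (hP : 2 ≤ P) (hM : 1 ≤ M) (hnb : 4 ≤ nb)

include H hP hM hnb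

omit hnb in
theorem clus_lt {i x y : ℕ} (h1 : 1 ≤ i) (h2 : i < M) (hxy : x ≠ y)
    (hx : 4 + (P + 3) * x + (P + 3) ≤ nb) (hy : 4 + (P + 3) * y + (P + 3) ≤ nb)
    (h : pos (2 * i, 4 + (P + 3) * x + 0) < pos (2 * i, 4 + (P + 3) * y + 0)) {k l : ℕ}
    (hk : k < P + 3) (hl : l < P + 3) :
    pos (2 * i, 4 + (P + 3) * x + k) < pos (2 * i, 4 + (P + 3) * y + l) := by
  rw [clus H hP hM h1 h2 (x := 4 + (P + 3) * x + k) (c := y) (by omega) hy
    (cl_disj hxy hk) hl]
  have h3 := clus H hP hM h1 h2 (x := 4 + (P + 3) * y + 0) (c := x) (k := k) (by omega) hx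
    (cl_disj hxy.symm (by omega)) hk
  have h4 := lev_ne H hM (i := i) (e := 4 + (P + 3) * x + k) (e' := 4 + (P + 3) * y + 0) h1
    (by omega) (by omega) (by omega) (by
      have := cl_disj (P := P) hxy hk
      omega)
  omega

/-- no violated test -/
theorem test_ok {i : ℕ} (h1 : 1 ≤ i) (h2 : i < M)
    (hx : 4 + (P + 3) * X i + (P + 3) ≤ nb)
    (hy : 4 + (P + 3) * Y i + (P + 3) ≤ nb) (hz : 4 + (P + 3) * Z i + (P + 3) ≤ nb)
    (hxz : X i ≠ Z i) (hyz : Y i ≠ Z i) :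
    ¬ (pos (2 * i, 4 + (P + 3) * X i + 0) < pos (2 * i, 4 + (P + 3) * Z i + 0) ∧
      pos (2 * i, 4 + (P + 3) * Z i + 0) < pos (2 * i, 4 + (P + 3) * Y i + 0)) ∧
    ¬ (pos (2 * i, 4 + (P + 3) * Y i + 0) < pos (2 * i, 4 + (P + 3) * Z i + 0) ∧
      pos (2 * i, 4 + (P + 3) * Z i + 0) < pos (2 * i, 4 + (P + 3) * X i + 0)) := by
  have e2 : (2 * i) / 2 = i := by omega
  have t1 : ∀ k l, k < P - 1 → l < P - 1 →
      LA P M nb X Y Z (2 * i, 4 + (P + 3) * X i + k) (2 * i, 4 + (P + 3) * Y i + l) := by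
    intro k l hk hl
    refine ⟨hV h1 (by omega) (by omega), hV h1 (by omega) (by omega), Or.inl (Or.inr (Or.inr
      (Or.inr (Or.inr (Or.inr (Or.inr (Or.inl ⟨by dsimp only; omega, by dsimp only; omega,
        by dsimp only; omega, rfl, ?_, ?_⟩)))))))⟩
    · dsimp only
      rw [e2]
      exact ⟨by omega, by omega⟩
    · dsimp only
      rw [e2]
      exact ⟨by omega, by omega⟩
  have t2 : LA P M nb X Y Z (2 * i, 4 + (P + 3) * Z i + 2) (2 * i + 1, 0) := by
    refine ⟨hV h1 (by omega) (by omega), hB (by omega) (by omega), Or.inl (Or.inr (Or.inr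
      (Or.inr (Or.inr (Or.inr (Or.inr (Or.inr ⟨by dsimp only; omega, by dsimp only; omega,
        by dsimp only; omega, rfl, ?_, rfl⟩)))))))⟩
    dsimp only
    rw [e2]
  constructor
  · rintro ⟨k1, k2⟩
    exact ladder H hP hM hnb h1 h2 hx hy hz t1 t2
      (fun k l hk hl => clus_lt H hP hM h1 h2 hxz hx hz k1 hk hl)
      (fun k l hk hl => clus_lt H hP hM h1 h2 hyz.symm hz hy k2 hk hl)
  · rintro ⟨k1, k2⟩
    exact ladder H hP hM hnb h1 h2 hy hx hz (fun k l hk hl => (t1 l k hl hk).symm) t2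
      (fun k l hk hl => clus_lt H hP hM h1 h2 hyz hy hz k1 hk hl)
      (fun k l hk hl => clus_lt H hP hM h1 h2 hxz.symm hz hx k2 hk hl)

end

end

/-- the bound for cluster numbers -/
theorem cl_le {P : ℕ} {ts : NBI} {c : ℕ} (h : c ≤ ts.length) :
    4 + (P + 3) * c + (P + 3) ≤ nbf P ts := by
  unfold nbf
  have := Nat.mul_le_mul_left (P + 3) (show c + 1 ≤ ts.length + 1 by omega)
  rw [Nat.mul_add, Nat.mul_one] at this
  omega

/-- **Local soundness** -/
theorem sound_std {P : ℕ} (hP : 2 ≤ P) {ts : NBI} (hts : NBok ts) {pos : ℕ × ℕ → ℕ}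
    (H : Std P (Mf ts) (nbf P ts) (tX ts) (tY ts) (tZ ts) pos) : NBsat ts := by
  have hM : 1 ≤ Mf ts := by
    unfold Mf
    omega
  have hnb : 4 ≤ nbf P ts := by
    unfold nbf
    omega
  refine ⟨fun c => pos (2 * 1, 4 + (P + 3) * c + 0), ?_, ?_⟩
  · intro a ha b hb hab
    have h1 := cl_le (P := P) ha
    have h2 := cl_le (P := P) hb
    by_contra hne
    refine lev_ne H hM (i := 1) (e := 4 + (P + 3) * a + 0) (e' := 4 + (P + 3) * b + 0) le_rfl hM
      (by omega) (by omega) ?_ hab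
    have := cl_disj (P := P) (k := 0) hne (by omega)
    omega
  · intro t ht
    obtain ⟨m, hm, rfl⟩ := List.getElem_of_mem ht
    have hok := hts _ ht
    have e1 : tst ts (m + 1) = ts[m] := by
      unfold tst
      rw [Nat.add_sub_cancel]
      exact List.getD_eq_getElem _ _ hm
    have hX : tX ts (m + 1) = ts[m].1 := by
      unfold tX
      rw [e1]
    have hY : tY ts (m + 1) = ts[m].2.1 := by
      unfold tY
      rw [e1]
    have hZ : tZ ts (m + 1) = ts[m].2.2 := by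
      unfold tZ
      rw [e1]
    obtain ⟨o1, o2, o3, o4, o5, o6⟩ := hok
    have b1 := cl_le (P := P) o1
    have b2 := cl_le (P := P) o2
    have b3 := cl_le (P := P) o3
    have key := test_ok H hP hM hnb (i := m + 1) (by omega) (by unfold Mf; omega)
      (by rw [hX]; exact b1) (by rw [hY]; exact b2) (by rw [hZ]; exact b3)
      (by rw [hX, hZ]; exact o5) (by rw [hY, hZ]; exact o6)
    rw [hX, hY, hZ] at key
    have c1 := lev_one H hP hM (i := m + 1) (e := 4 + (P + 3) * ts[m].1 + 0)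
      (e' := 4 + (P + 3) * ts[m].2.2 + 0) (by omega) (by omega) (by omega) (by unfold Mf; omega)
    have c2 := lev_one H hP hM (i := m + 1) (e := 4 + (P + 3) * ts[m].2.2 + 0)
      (e' := 4 + (P + 3) * ts[m].2.1 + 0) (by omega) (by omega) (by omega) (by unfold Mf; omega)
    have c3 := lev_one H hP hM (i := m + 1) (e := 4 + (P + 3) * ts[m].2.1 + 0)
      (e' := 4 + (P + 3) * ts[m].2.2 + 0) (by omega) (by omega) (by omega) (by unfold Mf; omega)
    have c4 := lev_one H hP hM (i := m + 1) (e := 4 + (P + 3) * ts[m].2.2 + 0)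
      (e' := 4 + (P + 3) * ts[m].1 + 0) (by omega) (by omega) (by omega) (by unfold Mf; omega)
    dsimp only
    rcases Nat.mod_two_eq_zero_or_one (m + 1) with h | h
    · rw [c1.2 h, c2.2 h, c3.2 h, c4.2 h] at key
      omega
    · rw [c1.1 h, c2.1 h, c3.1 h, c4.1 h] at key
      omega

theorem sound_local {P : ℕ} (hP : 2 ≤ P) {ts : NBI} (hts : NBok ts) {pos : ℕ × ℕ → ℕ}
    (H : Loc P (HV P (Mf ts) (nbf P ts)) (Pf P (Mf ts))
      (LA P (Mf ts) (nbf P ts) (tX ts) (tY ts) (tZ ts)) pos) {N : ℕ}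
    (hN : ∀ v, HV P (Mf ts) (nbf P ts) v → pos v < N) : NBsat ts := by
  obtain ⟨pos', H'⟩ := exists_std H (by unfold Mf; omega) (by unfold nbf; omega) hN
  exact sound_std hP hts H'

end Pool.Agent.E8helper92.OQ
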