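import Mathlib

/-!
# The graph of the reduction

A copy of the gadget has the segments `0, 1, …, 2 M + 2`.  The segments `0` and `2 M + 2` are
cliques of `P + 2` block vertices, the odd segments are blocks of `P` block vertices and the
segments `2, 4, …, 2 M` are the levels of a bus.  The elements of a level are numbered: `0, 1` and
`2, 3` are the guides and `4 + w c, …, 4 + w c + (w - 1)` is the cluster `c`.  At the level `i < M`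
it is tested that the cluster `Z i` is not between the clusters `X i` and `Y i`.
-/

namespace Pool.Agent.E8helper92.OQ

/-- block vertices of a copy -/
def FV (P M : ℕ) (v : ℕ × ℕ) : Prop :=
  (v.1 = 0 ∧ v.2 < P + 2) ∨ (v.1 % 2 = 1 ∧ v.1 ≤ 2 * M + 1 ∧ v.2 < P) ∨
    (v.1 = 2 * M + 2 ∧ v.2 < P + 2)

/-- vertices of the bus of a copy -/
def BV (M nb : ℕ) (v : ℕ × ℕ) : Prop := v.1 % 2 = 0 ∧ 2 ≤ v.1 ∧ v.1 ≤ 2 * M ∧ v.2 < nb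

/-- vertices of a copy -/
def HV (P M nb : ℕ) (v : ℕ × ℕ) : Prop := FV P M v ∨ BV M nb v

/-- the guides `e` of the block (segment) `s` -/
def Gd (s e : ℕ) : Prop := (s % 4 = 1 ∧ e < 2) ∨ (s % 4 = 3 ∧ 2 ≤ e ∧ e < 4)

/-- `b` is the next element of the cluster of `a` -/
def nxt (w a b : ℕ) : Prop := b = a + 1 ∧ 4 ≤ a ∧ (a - 4) % w + 1 < w

/-- `e` is one of the first `P - 1` elements of the cluster `c` -/
def xin (P c e : ℕ) : Prop := 4 + (P + 3) * c ≤ e ∧ e < 4 + (P + 3) * c + (P - 1)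

/-- the edges of a copy -/
def loc (P M : ℕ) (X Y Z : ℕ → ℕ) (u v : ℕ × ℕ) : Prop :=
  ((u.1 = 0 ∨ u.1 = 2 * M + 2) ∧ v.1 = u.1 ∧ u.2 < v.2) ∨
  (u.1 = 0 ∧ u.2 = P + 1 ∧ v.1 = 2) ∨
  (u.1 = 2 * M ∧ v.1 = 2 * M + 2 ∧ v.2 = 0) ∨
  (u.1 % 2 = 0 ∧ 2 ≤ u.1 ∧ v.1 = u.1 + 2 ∧ v.1 ≤ 2 * M ∧ (v.2 = u.2 ∨ nxt (P + 3) u.2 v.2)) ∨
  (u.1 % 2 = 0 ∧ 2 ≤ u.1 ∧ v.1 = u.1 + 1 ∧ Gd v.1 u.2) ∨
  (u.1 % 2 = 1 ∧ v.1 = u.1 + 1 ∧ v.1 ≤ 2 * M ∧ Gd u.1 v.2) ∨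
  (u.1 % 2 = 0 ∧ 2 ≤ u.1 ∧ u.1 < 2 * M ∧ v.1 = u.1 ∧ xin P (X (u.1 / 2)) u.2 ∧
    xin P (Y (u.1 / 2)) v.2) ∨
  (u.1 % 2 = 0 ∧ 2 ≤ u.1 ∧ u.1 < 2 * M ∧ v.1 = u.1 + 1 ∧ u.2 = 4 + (P + 3) * Z (u.1 / 2) + 2 ∧
    v.2 = 0)

/-- adjacency in a copy -/
def LA (P M nb : ℕ) (X Y Z : ℕ → ℕ) (u v : ℕ × ℕ) : Prop :=
  HV P M nb u ∧ HV P M nb v ∧ (loc P M X Y Z u v ∨ loc P M X Y Z v u)

/-- The vertices: `(0, 0, w)` is a hub vertex, `(h, u)` is the vertex `u` of copy `h ≥ 1`. -/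
def GV (P M nb T : ℕ) (v : ℕ × ℕ × ℕ) : Prop :=
  (v.1 = 0 ∧ v.2.1 = 0 ∧ v.2.2 < P + 1) ∨ (1 ≤ v.1 ∧ v.1 ≤ T ∧ HV P M nb v.2)

/-- the edges -/
def gadj (P M : ℕ) (X Y Z : ℕ → ℕ) (u v : ℕ × ℕ × ℕ) : Prop :=
  (u.1 = 0 ∧ 1 ≤ v.1 ∧ FV P M v.2) ∨ (1 ≤ u.1 ∧ v.1 = u.1 ∧ loc P M X Y Z u.2 v.2)

/-- adjacency -/
def GA (P M nb T : ℕ) (X Y Z : ℕ → ℕ) (u v : ℕ × ℕ × ℕ) : Prop :=
  GV P M nb T u ∧ GV P M nb T v ∧ (gadj P M X Y Z u v ∨ gadj P M X Y Z v u)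

theorem GA.symm {P M nb T : ℕ} {X Y Z : ℕ → ℕ} {u v : ℕ × ℕ × ℕ}
    (h : GA P M nb T X Y Z u v) : GA P M nb T X Y Z v u := ⟨h.2.1, h.1, h.2.2.symm⟩

theorem LA.symm {P M nb : ℕ} {X Y Z : ℕ → ℕ} {u v : ℕ × ℕ}
    (h : LA P M nb X Y Z u v) : LA P M nb X Y Z v u := ⟨h.2.1, h.1, h.2.2.symm⟩

/-- Instances: lists of triples of clusters.  The clusters are numbered `0, …, ts.length`. -/
abbrev NBI : Type := List (ℕ × ℕ × ℕ)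

/-- the instance uses only the clusters `0, …, ts.length` and each triple consists of three
different clusters -/
def NBok (ts : NBI) : Prop :=
  ∀ t ∈ ts, t.1 ≤ ts.length ∧ t.2.1 ≤ ts.length ∧ t.2.2 ≤ ts.length ∧
    t.1 ≠ t.2.1 ∧ t.1 ≠ t.2.2 ∧ t.2.1 ≠ t.2.2

/-- the clusters can be ordered so that for no triple the third cluster is between the first two -/
def NBsat (ts : NBI) : Prop :=
  ∃ K : ℕ → ℕ, (∀ a ≤ ts.length, ∀ b ≤ ts.length, K a = K b → a = b) ∧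
    ∀ t ∈ ts, ¬ (K t.1 < K t.2.2 ∧ K t.2.2 < K t.2.1) ∧ ¬ (K t.2.1 < K t.2.2 ∧ K t.2.2 < K t.1)

/-- the triple tested at the level `i` -/
def tst (ts : NBI) (i : ℕ) : ℕ × ℕ × ℕ := ts.getD (i - 1) (0, 0, 0)

/-- the first cluster tested at level `i` -/
def tX (ts : NBI) (i : ℕ) : ℕ := (tst ts i).1
/-- the second cluster tested at level `i` -/
def tY (ts : NBI) (i : ℕ) : ℕ := (tst ts i).2.1
/-- the third cluster tested at level `i` -/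
def tZ (ts : NBI) (i : ℕ) : ℕ := (tst ts i).2.2

/-- number of levels -/
def Mf (ts : NBI) : ℕ := ts.length + 1

/-- size of a level of the bus -/
def nbf (P : ℕ) (ts : NBI) : ℕ := 4 + (P + 3) * (ts.length + 1)

/-- number of copies -/
def Tf (P : ℕ) (ts : NBI) : ℕ := (P + 2) * (2 * ((Mf ts + 5) * (P + 1))) + 1

end Pool.Agent.E8helper92.OQ
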