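import Pool.Agent.H619R2.QP.Basic
import Pool.Agent.E8helper92.OQ.Defs

/-!
# The intended order has no `P + 2` pairwise crossing edges
-/

set_option linter.unusedSectionVars false

namespace Pool.Agent.E8helper92.OQ

open Pool.Agent.H619R2.QP

/-- the place of a vertex in its segment -/
def off (M : ℕ) (ord : ℕ → ℕ → ℕ) (v : ℕ × ℕ × ℕ) : ℕ :=
  if v.2.1 % 2 = 0 ∧ 2 ≤ v.2.1 ∧ v.2.1 ≤ 2 * M then ord (v.2.1 / 2) v.2.2 else v.2.2

theorem off_lev {M : ℕ} {ord : ℕ → ℕ → ℕ} {h s o i : ℕ} (hs : s = 2 * i) (h1 : 1 ≤ i)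
    (h2 : i ≤ M) : off M ord (h, s, o) = ord i o := by
  subst hs
  unfold off
  rw [if_pos (by dsimp only; omega)]
  dsimp only
  rw [show 2 * i / 2 = i by omega]

theorem off_post {M : ℕ} {ord : ℕ → ℕ → ℕ} {h s o : ℕ}
    (hs : s = 0 ∨ s % 2 = 1 ∨ s = 2 * M + 2) : off M ord (h, s, o) = o := by
  unfold off
  rw [if_neg (by dsimp only; omega)]

/-- the intended order -/
def Lt (M : ℕ) (ord : ℕ → ℕ → ℕ) (u v : ℕ × ℕ × ℕ) : Prop :=
  u.1 < v.1 ∨ (u.1 = v.1 ∧ (u.2.1 < v.2.1 ∨ (u.2.1 = v.2.1 ∧ off M ord u < off M ord v)))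

theorem Lt.irrefl {M : ℕ} {ord : ℕ → ℕ → ℕ} {u : ℕ × ℕ × ℕ} (h : Lt M ord u u) : False := by
  unfold Lt at h
  omega

theorem Lt.asymm {M : ℕ} {ord : ℕ → ℕ → ℕ} {u v : ℕ × ℕ × ℕ} (h : Lt M ord u v)
    (h' : Lt M ord v u) : False := by
  unfold Lt at h h'
  omega

/-- what is used about the orders of the levels -/
structure OrdOK (P M nb : ℕ) (X Y Z : ℕ → ℕ) (ord : ℕ → ℕ → ℕ) : Prop where
  inj : ∀ i e e', e < nb → e' < nb → ord i e = ord i e' → e = e'
  arcs : ∀ i e e' f f', e < nb → e' < nb → f < nb → f' < nb → (f = e ∨ nxt (P + 3) e f) →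
    (f' = e' ∨ nxt (P + 3) e' f') → ord i e < ord i e' → ord (i + 1) f' ≤ ord (i + 1) f
  gfirst : ∀ i g b, 1 ≤ i → b < nb → Gd (2 * i - 1) g → ord i b < ord i g → Gd (2 * i - 1) b
  glast : ∀ i g b, b < nb → Gd (2 * i + 1) g → ord i g < ord i b → Gd (2 * i + 1) b
  test : ∀ i, 1 ≤ i → i < M → ∀ x y, xin P (X i) x → xin P (Y i) y →
    ¬ (ord i x < ord i (4 + (P + 3) * Z i + 2) ∧ ord i (4 + (P + 3) * Z i + 2) < ord i y) ∧
    ¬ (ord i y < ord i (4 + (P + 3) * Z i + 2) ∧ ord i (4 + (P + 3) * Z i + 2) < ord i x)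
  orient : ∀ i, 1 ≤ i → i < M → ∀ x x' y y', xin P (X i) x → xin P (X i) x' → xin P (Y i) y →
    xin P (Y i) y' → ord i x < ord i y → ord i y' < ord i x' → False

section

variable {P M nb T : ℕ} {X Y Z : ℕ → ℕ} {ord : ℕ → ℕ → ℕ}

/-- an edge with its left end first -/
def OE (P M nb T : ℕ) (X Y Z : ℕ → ℕ) (ord : ℕ → ℕ → ℕ) (e : (ℕ × ℕ × ℕ) × (ℕ × ℕ × ℕ)) : Prop :=
  GA P M nb T X Y Z e.1 e.2 ∧ Lt M ord e.1 e.2

/-- the types of the edges -/
def Ty (P M nb : ℕ) (X Y Z : ℕ → ℕ) (h s o h' s' o' : ℕ) : Prop :=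
  (h = 0 ∧ s = 0 ∧ o < P + 1 ∧ 1 ≤ h' ∧
    ((s' = 0 ∧ o' < P + 2) ∨ (s' % 2 = 1 ∧ s' ≤ 2 * M + 1 ∧ o' < P) ∨
      (s' = 2 * M + 2 ∧ o' < P + 2))) ∨
  (1 ≤ h ∧ h' = h ∧ (
    ((s = 0 ∨ s = 2 * M + 2) ∧ s' = s ∧ o < o' ∧ o' < P + 2) ∨
    (s = 0 ∧ o = P + 1 ∧ s' = 2 ∧ o' < nb) ∨
    (s = 2 * M ∧ o < nb ∧ s' = 2 * M + 2 ∧ o' = 0) ∨
    (s % 2 = 0 ∧ 2 ≤ s ∧ s' = s + 2 ∧ s' ≤ 2 * M ∧ o < nb ∧ o' < nb ∧
      (o' = o ∨ nxt (P + 3) o o')) ∨
    (s % 2 = 0 ∧ 2 ≤ s ∧ s ≤ 2 * M ∧ s' = s + 1 ∧ Gd s' o ∧ o' < P ∧ o < nb) ∨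
    (s % 2 = 1 ∧ s' = s + 1 ∧ s' ≤ 2 * M ∧ Gd s o' ∧ o < P ∧ o' < nb) ∨
    (s % 2 = 0 ∧ 2 ≤ s ∧ s < 2 * M ∧ s' = s ∧ o < nb ∧ o' < nb ∧
      ((xin P (X (s / 2)) o ∧ xin P (Y (s / 2)) o') ∨
        (xin P (Y (s / 2)) o ∧ xin P (X (s / 2)) o'))) ∨
    (s % 2 = 0 ∧ 2 ≤ s ∧ s < 2 * M ∧ s' = s + 1 ∧ o = 4 + (P + 3) * Z (s / 2) + 2 ∧ o < nb ∧
      o' = 0)))

theorem hv_lev {s o : ℕ} (h : HV P M nb (s, o)) (h1 : s % 2 = 0) (h2 : 2 ≤ s) (h3 : s ≤ 2 * M) :
    o < nb := by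
  unfold HV FV BV at h
  dsimp only at h
  omega

theorem hv_post {s o : ℕ} (h : HV P M nb (s, o)) (h1 : s % 2 = 1) : o < P ∧ s ≤ 2 * M + 1 := by
  unfold HV FV BV at h
  dsimp only at h
  omega

theorem hv_clique {s o : ℕ} (h : HV P M nb (s, o)) (h1 : s = 0 ∨ s = 2 * M + 2) : o < P + 2 := by
  unfold HV FV BV at h
  dsimp only at h
  omega

theorem ty_fwd (hM : 1 ≤ M) {s o s' o' : ℕ} (g1 : HV P M nb (s, o)) (g2 : HV P M nb (s', o'))
    (g : loc P M X Y Z (s, o) (s', o')) {h : ℕ} (hh : 1 ≤ h) : Ty P M nb X Y Z h s o h s' o' := by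
  unfold Ty
  right
  refine ⟨hh, rfl, ?_⟩
  unfold loc at g
  dsimp only at g
  rcases g with ⟨a1, a2, a3⟩ | ⟨a1, a2, a3⟩ | ⟨a1, a2, a3⟩ | ⟨a1, a2, a3, a4, a5⟩ |
    ⟨a1, a2, a3, a4⟩ | ⟨a1, a2, a3, a4⟩ | ⟨a1, a2, a3, a4, a5, a6⟩ | ⟨a1, a2, a3, a4, a5, a6⟩
  · left
    exact ⟨a1, a2, a3, hv_clique g2 (by omega)⟩
  · right; left
    exact ⟨a1, a2, a3, hv_lev g2 (by omega) (by omega) (by omega)⟩
  · right; right; left
    exact ⟨a1, hv_lev g1 (by omega) (by omega) (by omega), a2, a3⟩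
  · right; right; right; left
    exact ⟨a1, a2, a3, a4, hv_lev g1 (by omega) (by omega) (by omega),
      hv_lev g2 (by omega) (by omega) (by omega), a5⟩
  · right; right; right; right; left
    have h3 := hv_post g2 (by omega)
    have h4 : s ≤ 2 * M := by omega
    exact ⟨a1, a2, h4, a3, a4, h3.1, hv_lev g1 a1 a2 h4⟩
  · right; right; right; right; right; left
    exact ⟨a1, a2, a3, a4, (hv_post g1 a1).1, hv_lev g2 (by omega) (by omega) (by omega)⟩
  · right; right; right; right; right; right; left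
    exact ⟨a1, a2, a3, a4, hv_lev g1 a1 a2 (by omega), hv_lev g2 (by omega) (by omega) (by omega),
      Or.inl ⟨a5, a6⟩⟩
  · right; right; right; right; right; right; right
    exact ⟨a1, a2, a3, a4, a5, hv_lev g1 a1 a2 (by omega), a6⟩

theorem ty_rev {s o s' o' : ℕ} (g1 : HV P M nb (s, o)) (g2 : HV P M nb (s', o'))
    (g : loc P M X Y Z (s', o') (s, o)) {h : ℕ} (hh : 1 ≤ h)
    (hlt : s < s' ∨ (s = s' ∧ off M ord (h, s, o) < off M ord (h, s', o'))) :
    Ty P M nb X Y Z h s o h s' o' := by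
  unfold loc at g
  dsimp only at g
  rcases g with ⟨a1, a2, a3⟩ | ⟨a1, a2, a3⟩ | ⟨a1, a2, a3⟩ | ⟨a1, a2, a3, a4, a5⟩ |
    ⟨a1, a2, a3, a4⟩ | ⟨a1, a2, a3, a4⟩ | ⟨a1, a2, a3, a4, a5, a6⟩ | ⟨a1, a2, a3, a4, a5, a6⟩
  · exfalso
    have e1 : off M ord (h, s, o) = o := off_post (by omega)
    have e2 : off M ord (h, s', o') = o' := off_post (by omega)
    omega
  · omega
  · omega
  · omega
  · omega
  · omega
  · subst a4
    unfold Ty
    right
    refine ⟨hh, rfl, ?_⟩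
    right; right; right; right; right; right; left
    exact ⟨a1, a2, a3, rfl, hv_lev g1 a1 a2 (by omega), hv_lev g2 a1 a2 (by omega),
      Or.inr ⟨a6, a5⟩⟩
  · omega

theorem OE.ty (hM : 1 ≤ M) {h s o h' s' o' : ℕ}
    (he : OE P M nb T X Y Z ord ((h, s, o), (h', s', o'))) :
    Ty P M nb X Y Z h s o h' s' o' := by
  obtain ⟨⟨g1, g2, g3⟩, hlt⟩ := he
  unfold GV at g1 g2
  unfold gadj at g3
  unfold Lt at hlt
  dsimp only at g1 g2 g3 hlt
  rcases g3 with (g3 | ⟨g3, g4, g5⟩) | (g3 | ⟨g3, g4, g5⟩)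
  · have g4 := g3.2.2
    unfold FV at g4
    dsimp only at g4
    unfold Ty
    left
    rcases g1 with g1 | g1
    · exact ⟨g1.1, g1.2.1, g1.2.2, g3.2.1, g4⟩
    · omega
  · subst g4
    rcases g1 with g1 | g1
    · omega
    · rcases g2 with g2 | g2
      · omega
      · exact ty_fwd hM g1.2.2 g2.2.2 g5 g3
  · exfalso
    have := g3.1
    have := g3.2.1
    omega
  · subst g4
    rcases g1 with g1 | g1
    · omega
    · rcases g2 with g2 | g2
      · omega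
      · exact ty_rev (ord := ord) g1.2.2 g2.2.2 g5 g3 (by omega)

/-- the edges which cross the edge `(x, y)` and have their left ends to the left of `x` -/
structure RS (P M nb T : ℕ) (X Y Z : ℕ → ℕ) (ord : ℕ → ℕ → ℕ)
    (R : Finset ((ℕ × ℕ × ℕ) × (ℕ × ℕ × ℕ))) (x y : ℕ × ℕ × ℕ) : Prop where
  edge : ∀ e ∈ R, OE P M nb T X Y Z ord e
  lx : ∀ e ∈ R, Lt M ord e.1 x
  xr : ∀ e ∈ R, Lt M ord x e.2
  ry : ∀ e ∈ R, Lt M ord e.2 y
  cr : ∀ e ∈ R, ∀ f ∈ R, e ≠ f → (Lt M ord e.1 f.1 ∧ Lt M ord e.2 f.2) ∨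
    (Lt M ord f.1 e.1 ∧ Lt M ord f.2 e.2)

variable {R : Finset ((ℕ × ℕ × ℕ) × (ℕ × ℕ × ℕ))} {x y : ℕ × ℕ × ℕ}

theorem RS.left_inj (h : RS P M nb T X Y Z ord R x y) {e f} (he : e ∈ R) (hf : f ∈ R)
    (hef : e.1 = f.1) : e = f := by
  by_contra hne
  rcases h.cr e he f hf hne with h1 | h1
  · rw [hef] at h1
    exact h1.1.irrefl
  · rw [hef] at h1
    exact h1.1.irrefl

theorem RS.right_inj (h : RS P M nb T X Y Z ord R x y) {e f} (he : e ∈ R) (hf : f ∈ R)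
    (hef : e.2 = f.2) : e = f := by
  by_contra hne
  rcases h.cr e he f hf hne with h1 | h1
  · rw [hef] at h1
    exact h1.2.irrefl
  · rw [hef] at h1
    exact h1.2.irrefl

theorem card_le_label {β : Type*} {R : Finset β} {n : ℕ} (lab : β → ℕ) (h1 : ∀ e ∈ R, lab e < n)
    (h2 : ∀ e ∈ R, ∀ f ∈ R, lab e = lab f → e = f) : R.card ≤ n := by
  have := Finset.card_le_card_of_injOn (s := R) (t := Finset.range n) lab
    (fun e he => by
      rw [Finset.mem_coe, Finset.mem_range]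
      exact h1 e he)
    (fun e he f hf hef => h2 e he f hf hef)
  rwa [Finset.card_range] at this

/-- all left ends are hub vertices -/
theorem card_hub {o : ℕ} (hR : RS P M nb T X Y Z ord R (0, 0, o) y) (hM : 1 ≤ M)
    (ho : o < P + 1) : R.card ≤ P := by
  have key : ∀ e ∈ R, e.1.1 = 0 ∧ e.1.2.1 = 0 ∧ e.1.2.2 < P ∧ e.1.2.2 < o := by
    rintro ⟨⟨h1, s1, o1⟩, ⟨h2, s2, o2⟩⟩ he
    have t := (hR.edge _ he).ty hM
    have l := hR.lx _ he
    unfold Lt at l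
    unfold Ty at t
    dsimp only at l ⊢
    rcases t with t | t
    · have e1 : off M ord (h1, s1, o1) = o1 := off_post (by omega)
      have e2 : off M ord (0, 0, o) = o := off_post (by omega)
      omega
    · have := t.1
      omega
  refine card_le_label (fun e => e.1.2.2) (fun e he => (key e he).2.2.1) ?_
  intro e he f hf hef
  have k1 := key e he
  have k2 := key f hf
  refine hR.left_inj he hf ?_
  refine Prod.ext (by omega) (Prod.ext (by omega) hef)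

/-- the right ends are block vertices of one clique -/
theorem card_clique {h s o o' : ℕ} (hR : RS P M nb T X Y Z ord R (h, s, o) (h, s, o'))
    (hs : s = 0 ∨ s = 2 * M + 2) (ho' : o' < P + 2) : R.card ≤ P := by
  have key : ∀ e ∈ R, e.2.1 = h ∧ e.2.2.1 = s ∧ 1 ≤ e.2.2.2 ∧ e.2.2.2 < P + 1 := by
    rintro ⟨⟨h1, s1, o1⟩, ⟨h2, s2, o2⟩⟩ he
    have l := hR.xr _ he
    have r := hR.ry _ he
    unfold Lt at l r
    dsimp only at l r ⊢
    have e0 : h2 = h ∧ s2 = s := by omega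
    have e1 : off M ord (h2, s2, o2) = o2 := off_post (by omega)
    have e2 : off M ord (h, s, o) = o := off_post (by omega)
    have e3 : off M ord (h, s, o') = o' := off_post (by omega)
    omega
  refine card_le_label (fun e => e.2.2.2 - 1) (fun e he => ?_) ?_
  · have := key e he
    omega
  · intro e he f hf hef
    have k1 := key e he
    have k2 := key f hf
    refine hR.right_inj he hf ?_
    exact Prod.ext (by omega) (Prod.ext (by omega) (by omega))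

/-- the edges from the left clique to the first level -/
theorem card_first {h o' : ℕ} (hR : RS P M nb T X Y Z ord R (h, 0, P + 1) (h, 2, o'))
    (hM : 1 ≤ M) : R.card ≤ P := by
  have key : ∀ e ∈ R, e.2.1 = h ∧ e.2.2.1 = 1 ∧ e.2.2.2 < P := by
    rintro ⟨⟨h1, s1, o1⟩, ⟨h2, s2, o2⟩⟩ he
    have t := (hR.edge _ he).ty hM
    have l := hR.lx _ he
    have m := hR.xr _ he
    have r := hR.ry _ he
    unfold Lt at l m r
    unfold Ty at t
    dsimp only at l m r ⊢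
    have e2 : off M ord (h, 0, P + 1) = P + 1 := off_post (by omega)
    have e0 : h2 = h ∧ (s2 = 0 ∨ s2 = 1 ∨ s2 = 2) := by omega
    rcases t with t | ⟨t1, t2, t⟩
    · rcases e0.2 with e | e | e
      · have e1 : off M ord (h2, s2, o2) = o2 := off_post (by omega)
        omega
      · omega
      · omega
    · rcases t with t | t | t | t | t | t | t | t
      · have e1 : off M ord (h2, s2, o2) = o2 := off_post (by omega)
        omega
      · have e1 : off M ord (h1, s1, o1) = o1 := off_post (by omega)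
        omega
      · omega
      · omega
      · omega
      · omega
      · omega
      · omega
  refine card_le_label (fun e => e.2.2.2) (fun e he => (key e he).2.2) ?_
  intro e he f hf hef
  have k1 := key e he
  have k2 := key f hf
  refine hR.right_inj he hf ?_
  exact Prod.ext (by omega) (Prod.ext (by omega) hef)

/-- the edges from a block to a guide -/
theorem card_guide (O : OrdOK P M nb X Y Z ord) {h s o g : ℕ}
    (hR : RS P M nb T X Y Z ord R (h, s, o) (h, s + 1, g)) (hs : s % 2 = 1)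
    (hs' : s + 1 ≤ 2 * M) (hg : Gd s g) (ho : o < P) : R.card ≤ P := by
  have key : ∀ e ∈ R, e.2.1 = h ∧ ((e.2.2.1 = s ∧ 1 ≤ e.2.2.2 ∧ e.2.2.2 < P) ∨
      (e.2.2.1 = s + 1 ∧ Gd s e.2.2.2 ∧ e.2.2.2 ≠ g)) := by
    rintro ⟨⟨h1, s1, o1⟩, ⟨h2, s2, o2⟩⟩ he
    have t := (hR.edge _ he).1.2.1
    have m := hR.xr _ he
    have r := hR.ry _ he
    unfold Lt at m r
    unfold GV HV FV BV at t
    dsimp only at m r t ⊢
    have e2 : off M ord (h, s, o) = o := off_post (by omega)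
    have e3 : off M ord (h, s + 1, g) = ord ((s + 1) / 2) g := off_lev (by omega) (by omega)
      (by omega)
    have e0 : h2 = h ∧ (s2 = s ∨ s2 = s + 1) := by omega
    refine ⟨e0.1, ?_⟩
    rcases e0.2 with e | e
    · left
      have e1 : off M ord (h2, s2, o2) = o2 := off_post (by omega)
      omega
    · right
      have e1 : off M ord (h2, s2, o2) = ord ((s + 1) / 2) o2 := off_lev (by omega) (by omega)
        (by omega)
      have hlt : ord ((s + 1) / 2) o2 < ord ((s + 1) / 2) g := by omega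
      refine ⟨e, ?_, ?_⟩
      · have := O.gfirst ((s + 1) / 2) g o2 (by omega) (by omega)
        rw [show 2 * ((s + 1) / 2) - 1 = s by omega] at this
        exact this hg hlt
      · rintro rfl
        omega
  refine card_le_label (fun e => if e.2.2.1 = s then e.2.2.2 else 0) (fun e he => ?_) ?_
  · have := key e he
    split_ifs <;> omega
  · intro e he f hf hef
    have k1 := key e he
    have k2 := key f hf
    refine hR.right_inj he hf ?_
    have : e.2.2.1 = f.2.2.1 ∧ e.2.2.2 = f.2.2.2 := by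
      unfold Gd at *
      split_ifs at hef <;> omega
    exact Prod.ext (by omega) (Prod.ext this.1 this.2)

end

end Pool.Agent.E8helper92.OQ
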