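import Pool.Agent.E8helper92.OQ.Level

/-!
# The intended order has no `P + 2` pairwise crossing edges: conclusion
-/

set_option linter.unusedSectionVars false

namespace Pool.Agent.E8helper92.OQ

open Pool.Agent.H619R2.QP

/-- the position of a vertex in the intended order -/
def lpos (M : ℕ) (ord : ℕ → ℕ → ℕ) (A C : ℕ) (v : ℕ × ℕ × ℕ) : ℕ :=
  (v.1 * A + v.2.1) * C + off M ord v

theorem lex2 {x x' c c' C : ℕ} (hc : c < C) (hc' : c' < C) :
    x * C + c < x' * C + c' ↔ x < x' ∨ (x = x' ∧ c < c') := by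
  rcases lt_trichotomy x x' with h | h | h
  · have : (x + 1) * C ≤ x' * C := Nat.mul_le_mul_right C h
    rw [Nat.add_mul] at this
    constructor
    · intro _
      exact Or.inl h
    · intro _
      omega
  · subst h
    constructor
    · intro h
      exact Or.inr ⟨rfl, by omega⟩
    · rintro (h | ⟨_, h⟩)
      · omega
      · omega
  · have : (x' + 1) * C ≤ x * C := Nat.mul_le_mul_right C h
    rw [Nat.add_mul] at this
    constructor
    · intro _
      omega
    · rintro (h | ⟨_, h⟩) <;> omega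

theorem lpos_lt {M : ℕ} {ord : ℕ → ℕ → ℕ} {A C : ℕ} {u v : ℕ × ℕ × ℕ} (hu : u.2.1 < A)
    (hv : v.2.1 < A) (hu' : off M ord u < C) (hv' : off M ord v < C) :
    lpos M ord A C u < lpos M ord A C v ↔ Lt M ord u v := by
  unfold lpos Lt
  rw [lex2 hu' hv', lex2 hu hv]
  constructor
  · rintro ((h | h) | ⟨h, h'⟩)
    · omega
    · omega
    · have : u.1 = v.1 ∧ u.2.1 = v.2.1 := by
        rcases lt_trichotomy u.1 v.1 with h1 | h1 | h1
        · have := (lex2 hu hv).2 (Or.inl h1)
          omega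
        · rw [h1] at h
          omega
        · have := (lex2 hv hu).2 (Or.inl h1)
          omega
      omega
  · rintro (h | ⟨h, h' | ⟨h', h''⟩⟩)
    · omega
    · omega
    · rw [h, h']
      omega

section

variable {P M nb T : ℕ} {X Y Z : ℕ → ℕ} {ord : ℕ → ℕ → ℕ}

/-- crossing for edges with their left ends first -/
def CrL (M : ℕ) (ord : ℕ → ℕ → ℕ) (e f : (ℕ × ℕ × ℕ) × (ℕ × ℕ × ℕ)) : Prop :=
  (Lt M ord e.1 f.1 ∧ Lt M ord f.1 e.2 ∧ Lt M ord e.2 f.2) ∨
  (Lt M ord f.1 e.1 ∧ Lt M ord e.1 f.2 ∧ Lt M ord f.2 e.2)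

theorem not_twist (O : OrdOK P M nb X Y Z ord) (hP : 2 ≤ P) (hM : 1 ≤ M)
    {S : Finset ((ℕ × ℕ × ℕ) × (ℕ × ℕ × ℕ))} (hS : ∀ e ∈ S, OE P M nb T X Y Z ord e)
    (hcr : ∀ e ∈ S, ∀ f ∈ S, e ≠ f → CrL M ord e f)
    {pos : ℕ × ℕ × ℕ → ℕ} (hpos : ∀ e ∈ S, ∀ f ∈ S, pos e.1 < pos f.1 ↔ Lt M ord e.1 f.1) :
    S.card ≤ P + 1 := by
  classical
  by_contra hc
  push Not at hc
  have hne : S.Nonempty := by
    rw [← Finset.card_pos]
    omega
  obtain ⟨m, hm, hmax⟩ := S.exists_max_image (fun e => pos e.1) hne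
  have hR : RS P M nb T X Y Z ord (S.erase m) m.1 m.2 := by
    have key : ∀ e ∈ S.erase m, Lt M ord e.1 m.1 ∧ Lt M ord m.1 e.2 ∧ Lt M ord e.2 m.2 := by
      intro e he
      rw [Finset.mem_erase] at he
      rcases hcr e he.2 m hm he.1 with h | h
      · exact h
      · exfalso
        have h1 := (hpos m hm e he.2).2 h.1
        have h2 := hmax e he.2
        omega
    refine ⟨fun e he => hS e (Finset.mem_of_mem_erase he), fun e he => (key e he).1,
      fun e he => (key e he).2.1, fun e he => (key e he).2.2, fun e he f hf hne => ?_⟩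
    rcases hcr e (Finset.mem_of_mem_erase he) f (Finset.mem_of_mem_erase hf) hne with h | h
    · exact Or.inl ⟨h.1, h.2.2⟩
    · exact Or.inr ⟨h.1, h.2.2⟩
  have := card_R O hP hM (hS m hm) hR
  rw [Finset.card_erase_of_mem hm] at this
  omega

theorem off_lt {C : ℕ} (hlt : ∀ i e, e < nb → ord i e < C) (hC : P + 2 ≤ C) (hM : 1 ≤ M)
    {u : ℕ × ℕ × ℕ} (hu : GV P M nb T u) : off M ord u < C ∧ u.2.1 < 2 * M + 3 := by
  obtain ⟨h, s, o⟩ := u
  unfold GV HV FV BV at hu
  dsimp only at hu ⊢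
  by_cases hs : s % 2 = 0 ∧ 2 ≤ s ∧ s ≤ 2 * M
  · rw [off_lev (i := s / 2) (by omega) (by omega) (by omega)]
    exact ⟨hlt _ _ (by omega), by omega⟩
  · rw [off_post (by omega)]
    omega

theorem complete_ord (O : OrdOK P M nb X Y Z ord) {C : ℕ} (hlt : ∀ i e, e < nb → ord i e < C)
    (hC : P + 2 ≤ C) (hP : 2 ≤ P) (hM : 1 ≤ M) :
    NT (P + 2) (lpos M ord (2 * M + 3) C) (GA P M nb T X Y Z) := by
  classical
  intro l hl hE hp
  have hltp : ∀ u v, GV P M nb T u → GV P M nb T v →
      (lpos M ord (2 * M + 3) C u < lpos M ord (2 * M + 3) C v ↔ Lt M ord u v) :=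
    fun u v hu hv =>
      lpos_lt (off_lt hlt hC hM hu).2 (off_lt hlt hC hM hv).2 (off_lt hlt hC hM hu).1
        (off_lt hlt hC hM hv).1
  set orient : (ℕ × ℕ × ℕ) × (ℕ × ℕ × ℕ) → (ℕ × ℕ × ℕ) × (ℕ × ℕ × ℕ) :=
    fun e => if Lt M ord e.1 e.2 then e else (e.2, e.1) with hor
  -- the two ends of a crossing edge are different
  have hne : ∀ e ∈ l, Lt M ord e.1 e.2 ∨ Lt M ord e.2 e.1 ∨
      lpos M ord (2 * M + 3) C e.1 = lpos M ord (2 * M + 3) C e.2 := by
    intro e he
    obtain ⟨g1, g2, g3⟩ := hE e he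
    rw [← hltp _ _ g1 g2, ← hltp _ _ g2 g1]
    omega
  have hne2 : ∀ e ∈ l, lpos M ord (2 * M + 3) C e.1 ≠ lpos M ord (2 * M + 3) C e.2 := by
    intro e he heq
    -- an edge with equal ends crosses nothing, but there are other edges
    obtain ⟨g1, g2, g3⟩ := hE e he
    obtain ⟨n, hn, hne⟩ := List.getElem_of_mem he
    have hlen : 2 ≤ l.length := by omega
    have hpw := List.pairwise_iff_getElem.1 hp
    rcases Nat.eq_zero_or_pos n with h0 | h0
    · have := hpw n 1 hn (by omega) (by omega)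
      rw [hne] at this
      unfold Cr cr at this
      dsimp only at this
      omega
    · have := hpw 0 n (by omega) hn h0
      rw [hne] at this
      unfold Cr cr at this
      dsimp only at this
      omega
  have ho : ∀ e ∈ l, OE P M nb T X Y Z ord (orient e) ∧ Lt M ord (orient e).1 (orient e).2 ∧
      (orient e = e ∨ orient e = (e.2, e.1)) := by
    intro e he
    have g := hE e he
    rw [hor]
    dsimp only
    by_cases h2 : Lt M ord e.1 e.2
    · rw [if_pos h2]
      exact ⟨⟨g, h2⟩, h2, Or.inl rfl⟩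
    · rw [if_neg h2]
      have h3 : Lt M ord e.2 e.1 := by
        rcases hne e he with h | h | h
        · exact absurd h h2
        · exact h
        · exact absurd h (hne2 e he)
      exact ⟨⟨g.symm, h3⟩, h3, Or.inr rfl⟩
  have hp' : (l.map orient).Pairwise (CrL M ord) := by
    rw [List.pairwise_map]
    refine List.Pairwise.imp_of_mem ?_ hp
    intro e f he hf hef
    obtain ⟨e1, e2, e3⟩ := ho e he
    obtain ⟨f1, f2, f3⟩ := ho f hf
    have hef' : cr (lpos M ord (2 * M + 3) C (orient e).1, lpos M ord (2 * M + 3) C (orient e).2)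
        (lpos M ord (2 * M + 3) C (orient f).1, lpos M ord (2 * M + 3) C (orient f).2) := by
      unfold Cr cr at hef
      unfold cr
      dsimp only at hef ⊢
      rcases e3 with e3 | e3 <;> rcases f3 with f3 | f3 <;> rw [e3, f3] <;> (try dsimp only) <;> omega
    have a1 := (hltp _ _ e1.1.1 e1.1.2.1).2 e2
    have a2 := (hltp _ _ f1.1.1 f1.1.2.1).2 f2
    unfold CrL
    rw [← hltp _ _ e1.1.1 f1.1.1, ← hltp _ _ f1.1.1 e1.1.2.1, ← hltp _ _ e1.1.2.1 f1.1.2.1,
      ← hltp _ _ f1.1.1 e1.1.1, ← hltp _ _ e1.1.1 f1.1.2.1, ← hltp _ _ f1.1.2.1 e1.1.2.1]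
    unfold cr at hef'
    dsimp only at hef'
    omega
  have hirr : ∀ e, ¬ CrL M ord e e := by
    intro e he
    rcases he with he | he
    · exact he.1.irrefl
    · exact he.1.irrefl
  have hnd : (l.map orient).Nodup := by
    refine List.Pairwise.imp ?_ hp'
    intro e f hef hne
    subst hne
    exact hirr _ hef
  have hsymm : Std.Symm (CrL M ord) := by
    refine ⟨fun e f hef => ?_⟩
    rcases hef with hef | hef
    · exact Or.inr hef
    · exact Or.inl hef
  have hall : ∀ e ∈ l.map orient, OE P M nb T X Y Z ord e := by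
    intro e he
    rw [List.mem_map] at he
    obtain ⟨f, hf, rfl⟩ := he
    exact (ho f hf).1
  have := not_twist (S := (l.map orient).toFinset) (pos := lpos M ord (2 * M + 3) C) O hP hM
    (fun e he => hall e (List.mem_toFinset.1 he))
    (fun e he f hf hne => hp'.forall (List.mem_toFinset.1 he) (List.mem_toFinset.1 hf) hne)
    (fun e he f hf => hltp _ _ (hall e (List.mem_toFinset.1 he)).1.1
      (hall f (List.mem_toFinset.1 hf)).1.1)
  rw [List.toFinset_card_of_nodup hnd, List.length_map, hl] at this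
  omega

theorem lpos_inj (O : OrdOK P M nb X Y Z ord) {C : ℕ} (hlt : ∀ i e, e < nb → ord i e < C)
    (hC : P + 2 ≤ C) (hM : 1 ≤ M) {u v : ℕ × ℕ × ℕ} (hu : GV P M nb T u) (hv : GV P M nb T v)
    (huv : lpos M ord (2 * M + 3) C u = lpos M ord (2 * M + 3) C v) : u = v := by
  have h1 := off_lt hlt hC hM hu
  have h2 := off_lt hlt hC hM hv
  have n1 := (lpos_lt (A := 2 * M + 3) h1.2 h2.2 h1.1 h2.1).not
  have n2 := (lpos_lt (A := 2 * M + 3) h2.2 h1.2 h2.1 h1.1).not
  have m1 := n1.1 (by omega)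
  have m2 := n2.1 (by omega)
  unfold Lt at m1 m2
  obtain ⟨h, s, o⟩ := u
  obtain ⟨h', s', o'⟩ := v
  dsimp only at m1 m2
  have e1 : h = h' ∧ s = s' := by omega
  obtain ⟨rfl, rfl⟩ := e1
  unfold GV HV FV BV at hu hv
  dsimp only at hu hv
  by_cases hs : s % 2 = 0 ∧ 2 ≤ s ∧ s ≤ 2 * M
  · rw [off_lev (i := s / 2) (by omega) (by omega) (by omega),
      off_lev (i := s / 2) (by omega) (by omega) (by omega)] at m1 m2
    rw [O.inj (s / 2) o o' (by omega) (by omega) (by omega)]
  · rw [off_post (by omega), off_post (by omega)] at m1 m2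
    rw [show o = o' by omega]

end

/-- the place of an element in the order of the odd levels; the last guides have the places
`m` and `m + 1` -/
def val (P m : ℕ) (K : ℕ → ℕ) (e : ℕ) : ℕ :=
  if e < 2 then e else if e < 4 then m + e - 2 else
    2 + (P + 3) * K ((e - 4) / (P + 3)) + (e - 4) % (P + 3)

/-- the order of the level `i` -/
def ordv (P m : ℕ) (K : ℕ → ℕ) (i e : ℕ) : ℕ :=
  if i % 2 = 1 then val P m K e else m + 1 - val P m K e

section

variable {P n m : ℕ} {K : ℕ → ℕ}

theorem val_cl {c k : ℕ} (hk : k < P + 3) :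
    val P m K (4 + (P + 3) * c + k) = 2 + (P + 3) * K c + k := by
  unfold val
  rw [if_neg (by omega), if_neg (by omega), show 4 + (P + 3) * c + k - 4 = (P + 3) * c + k by omega,
    Nat.mul_add_mod, Nat.mod_eq_of_lt hk, Nat.mul_add_div (by omega), Nat.div_eq_of_lt hk]
  rfl

/-- the three kinds of elements -/
theorem el_cases {e : ℕ} (he : e < 4 + (P + 3) * (n + 1)) :
    (e < 2 ∧ val P m K e = e) ∨ (2 ≤ e ∧ e < 4 ∧ val P m K e = m + e - 2) ∨
    (∃ c k, c ≤ n ∧ k < P + 3 ∧ e = 4 + (P + 3) * c + k ∧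
      val P m K e = 2 + (P + 3) * K c + k) := by
  by_cases h1 : e < 2
  · left
    refine ⟨h1, ?_⟩
    unfold val
    rw [if_pos h1]
  · by_cases h2 : e < 4
    · right; left
      refine ⟨by omega, h2, ?_⟩
      unfold val
      rw [if_neg h1, if_pos h2]
    · right; right
      have h3 := Nat.div_add_mod (e - 4) (P + 3)
      have h4 := Nat.mod_lt (e - 4) (show 0 < P + 3 by omega)
      have h5 : e = 4 + (P + 3) * ((e - 4) / (P + 3)) + (e - 4) % (P + 3) := by omega
      refine ⟨(e - 4) / (P + 3), (e - 4) % (P + 3), ?_, h4, h5, ?_⟩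
      · have : (e - 4) / (P + 3) < n + 1 := by
          rw [Nat.div_lt_iff_lt_mul (by omega)]
          rw [Nat.mul_comm]
          omega
        omega
      · conv_lhs => rw [h5]
        exact val_cl h4

variable (hm : ∀ c ≤ n, 2 + (P + 3) * K c + (P + 3) ≤ m) (hm2 : 2 ≤ m)

include hm hm2

theorem val_le {e : ℕ} (he : e < 4 + (P + 3) * (n + 1)) : val P m K e ≤ m + 1 := by
  rcases el_cases (m := m) (K := K) he with h | h | ⟨c, k, h1, h2, h3, h4⟩
  · omega
  · omega
  · have := hm c h1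
    omega

theorem val_inj (hK : ∀ a ≤ n, ∀ b ≤ n, K a = K b → a = b) {e e' : ℕ}
    (he : e < 4 + (P + 3) * (n + 1)) (he' : e' < 4 + (P + 3) * (n + 1))
    (h : val P m K e = val P m K e') : e = e' := by
  rcases el_cases (m := m) (K := K) he with h1 | h1 | ⟨c, k, h1, h2, h3, h4⟩ <;>
    rcases el_cases (m := m) (K := K) he' with g1 | g1 | ⟨d, l, g1, g2, g3, g4⟩
  · omega
  · omega
  · omega
  · omega
  · omega
  · have := hm d g1
    omega
  · omega
  · have := hm c h1
    omega
  · rw [h4, g4] at h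
    have h5 : K c = K d ∧ k = l := by
      rcases lt_trichotomy (K c) (K d) with h6 | h6 | h6
      · have : (P + 3) * (K c + 1) ≤ (P + 3) * K d := Nat.mul_le_mul_left _ h6
        rw [Nat.mul_add] at this
        omega
      · rw [h6] at h
        exact ⟨h6, by omega⟩
      · have : (P + 3) * (K d + 1) ≤ (P + 3) * K c := Nat.mul_le_mul_left _ h6
        rw [Nat.mul_add] at this
        omega
    rw [h3, g3, hK c h1 d g1 h5.1, h5.2]

omit hm hm2 in
theorem val_nxt {e f : ℕ} (he : e < 4 + (P + 3) * (n + 1)) (h : f = e ∨ nxt (P + 3) e f) :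
    val P m K f = val P m K e ∨ val P m K f = val P m K e + 1 := by
  rcases h with h | ⟨h1, h2, h3⟩
  · left
    rw [h]
  · right
    rcases el_cases (m := m) (K := K) he with g | g | ⟨c, k, g1, g2, g3, g4⟩
    · omega
    · omega
    · subst g3
      rw [show 4 + (P + 3) * c + k - 4 = (P + 3) * c + k by omega, Nat.mul_add_mod,
        Nat.mod_eq_of_lt g2] at h3
      rw [h1, Nat.add_assoc, val_cl (by omega), val_cl (by omega)]
      omega

theorem ordOK_ordv (hK : ∀ a ≤ n, ∀ b ≤ n, K a = K b → a = b) {M : ℕ} {X Y Z : ℕ → ℕ}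
    (hX : ∀ i, 1 ≤ i → i < M → X i ≤ n ∧ Y i ≤ n ∧ Z i ≤ n ∧ X i ≠ Y i ∧ X i ≠ Z i ∧ Y i ≠ Z i)
    (ht : ∀ i, 1 ≤ i → i < M → ¬ (K (X i) < K (Z i) ∧ K (Z i) < K (Y i)) ∧
      ¬ (K (Y i) < K (Z i) ∧ K (Z i) < K (X i))) :
    OrdOK P M (4 + (P + 3) * (n + 1)) X Y Z (ordv P m K) := by
  have hle : ∀ e, e < 4 + (P + 3) * (n + 1) → val P m K e ≤ m + 1 := fun e he =>
    val_le hm hm2 he
  -- comparison of the values of elements of different clusters
  have hcmp : ∀ a b k l, K a ≠ K b → k < P + 3 → l < P + 3 →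
      (val P m K (4 + (P + 3) * a + k) < val P m K (4 + (P + 3) * b + l) ↔ K a < K b) := by
    intro a b k l hab hk hl
    rw [val_cl hk, val_cl hl]
    constructor
    · intro h
      by_contra hc
      have : (P + 3) * (K b + 1) ≤ (P + 3) * K a := Nat.mul_le_mul_left _ (by omega)
      rw [Nat.mul_add] at this
      omega
    · intro h
      have : (P + 3) * (K a + 1) ≤ (P + 3) * K b := Nat.mul_le_mul_left _ (by omega)
      rw [Nat.mul_add] at this
      omega
  have hxin : ∀ c v, xin P c v → ∃ k, k < P + 3 ∧ v = 4 + (P + 3) * c + k := by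
    intro c v h
    obtain ⟨h1, h2⟩ := h
    exact ⟨v - (4 + (P + 3) * c), by omega, by omega⟩
  have hcb : ∀ c k, c ≤ n → k < P + 3 → 4 + (P + 3) * c + k < 4 + (P + 3) * (n + 1) := by
    intro c k hc hk
    have : (P + 3) * (c + 1) ≤ (P + 3) * (n + 1) := Nat.mul_le_mul_left _ (by omega)
    rw [Nat.mul_add] at this
    omega
  refine ⟨?_, ?_, ?_, ?_, ?_, ?_⟩
  · intro i e e' he he' h
    have h1 := hle e he
    have h2 := hle e' he'
    refine val_inj hm hm2 hK he he' ?_
    unfold ordv at h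
    split_ifs at h <;> omega
  · intro i e e' f f' he he' hf hf' hn hn' h
    have h1 := hle e he
    have h2 := hle e' he'
    have h3 := hle f hf
    have h4 := hle f' hf'
    have h5 := val_nxt (m := m) (K := K) he hn
    have h6 := val_nxt (m := m) (K := K) he' hn'
    unfold ordv at *
    rcases Nat.mod_two_eq_zero_or_one i with hi | hi
    · rw [if_neg (by omega), if_neg (by omega)] at h
      rw [if_pos (by omega), if_pos (by omega)]
      omega
    · rw [if_pos (by omega), if_pos (by omega)] at h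
      rw [if_neg (by omega), if_neg (by omega)]
      omega
  · intro i g b hi hb hg h
    have hgn : g < 4 + (P + 3) * (n + 1) := by
      unfold Gd at hg
      omega
    have h1 := hle g hgn
    have h2 := hle b hb
    unfold ordv at h
    unfold Gd at *
    rcases Nat.mod_two_eq_zero_or_one i with hi2 | hi2
    · rw [if_neg (by omega), if_neg (by omega)] at h
      rcases el_cases (m := m) (K := K) hgn with c1 | c1 | ⟨c, k, c1, c2, c3, c4⟩
      · omega
      · rcases el_cases (m := m) (K := K) hb with d1 | d1 | ⟨d, l, d1, d2, d3, d4⟩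
        · omega
        · omega
        · have := hm d d1
          omega
      · omega
    · rw [if_pos (by omega), if_pos (by omega)] at h
      rcases el_cases (m := m) (K := K) hgn with c1 | c1 | ⟨c, k, c1, c2, c3, c4⟩
      · rcases el_cases (m := m) (K := K) hb with d1 | d1 | ⟨d, l, d1, d2, d3, d4⟩
        · omega
        · omega
        · omega
      · omega
      · omega
  · intro i g b hb hg h
    have hgn : g < 4 + (P + 3) * (n + 1) := by
      unfold Gd at hg
      omega
    have h1 := hle g hgn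
    have h2 := hle b hb
    unfold ordv at h
    unfold Gd at *
    rcases Nat.mod_two_eq_zero_or_one i with hi2 | hi2
    · rw [if_neg (by omega), if_neg (by omega)] at h
      rcases el_cases (m := m) (K := K) hgn with c1 | c1 | ⟨c, k, c1, c2, c3, c4⟩
      · rcases el_cases (m := m) (K := K) hb with d1 | d1 | ⟨d, l, d1, d2, d3, d4⟩
        · omega
        · omega
        · omega
      · omega
      · omega
    · rw [if_pos (by omega), if_pos (by omega)] at h
      rcases el_cases (m := m) (K := K) hgn with c1 | c1 | ⟨c, k, c1, c2, c3, c4⟩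
      · omega
      · rcases el_cases (m := m) (K := K) hb with d1 | d1 | ⟨d, l, d1, d2, d3, d4⟩
        · omega
        · omega
        · have := hm d d1
          omega
      · omega
  · intro i h1 h2 x y hx hy
    obtain ⟨b1, b2, b3, b4, b5, b6⟩ := hX i h1 h2
    obtain ⟨k, hk, rfl⟩ := hxin _ _ hx
    obtain ⟨l, hl, rfl⟩ := hxin _ _ hy
    have n1 : K (X i) ≠ K (Z i) := fun h => b5 (hK _ b1 _ b3 h)
    have n2 : K (Y i) ≠ K (Z i) := fun h => b6 (hK _ b2 _ b3 h)
    have hti := ht i h1 h2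
    have c1 := hcmp _ _ k 2 n1 hk (by omega)
    have c2 := hcmp _ _ 2 k n1.symm (by omega) hk
    have c3 := hcmp _ _ l 2 n2 hl (by omega)
    have c4 := hcmp _ _ 2 l n2.symm (by omega) hl
    have v1 := hle _ (hcb _ k b1 hk)
    have v2 := hle _ (hcb _ l b2 hl)
    have v3 := hle _ (hcb _ 2 b3 (by omega))
    unfold ordv
    split_ifs <;> omega
  · intro i h1 h2 x x' y y' hx hx' hy hy' hxy hyx
    obtain ⟨b1, b2, b3, b4, b5, b6⟩ := hX i h1 h2
    obtain ⟨k, hk, rfl⟩ := hxin _ _ hx
    obtain ⟨k', hk', rfl⟩ := hxin _ _ hx'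
    obtain ⟨l, hl, rfl⟩ := hxin _ _ hy
    obtain ⟨l', hl', rfl⟩ := hxin _ _ hy'
    have n1 : K (X i) ≠ K (Y i) := fun h => b4 (hK _ b1 _ b2 h)
    have c1 := hcmp _ _ k l n1 hk hl
    have c2 := hcmp _ _ l k n1.symm hl hk
    have c3 := hcmp _ _ k' l' n1 hk' hl'
    have c4 := hcmp _ _ l' k' n1.symm hl' hk'
    have v1 := hle _ (hcb _ k b1 hk)
    have v2 := hle _ (hcb _ l b2 hl)
    have v3 := hle _ (hcb _ k' b1 hk')
    have v4 := hle _ (hcb _ l' b2 hl')
    unfold ordv at hxy hyx
    split_ifs at hxy hyx <;> omega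

end

/-- **Completeness.** -/
theorem completeness {P : ℕ} (hP : 2 ≤ P) {ts : NBI} (hts : NBok ts) (h : NBsat ts) :
    ∃ pos : ℕ × ℕ × ℕ → ℕ,
      (∀ u v, GV P (Mf ts) (nbf P ts) (Tf P ts) u → GV P (Mf ts) (nbf P ts) (Tf P ts) v →
        pos u = pos v → u = v) ∧
      NT (P + 2) pos (GA P (Mf ts) (nbf P ts) (Tf P ts) (tX ts) (tY ts) (tZ ts)) := by
  obtain ⟨K, hK, hKt⟩ := h
  set B := (Finset.range (ts.length + 1)).sup K with hB
  have hKB : ∀ c ≤ ts.length, K c ≤ B := by
    intro c hc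
    exact Finset.le_sup (f := K) (Finset.mem_range.2 (by omega))
  set m := 2 + (P + 3) * (B + 1) with hmdef
  have hm : ∀ c ≤ ts.length, 2 + (P + 3) * K c + (P + 3) ≤ m := by
    intro c hc
    have : (P + 3) * K c ≤ (P + 3) * B := Nat.mul_le_mul_left _ (hKB c hc)
    rw [hmdef, Nat.mul_add]
    omega
  have hmem : ∀ i, 1 ≤ i → i < Mf ts → tst ts i ∈ ts := by
    intro i h1 h2
    unfold Mf at h2
    unfold tst
    rw [List.getD_eq_getElem _ _ (show i - 1 < ts.length by omega)]
    exact List.getElem_mem _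
  have O : OrdOK P (Mf ts) (nbf P ts) (tX ts) (tY ts) (tZ ts) (ordv P m K) := by
    unfold nbf
    refine ordOK_ordv hm (by omega) hK (fun i h1 h2 => ?_) (fun i h1 h2 => ?_)
    · exact hts _ (hmem i h1 h2)
    · exact hKt _ (hmem i h1 h2)
  have hlt : ∀ i e, e < nbf P ts → ordv P m K i e < m + P + 4 := by
    intro i e he
    have := val_le hm (by omega) (e := e) (by unfold nbf at he; exact he)
    unfold ordv
    split_ifs <;> omega
  have hM : 1 ≤ Mf ts := by
    unfold Mf
    omega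
  refine ⟨lpos (Mf ts) (ordv P m K) (2 * Mf ts + 3) (m + P + 4), ?_, ?_⟩
  · intro u v hu hv huv
    exact lpos_inj O hlt (by omega) hM hu hv huv
  · exact complete_ord O hlt (by omega) hP hM

end Pool.Agent.E8helper92.OQ
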