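import Pool.Agent.H619R2.QP.Basic

/-!
# The hub: neighbours of deep vertices are in the same gap
-/

set_option linter.unusedSectionVars false

namespace Pool.Agent.E8helper92.OQ

open Pool.Agent.H619R2.QP

/-- A hub `W` of `P + 1` vertices all of which are adjacent to all block vertices `F`, and a
placement without `P + 2` pairwise crossing edges. -/
structure Hub {α : Type*} (P : ℕ) (V : α → Prop) (W F : Finset α) (Adj : α → α → Prop)
    (pos : α → ℕ) : Prop where
  card : W.card = P + 1
  VW : ∀ w ∈ W, V w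
  VF : ∀ f ∈ F, V f
  FW : ∀ f ∈ F, f ∉ W
  adj : ∀ w ∈ W, ∀ f ∈ F, Adj w f
  symm : ∀ u v, Adj u v → Adj v u
  adjV : ∀ u v, Adj u v → V u
  inj : ∀ u v, V u → V v → pos u = pos v → u = v
  nt : NT (P + 2) pos Adj

section

variable {α : Type*} [DecidableEq α] {P : ℕ} {V : α → Prop} {W F : Finset α}
  {Adj : α → α → Prop} {pos : α → ℕ}

theorem Hub.adjWF (H : Hub P V W F Adj pos) {w f : α} (hw : w ∈ W) (hf : f ∈ F) : Adj w f :=
  H.adj w hw f hf

theorem Hub.adjFW (H : Hub P V W F Adj pos) {w f : α} (hw : w ∈ W) (hf : f ∈ F) : Adj f w :=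
  H.symm _ _ (H.adj w hw f hf)

theorem Hub.injOn (H : Hub P V W F Adj pos) {S : Finset α} (hS : ∀ x ∈ S, V x) :
    Set.InjOn pos S :=
  fun x hx y hy hxy => H.inj x y (hS x hx) (hS y hy) hxy

/-- the hub vertices to the left of `v` -/
def Gp (W : Finset α) (pos : α → ℕ) (v : α) : Finset α := W.filter (fun w => pos w < pos v)

theorem mem_Gp {v w : α} : w ∈ Gp W pos v ↔ w ∈ W ∧ pos w < pos v := by
  unfold Gp
  rw [Finset.mem_filter]

theorem Gp_mono {u v : α} (h : pos u ≤ pos v) : Gp W pos u ⊆ Gp W pos v := by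
  intro w hw
  rw [mem_Gp] at hw ⊢
  exact ⟨hw.1, by omega⟩

theorem Hub.Gp_card_le (H : Hub P V W F Adj pos) (v : α) : (Gp W pos v).card ≤ P + 1 := by
  rw [← H.card]
  exact Finset.card_filter_le _ _

theorem Gp_eq {u v : α} (h : (Gp W pos u).card = (Gp W pos v).card) :
    Gp W pos u = Gp W pos v := by
  rcases le_total (pos u) (pos v) with h1 | h1
  · exact Finset.eq_of_subset_of_card_le (Gp_mono h1) h.ge
  · exact (Finset.eq_of_subset_of_card_le (Gp_mono h1) h.le).symm

/-- block vertices of the same gap to the left -/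
def Yf (W F : Finset α) (pos : α → ℕ) (v : α) : Finset α :=
  F.filter (fun f => Gp W pos f = Gp W pos v ∧ pos f < pos v)

/-- block vertices of the same gap to the right -/
def Zf (W F : Finset α) (pos : α → ℕ) (v : α) : Finset α :=
  F.filter (fun f => Gp W pos f = Gp W pos v ∧ pos v < pos f)

theorem mem_Yf {v f : α} :
    f ∈ Yf W F pos v ↔ f ∈ F ∧ Gp W pos f = Gp W pos v ∧ pos f < pos v := by
  unfold Yf
  rw [Finset.mem_filter]

theorem mem_Zf {v f : α} :
    f ∈ Zf W F pos v ↔ f ∈ F ∧ Gp W pos f = Gp W pos v ∧ pos v < pos f := by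
  unfold Zf
  rw [Finset.mem_filter]

/-- neighbours of deep block vertices are in the same gap -/
theorem Hub.same_gap (H : Hub P V W F Adj pos) {u v : α} (hvV : V v) (hvW : v ∉ W)
    (huv : Adj u v) (hu : u ∉ W) (hY : P + 1 ≤ (Yf W F pos v).card)
    (hZ : P + 1 ≤ (Zf W F pos v).card) : Gp W pos u = Gp W pos v := by
  classical
  by_contra hne
  have hinj := H.inj
  have hnt := H.nt
  have huV : V u := H.adjV _ _ huv
  have hWne : ∀ w ∈ W, ∀ x, V x → x ∉ W → pos w ≠ pos x := by
    intro w hw x hx hxW he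
    have := hinj w x (H.VW _ hw) hx he
    exact hxW (this ▸ hw)
  have hFW : ∀ f ∈ F, f ∉ W := H.FW
  have hsub : ∀ x, Gp W pos x ⊆ W := fun x => Finset.filter_subset _ _
  have cu := H.Gp_card_le u
  have cv := H.Gp_card_le v
  have card_diff : ∀ x, (W \ Gp W pos x).card = P + 1 - (Gp W pos x).card := by
    intro x
    rw [Finset.card_sdiff_of_subset (hsub x), H.card]
  have hYF : ∀ y ∈ Yf W F pos v, y ∈ F ∧ Gp W pos y = Gp W pos v ∧ pos y < pos v :=
    fun y hy => mem_Yf.1 hy
  have hZF : ∀ y ∈ Zf W F pos v, y ∈ F ∧ Gp W pos y = Gp W pos v ∧ pos v < pos y :=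
    fun y hy => mem_Zf.1 hy
  -- hub vertices to the left of v are to the left of every vertex of the same gap
  have k1 : ∀ w ∈ Gp W pos v, ∀ y, Gp W pos y = Gp W pos v → pos w < pos y := by
    intro w hw y hy
    rw [← hy] at hw
    exact (mem_Gp.1 hw).2
  have k2 : ∀ w ∈ W, w ∉ Gp W pos v → ∀ y ∈ F, Gp W pos y = Gp W pos v →
      pos y < pos w := by
    intro w hw hwv y hyF hy
    rw [← hy, mem_Gp] at hwv
    have := hWne w hw y (H.VF _ hyF) (hFW y hyF)
    push Not at hwv
    have := hwv hw
    omega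
  have k2v : ∀ w ∈ W, w ∉ Gp W pos v → pos v < pos w := by
    intro w hw hwv
    rw [mem_Gp] at hwv
    have := hWne w hw v hvV hvW
    push Not at hwv
    have := hwv hw
    omega
  have k3 : ∀ w ∈ W, w ∉ Gp W pos u → pos u < pos w := by
    intro w hw hwu
    rw [mem_Gp] at hwu
    have := hWne w hw u huV hu
    push Not at hwu
    have := hwu hw
    omega
  have k4 : ∀ w ∈ Gp W pos u, pos w < pos u := fun w hw => (mem_Gp.1 hw).2
  rcases lt_trichotomy (pos v) (pos u) with hlt | heq | hlt
  · -- v before u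
    have hss : Gp W pos v ⊆ Gp W pos u := Gp_mono hlt.le
    have hcard : (Gp W pos v).card < (Gp W pos u).card := by
      by_contra hc
      exact hne (Finset.eq_of_subset_of_card_le hss (by omega)).symm
    have k5 : ∀ y, Gp W pos y = Gp W pos v → pos y < pos u := by
      intro y hy
      by_contra hc
      have := Gp_mono (W := W) (pos := pos) (u := u) (v := y) (by omega)
      rw [hy] at this
      exact hne (Finset.Subset.antisymm this hss)
    obtain ⟨Z1, Z2, hZ1, hZ2, hcZ1, hcZ2, hZZ⟩ := split (pos := pos) (S := Zf W F pos v)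
      (n1 := P + 1 - (Gp W pos u).card) (n2 := (Gp W pos v).card)
      (H.injOn (fun x hx => H.VF _ (hZF x hx).1)) (by omega)
    obtain ⟨l1, hl1, L1⟩ := Lad.of_sets (pos := pos) (Adj := Adj)
      (A := Gp W pos v) (B := Z2) (n := (Gp W pos v).card) le_rfl hcZ2.ge
      (fun x hx y hy => H.adjWF (hsub _ hx) (hZF y (hZ2 hy)).1)
      (H.injOn (fun x hx => H.VW _ (hsub _ hx)))
      (H.injOn (fun x hx => H.VF _ (hZF x (hZ2 hx)).1))
    obtain ⟨l2, hl2, L2⟩ := Lad.of_sets (pos := pos) (Adj := Adj)
      (A := Yf W F pos v) (B := Gp W pos u \ Gp W pos v)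
      (n := (Gp W pos u).card - (Gp W pos v).card) (by omega)
      (by rw [Finset.card_sdiff_of_subset hss])
      (fun x hx y hy => H.adjFW (hsub _ (Finset.mem_sdiff.1 hy).1) (hYF x hx).1)
      (H.injOn (fun x hx => H.VF _ (hYF x hx).1))
      (H.injOn (fun x hx => H.VW _ (hsub _ (Finset.mem_sdiff.1 hx).1)))
    obtain ⟨l4, hl4, L4⟩ := Lad.of_sets (pos := pos) (Adj := Adj)
      (A := Z1) (B := W \ Gp W pos u)
      (n := P + 1 - (Gp W pos u).card) hcZ1.ge (by rw [card_diff])
      (fun x hx y hy => H.adjFW (Finset.mem_sdiff.1 hy).1 (hZF x (hZ1 hx)).1)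
      (H.injOn (fun x hx => H.VF _ (hZF x (hZ1 hx)).1))
      (H.injOn (fun x hx => H.VW _ (Finset.mem_sdiff.1 hx).1))
    have L3 := Lad.single (pos := pos) (H.symm _ _ huv)
    have L12 := L1.append L2
      (fun a ha a' ha' => k1 a ha a' (hYF a' ha').2.1)
      (fun b hb b' hb' => k2 b' (hsub _ (Finset.mem_sdiff.1 hb').1) (Finset.mem_sdiff.1 hb').2 b
        (hZF b (hZ2 hb)).1 (hZF b (hZ2 hb)).2.1)
    have L123 := L12.append L3 (by
        intro a ha a' ha'
        rw [Set.mem_singleton_iff] at ha'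
        subst ha'
        rcases ha with ha | ha
        · exact k1 a ha _ rfl
        · exact (hYF a ha).2.2) (by
        intro b hb b' hb'
        rw [Set.mem_singleton_iff] at hb'
        subst hb'
        rcases hb with hb | hb
        · exact k5 b (hZF b (hZ2 hb)).2.1
        · exact k4 b (Finset.mem_sdiff.1 hb).1)
    have L := L123.append L4 (by
        intro a ha a' ha'
        have ha'' := hZF a' (hZ1 ha')
        rcases ha with (ha | ha) | ha
        · exact k1 a ha _ ha''.2.1
        · exact (hYF a ha).2.2.trans ha''.2.2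
        · rw [Set.mem_singleton_iff] at ha
          subst ha
          exact ha''.2.2) (by
        intro b hb b' hb'
        obtain ⟨hb1, hb2⟩ := Finset.mem_sdiff.1 hb'
        have hb3 : b' ∉ Gp W pos v := fun h => hb2 (hss h)
        have hub := k3 b' hb1 hb2
        rcases hb with (hb | hb) | hb
        · exact k2 b' hb1 hb3 b (hZF b (hZ2 hb)).1 (hZF b (hZ2 hb)).2.1
        · exact (k4 b (Finset.mem_sdiff.1 hb).1).trans hub
        · rw [Set.mem_singleton_iff] at hb
          subst hb
          exact hub)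
    have := hnt.lad L (by
      have hW' : ∀ a ∈ ((↑(Gp W pos v) ∪ ↑(Yf W F pos v) ∪ {v} ∪ ↑Z1 : Set (α))),
          ∀ w ∈ W, w ∉ Gp W pos v → pos a < pos w := by
        intro a ha w hw hwv
        have hvw := k2v w hw hwv
        rcases ha with ((ha | ha) | ha) | ha
        · exact (k1 a ha _ rfl).trans hvw
        · exact (hYF a ha).2.2.trans hvw
        · rw [Set.mem_singleton_iff] at ha
          subst ha
          exact hvw
        · exact k2 w hw hwv a (hZF a (hZ1 ha)).1 (hZF a (hZ1 ha)).2.1
      have hu' : ∀ a ∈ ((↑(Gp W pos v) ∪ ↑(Yf W F pos v) ∪ {v} ∪ ↑Z1 : Set (α))),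
          pos a < pos u := by
        intro a ha
        rcases ha with ((ha | ha) | ha) | ha
        · exact (k1 a ha _ rfl).trans hlt
        · exact (hYF a ha).2.2.trans hlt
        · rw [Set.mem_singleton_iff] at ha
          subst ha
          exact hlt
        · exact k5 a (hZF a (hZ1 ha)).2.1
      intro a ha b hb
      rcases hb with ((hb | hb) | hb) | hb
      · have hb' := hZF b (hZ2 hb)
        rcases ha with ((ha | ha) | ha) | ha
        · exact k1 a ha _ hb'.2.1
        · exact (hYF a ha).2.2.trans hb'.2.2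
        · rw [Set.mem_singleton_iff] at ha
          subst ha
          exact hb'.2.2
        · exact hZZ a ha b hb
      · obtain ⟨hb1, hb2⟩ := Finset.mem_sdiff.1 hb
        exact hW' a ha b (hsub _ hb1) hb2
      · rw [Set.mem_singleton_iff] at hb
        subst hb
        exact hu' a ha
      · obtain ⟨hb1, hb2⟩ := Finset.mem_sdiff.1 hb
        exact hW' a ha b hb1 (fun h => hb2 (hss h)))
    simp only [List.length_append, List.length_singleton, hl1, hl2, hl4] at this
    omega
  · exact hne (Finset.Subset.antisymm (Gp_mono heq.ge) (Gp_mono heq.le))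
  · -- u before v
    have hss : Gp W pos u ⊆ Gp W pos v := Gp_mono hlt.le
    have hcard : (Gp W pos u).card < (Gp W pos v).card := by
      by_contra hc
      exact hne (Finset.eq_of_subset_of_card_le hss (by omega))
    have k5 : ∀ y, Gp W pos y = Gp W pos v → pos u < pos y := by
      intro y hy
      by_contra hc
      have := Gp_mono (W := W) (pos := pos) (u := y) (v := u) (by omega)
      rw [hy] at this
      exact hne (Finset.Subset.antisymm hss this)
    obtain ⟨Y1, Y2, hY1, hY2, hcY1, hcY2, hYY⟩ := split (pos := pos) (S := Yf W F pos v)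
      (n1 := P + 1 - (Gp W pos v).card) (n2 := (Gp W pos u).card)
      (H.injOn (fun x hx => H.VF _ (hYF x hx).1)) (by omega)
    obtain ⟨l1, hl1, L1⟩ := Lad.of_sets (pos := pos) (Adj := Adj)
      (A := Gp W pos u) (B := Y2) (n := (Gp W pos u).card) le_rfl hcY2.ge
      (fun x hx y hy => H.adjWF (hsub _ hx) (hYF y (hY2 hy)).1)
      (H.injOn (fun x hx => H.VW _ (hsub _ hx)))
      (H.injOn (fun x hx => H.VF _ (hYF x (hY2 hx)).1))
    obtain ⟨l3, hl3, L3⟩ := Lad.of_sets (pos := pos) (Adj := Adj)
      (A := Gp W pos v \ Gp W pos u) (B := Zf W F pos v)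
      (n := (Gp W pos v).card - (Gp W pos u).card)
      (by rw [Finset.card_sdiff_of_subset hss]) (by omega)
      (fun x hx y hy => H.adjWF (hsub _ (Finset.mem_sdiff.1 hx).1) (hZF y hy).1)
      (H.injOn (fun x hx => H.VW _ (hsub _ (Finset.mem_sdiff.1 hx).1)))
      (H.injOn (fun x hx => H.VF _ (hZF x hx).1))
    obtain ⟨l4, hl4, L4⟩ := Lad.of_sets (pos := pos) (Adj := Adj)
      (A := Y1) (B := W \ Gp W pos v)
      (n := P + 1 - (Gp W pos v).card) hcY1.ge (by rw [card_diff])
      (fun x hx y hy => H.adjFW (Finset.mem_sdiff.1 hy).1 (hYF x (hY1 hx)).1)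
      (H.injOn (fun x hx => H.VF _ (hYF x (hY1 hx)).1))
      (H.injOn (fun x hx => H.VW _ (Finset.mem_sdiff.1 hx).1))
    have L2 := Lad.single (pos := pos) huv
    have L12 := L1.append L2 (by
        intro a ha a' ha'
        rw [Set.mem_singleton_iff] at ha'
        subst ha'
        exact k4 a ha) (by
        intro b hb b' hb'
        rw [Set.mem_singleton_iff] at hb'
        subst hb'
        exact (hYF b (hY2 hb)).2.2)
    have L123 := L12.append L3 (by
        intro a ha a' ha'
        obtain ⟨h1, h2⟩ := Finset.mem_sdiff.1 ha'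
        have h3 := k3 a' (hsub _ h1) h2
        rcases ha with ha | ha
        · exact (k4 a ha).trans h3
        · rw [Set.mem_singleton_iff] at ha
          subst ha
          exact h3) (by
        intro b hb b' hb'
        have hb'' := hZF b' hb'
        rcases hb with hb | hb
        · exact (hYF b (hY2 hb)).2.2.trans hb''.2.2
        · rw [Set.mem_singleton_iff] at hb
          subst hb
          exact hb''.2.2)
    have hAy : ∀ a ∈ ((↑(Gp W pos u) ∪ {u} ∪ ↑(Gp W pos v \ Gp W pos u) : Set (α))),
        ∀ y ∈ Yf W F pos v, pos a < pos y := by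
      intro a ha y hy
      have hy' := hYF y hy
      rcases ha with (ha | ha) | ha
      · exact k1 a (hss ha) _ hy'.2.1
      · rw [Set.mem_singleton_iff] at ha
        subst ha
        exact k5 y hy'.2.1
      · rw [Finset.mem_coe] at ha
        exact k1 a (Finset.mem_sdiff.1 ha).1 _ hy'.2.1
    have hBw : ∀ b ∈ ((↑Y2 ∪ {v} ∪ ↑(Zf W F pos v) : Set (α))),
        ∀ w ∈ W \ Gp W pos v, pos b < pos w := by
      intro b hb w hw
      obtain ⟨h1, h2⟩ := Finset.mem_sdiff.1 hw
      rcases hb with (hb | hb) | hb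
      · exact k2 w h1 h2 b (hYF b (hY2 hb)).1 (hYF b (hY2 hb)).2.1
      · rw [Set.mem_singleton_iff] at hb
        subst hb
        exact k2v w h1 h2
      · exact k2 w h1 h2 b (hZF b hb).1 (hZF b hb).2.1
    have L := L123.append L4 (fun a ha a' ha' => hAy a ha a' (hY1 ha'))
      (fun b hb b' hb' => hBw b hb b' hb')
    have := hnt.lad L (by
      have hav : ∀ a ∈ ((↑(Gp W pos u) ∪ {u} ∪ ↑(Gp W pos v \ Gp W pos u) ∪ ↑Y1 :
          Set (α))), pos a < pos v := by
        intro a ha
        rcases ha with ((ha | ha) | ha) | ha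
        · exact k1 a (hss ha) _ rfl
        · rw [Set.mem_singleton_iff] at ha
          subst ha
          exact hlt
        · rw [Finset.mem_coe] at ha
          exact k1 a (Finset.mem_sdiff.1 ha).1 _ rfl
        · exact (hYF a (hY1 ha)).2.2
      intro a ha b hb
      rcases hb with ((hb | hb) | hb) | hb
      · rcases ha with ha | ha
        · exact hAy a ha b (hY2 hb)
        · exact hYY a ha b hb
      · rw [Set.mem_singleton_iff] at hb
        subst hb
        exact hav a ha
      · exact (hav a ha).trans (hZF b hb).2.2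
      · obtain ⟨hb1, hb2⟩ := Finset.mem_sdiff.1 (Finset.mem_coe.1 hb)
        exact (hav a ha).trans (k2v b hb1 hb2))
    simp only [List.length_append, List.length_singleton, hl1, hl3, hl4] at this
    omega


/-- `v` has less than `B` block vertices of its gap on one side -/
def Bad (W F : Finset α) (pos : α → ℕ) (B : ℕ) (v : α) : Prop :=
  (Yf W F pos v).card < B ∨ (Zf W F pos v).card < B

theorem Hub.bad_card (H : Hub P V W F Adj pos) (B : ℕ) [DecidablePred (Bad W F pos B)] :
    (F.filter (Bad W F pos B)).card ≤ (P + 2) * (2 * B) := by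
  classical
  have hY : ∀ u ∈ F, ∀ v ∈ F, Gp W pos u = Gp W pos v → pos u < pos v →
      (Yf W F pos u).card < (Yf W F pos v).card := by
    intro u hu v hv hG hlt
    refine Finset.card_lt_card ⟨fun x hx => ?_, fun hsub => ?_⟩
    · rw [mem_Yf] at hx ⊢
      exact ⟨hx.1, hx.2.1.trans hG, hx.2.2.trans hlt⟩
    · have : u ∈ Yf W F pos u := hsub (mem_Yf.2 ⟨hu, hG, hlt⟩)
      exact absurd (mem_Yf.1 this).2.2 (lt_irrefl _)
  have hZ : ∀ u ∈ F, ∀ v ∈ F, Gp W pos u = Gp W pos v → pos u < pos v →
      (Zf W F pos v).card < (Zf W F pos u).card := by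
    intro u hu v hv hG hlt
    refine Finset.card_lt_card ⟨fun x hx => ?_, fun hsub => ?_⟩
    · rw [mem_Zf] at hx ⊢
      exact ⟨hx.1, hx.2.1.trans hG.symm, hlt.trans hx.2.2⟩
    · have : v ∈ Zf W F pos v := hsub (mem_Zf.2 ⟨hv, hG.symm, hlt⟩)
      exact absurd (mem_Zf.1 this).2.2 (lt_irrefl _)
  have : (F.filter (Bad W F pos B)).card ≤
      (Finset.range (P + 2) ×ˢ Finset.range (2 * B)).card := by
    refine Finset.card_le_card_of_injOn (fun v => ((Gp W pos v).card,
      if (Yf W F pos v).card < B then (Yf W F pos v).card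
      else B + (Zf W F pos v).card)) ?_ ?_
    · intro v hv
      rw [Finset.mem_coe, Finset.mem_filter] at hv
      rw [Finset.mem_coe, Finset.mem_product, Finset.mem_range, Finset.mem_range]
      have h1 := H.Gp_card_le v
      have h2 := hv.2
      unfold Bad at h2
      dsimp only
      split_ifs <;> omega
    · intro u hu v hv huv
      rw [Finset.mem_coe, Finset.mem_filter] at hu hv
      dsimp only at huv
      rw [Prod.mk.injEq] at huv
      obtain ⟨h1, h2⟩ := huv
      have hG := Gp_eq h1
      have bu := hu.2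
      have bv := hv.2
      unfold Bad at bu bv
      rcases lt_trichotomy (pos u) (pos v) with h | h | h
      · have e1 := hY u hu.1 v hv.1 hG h
        have e2 := hZ u hu.1 v hv.1 hG h
        split_ifs at h2 <;> omega
      · exact H.inj u v (H.VF _ hu.1) (H.VF _ hv.1) h
      · have e1 := hY v hv.1 u hu.1 hG.symm h
        have e2 := hZ v hv.1 u hu.1 hG.symm h
        split_ifs at h2 <;> omega
  rwa [Finset.card_product, Finset.card_range, Finset.card_range] at this

/-- a ladder in one gap which passes over many block vertices extends to a long ladder -/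
theorem Hub.guard (H : Hub P V W F Adj pos) {g : Finset α} (hgW : g ⊆ W)
    {l : List (α × α)} {A B : Set α} (hl : Lad pos Adj l A B)
    (hA : ∀ a ∈ A, V a ∧ a ∉ W ∧ Gp W pos a = g) (hB : ∀ a ∈ B, V a ∧ a ∉ W ∧ Gp W pos a = g)
    (hAB : ∀ a ∈ A, ∀ b ∈ B, pos a < pos b) {S : Finset α}
    (hS : ∀ s ∈ S, s ∈ F ∧ Gp W pos s = g)
    (hAS : ∀ a ∈ A, ∀ s ∈ S, pos a < pos s) (hSB : ∀ s ∈ S, ∀ b ∈ B, pos s < pos b)
    (hc : S.card ≤ P + 1) : l.length + S.card < P + 2 := by
  classical
  by_contra hcon
  have hgc : g.card ≤ P + 1 := by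
    rw [← H.card]
    exact Finset.card_le_card hgW
  have q1 : ∀ w ∈ g, ∀ a : α, Gp W pos a = g → pos w < pos a := by
    intro w hw a ha
    rw [← ha] at hw
    exact (mem_Gp.1 hw).2
  have q2 : ∀ w ∈ W, w ∉ g → ∀ a : α, V a → a ∉ W → Gp W pos a = g → pos a < pos w := by
    intro w hw hwg a hV haW ha
    rw [← ha, mem_Gp] at hwg
    push Not at hwg
    have h2 := hwg hw
    have h3 : pos w ≠ pos a := by
      intro he
      have := H.inj _ _ (H.VW _ hw) hV he
      exact haW (this ▸ hw)
    omega
  have hSV : ∀ s ∈ S, V s ∧ s ∉ W ∧ Gp W pos s = g := fun s hs =>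
    ⟨H.VF _ (hS s hs).1, H.FW _ (hS s hs).1, (hS s hs).2⟩
  obtain ⟨S1, S2, hS1, hS2, hcS1, hcS2, hSS⟩ := split (pos := pos) (S := S)
    (n1 := S.card - min S.card g.card) (n2 := min S.card g.card)
    (H.injOn (fun x hx => (hSV x hx).1)) (by omega)
  obtain ⟨l1, hl1, L1⟩ := Lad.of_sets (pos := pos) (Adj := Adj)
    (A := g) (B := S2) (n := min S.card g.card) (min_le_right _ _) hcS2.ge
    (fun x hx y hy => H.adjWF (hgW hx) (hS y (hS2 hy)).1)
    (H.injOn (fun x hx => H.VW _ (hgW hx)))
    (H.injOn (fun x hx => H.VF _ (hS x (hS2 hx)).1))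
  obtain ⟨l3, hl3, L3⟩ := Lad.of_sets (pos := pos) (Adj := Adj)
    (A := S1) (B := W \ g) (n := S.card - min S.card g.card) hcS1.ge
    (by rw [Finset.card_sdiff_of_subset hgW, H.card]; omega)
    (fun x hx y hy => H.adjFW (Finset.mem_sdiff.1 hy).1 (hS x (hS1 hx)).1)
    (H.injOn (fun x hx => H.VF _ (hS x (hS1 hx)).1))
    (H.injOn (fun x hx => H.VW _ (Finset.mem_sdiff.1 hx).1))
  have L12 := L1.append hl (fun a ha a' ha' => q1 a ha a' (hA a' ha').2.2)
    (fun b hb b' hb' => hSB b (hS2 hb) b' hb')
  have L := L12.append L3 (by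
      intro a ha a' ha'
      rcases ha with ha | ha
      · exact q1 a ha a' (hS a' (hS1 ha')).2
      · exact hAS a ha a' (hS1 ha')) (by
      intro b hb b' hb'
      obtain ⟨e1, e2⟩ := Finset.mem_sdiff.1 (Finset.mem_coe.1 hb')
      rcases hb with hb | hb
      · obtain ⟨f1, f2, f3⟩ := hSV b (hS2 hb)
        exact q2 b' e1 e2 b f1 f2 f3
      · obtain ⟨f1, f2, f3⟩ := hB b hb
        exact q2 b' e1 e2 b f1 f2 f3)
  have := H.nt.lad L (by
    intro a ha b hb
    rcases hb with (hb | hb) | hb
    · have hb1 := (hS b (hS2 hb)).2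
      rcases ha with (ha | ha) | ha
      · exact q1 a ha b hb1
      · exact hAS a ha b (hS2 hb)
      · exact hSS a ha b hb
    · rcases ha with (ha | ha) | ha
      · exact q1 a ha b (hB b hb).2.2
      · exact hAB a ha b hb
      · exact hSB a (hS1 ha) b hb
    · obtain ⟨e1, e2⟩ := Finset.mem_sdiff.1 (Finset.mem_coe.1 hb)
      rcases ha with (ha | ha) | ha
      · obtain ⟨x, hx⟩ : ∃ x, V x ∧ x ∉ W ∧ Gp W pos x = g := by
          by_contra hno
          push Not at hno
          have hSe : S = ∅ := by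
            rw [Finset.eq_empty_iff_forall_notMem]
            exact fun s hs => hno s (hSV s hs).1 (hSV s hs).2.1 (hSV s hs).2.2
          have hle : l = [] := by
            rw [List.eq_nil_iff_forall_not_mem]
            intro e he
            obtain ⟨f1, f2, f3⟩ := hA _ (hl.mem e he).1
            exact hno _ f1 f2 f3
          rw [hSe, hle] at hcon
          simp at hcon
        exact (q1 a ha x hx.2.2).trans (q2 b e1 e2 x hx.1 hx.2.1 hx.2.2)
      · obtain ⟨f1, f2, f3⟩ := hA a ha
        exact q2 b e1 e2 a f1 f2 f3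
      · obtain ⟨f1, f2, f3⟩ := hSV a (hS1 ha)
        exact q2 b e1 e2 a f1 f2 f3)
  simp only [List.length_append, hl1, hl3] at this
  omega

/-- an edge in one gap passes over at most `P` block vertices -/
theorem Hub.one (H : Hub P V W F Adj pos) {g : Finset α} (hgW : g ⊆ W) {u v : α}
    (huv : Adj u v) (huW : u ∉ W) (hvW : v ∉ W) (hu : Gp W pos u = g) (hv : Gp W pos v = g)
    {S : Finset α} (hS : ∀ s ∈ S, s ∈ F ∧ Gp W pos s = g)
    (hb : ∀ s ∈ S, pos u < pos s ∧ pos s < pos v) : S.card ≤ P := by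
  by_contra hc
  push Not at hc
  obtain ⟨S', hS', hcS'⟩ := Finset.exists_subset_card_eq (show P + 1 ≤ S.card by omega)
  have hne : S'.Nonempty := by
    rw [← Finset.card_pos]
    omega
  obtain ⟨x0, hx0⟩ := hne
  have hx0' := hb x0 (hS' hx0)
  have := H.guard hgW (Lad.single (pos := pos) huv)
    (by rintro a rfl; exact ⟨H.adjV _ _ huv, huW, hu⟩)
    (by rintro a rfl; exact ⟨H.adjV _ _ (H.symm _ _ huv), hvW, hv⟩)
    (by rintro a rfl b rfl; omega) (S := S') (fun s hs => hS s (hS' hs))
    (by rintro a rfl s hs; exact (hb s (hS' hs)).1)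
    (by rintro s hs a rfl; exact (hb s (hS' hs)).2) (by omega)
  rw [hcS', List.length_singleton] at this
  omega

/-- two crossing edges in one gap pass over less than `P` common block vertices -/
theorem Hub.two (H : Hub P V W F Adj pos) {g : Finset α} (hgW : g ⊆ W) {u v u' v' : α}
    (huv : Adj u v) (huv' : Adj u' v') (huW : u ∉ W) (hvW : v ∉ W) (huW' : u' ∉ W)
    (hvW' : v' ∉ W) (hu : Gp W pos u = g) (hv : Gp W pos v = g) (hu' : Gp W pos u' = g)
    (hv' : Gp W pos v' = g) (e1 : pos u < pos u') (e2 : pos u' < pos v) (e3 : pos v < pos v')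
    {S : Finset α} (hS : ∀ s ∈ S, s ∈ F ∧ Gp W pos s = g)
    (hb : ∀ s ∈ S, pos u' < pos s ∧ pos s < pos v) : S.card < P := by
  by_contra hc
  push Not at hc
  obtain ⟨S', hS', hcS'⟩ := Finset.exists_subset_card_eq hc
  have L := (Lad.single (pos := pos) huv).append
    (Lad.single (pos := pos) huv') (by rintro a rfl b rfl; exact e1)
    (by rintro a rfl b rfl; exact e3)
  have := H.guard hgW L
    (by
      rintro a (rfl | rfl)
      exacts [⟨H.adjV _ _ huv, huW, hu⟩, ⟨H.adjV _ _ huv', huW', hu'⟩])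
    (by
      rintro a (rfl | rfl)
      exacts [⟨H.adjV _ _ (H.symm _ _ huv), hvW, hv⟩, ⟨H.adjV _ _ (H.symm _ _ huv'), hvW', hv'⟩])
    (by
      rintro a (rfl | rfl) b (rfl | rfl) <;> omega) (S := S') (fun s hs => hS s (hS' hs))
    (by
      rintro a (rfl | rfl) s hs
      all_goals
        have := (hb s (hS' hs)).1
        omega)
    (by
      rintro s hs a (rfl | rfl)
      all_goals
        have := (hb s (hS' hs)).2
        omega)
    (by omega)
  rw [hcS'] at this
  simp only [List.length_append, List.length_singleton] at this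
  omega

/-- `v` has at least `B` block vertices of its gap on both sides -/
def Deep (W F : Finset α) (pos : α → ℕ) (B : ℕ) (v : α) : Prop :=
  B ≤ (Yf W F pos v).card ∧ B ≤ (Zf W F pos v).card

/-- neighbours of deep vertices are deep -/
theorem Hub.step (H : Hub P V W F Adj pos) {u v : α} (hvW : v ∉ W) (huW : u ∉ W)
    (huv : Adj u v) {B : ℕ} (hd : Deep W F pos (B + (P + 1)) v) :
    Gp W pos u = Gp W pos v ∧ Deep W F pos B u := by
  have hvV : V v := H.adjV _ _ (H.symm _ _ huv)
  have hg := H.same_gap hvV hvW huv huW (by have := hd.1; omega) (by have := hd.2; omega)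
  refine ⟨hg, ?_⟩
  have hgW : Gp W pos v ⊆ W := Finset.filter_subset _ _
  rcases lt_trichotomy (pos u) (pos v) with hlt | heq | hlt
  · set S := F.filter (fun f => Gp W pos f = Gp W pos v ∧ pos u < pos f ∧ pos f < pos v) with hSdef
    have hSc : S.card ≤ P := H.one hgW huv huW hvW hg rfl
      (fun s hs => by
        rw [hSdef, Finset.mem_filter] at hs
        exact ⟨hs.1, hs.2.1⟩)
      (fun s hs => by
        rw [hSdef, Finset.mem_filter] at hs
        exact hs.2.2)
    have h1 : Yf W F pos v ⊆ Yf W F pos u ∪ S ∪ {u} := by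
      intro f hf
      rw [mem_Yf] at hf
      rw [Finset.mem_union, Finset.mem_union, mem_Yf, hSdef, Finset.mem_filter,
        Finset.mem_singleton]
      rcases lt_trichotomy (pos f) (pos u) with h | h | h
      · exact Or.inl (Or.inl ⟨hf.1, hf.2.1.trans hg.symm, h⟩)
      · exact Or.inr (H.inj _ _ (H.VF _ hf.1) (H.adjV _ _ huv) h)
      · exact Or.inl (Or.inr ⟨hf.1, hf.2.1, h, hf.2.2⟩)
    have h2 : (Yf W F pos v).card ≤ (Yf W F pos u).card + S.card + 1 := by
      refine (Finset.card_le_card h1).trans ((Finset.card_union_le _ _).trans ?_)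
      have := Finset.card_union_le (Yf W F pos u) S
      rw [Finset.card_singleton]
      omega
    have h3 : (Zf W F pos v).card ≤ (Zf W F pos u).card := by
      refine Finset.card_le_card fun f hf => ?_
      rw [mem_Zf] at hf ⊢
      exact ⟨hf.1, hf.2.1.trans hg.symm, hlt.trans hf.2.2⟩
    have := hd.1
    have := hd.2
    exact ⟨by omega, by omega⟩
  · have hY : Yf W F pos u = Yf W F pos v := by
      unfold Yf
      rw [hg, heq]
    have hZ : Zf W F pos u = Zf W F pos v := by
      unfold Zf
      rw [hg, heq]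
    have := hd.1
    have := hd.2
    exact ⟨by rw [hY]; omega, by rw [hZ]; omega⟩
  · set S := F.filter (fun f => Gp W pos f = Gp W pos v ∧ pos v < pos f ∧ pos f < pos u) with hSdef
    have hSc : S.card ≤ P := H.one hgW (H.symm _ _ huv) hvW huW rfl hg
      (fun s hs => by
        rw [hSdef, Finset.mem_filter] at hs
        exact ⟨hs.1, hs.2.1⟩)
      (fun s hs => by
        rw [hSdef, Finset.mem_filter] at hs
        exact hs.2.2)
    have h1 : Zf W F pos v ⊆ Zf W F pos u ∪ S ∪ {u} := by
      intro f hf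
      rw [mem_Zf] at hf
      rw [Finset.mem_union, Finset.mem_union, mem_Zf, hSdef, Finset.mem_filter,
        Finset.mem_singleton]
      rcases lt_trichotomy (pos f) (pos u) with h | h | h
      · exact Or.inl (Or.inr ⟨hf.1, hf.2.1, hf.2.2, h⟩)
      · exact Or.inr (H.inj _ _ (H.VF _ hf.1) (H.adjV _ _ huv) h)
      · exact Or.inl (Or.inl ⟨hf.1, hf.2.1.trans hg.symm, h⟩)
    have h2 : (Zf W F pos v).card ≤ (Zf W F pos u).card + S.card + 1 := by
      refine (Finset.card_le_card h1).trans ((Finset.card_union_le _ _).trans ?_)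
      have := Finset.card_union_le (Zf W F pos u) S
      rw [Finset.card_singleton]
      omega
    have h3 : (Yf W F pos v).card ≤ (Yf W F pos u).card := by
      refine Finset.card_le_card fun f hf => ?_
      rw [mem_Yf] at hf ⊢
      exact ⟨hf.1, hf.2.1.trans hg.symm, hf.2.2.trans hlt⟩
    have := hd.1
    have := hd.2
    exact ⟨by omega, by omega⟩

end

end Pool.Agent.E8helper92.OQ
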