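import Pool.Agent.E8helper92.OQ.Draw

/-!
# The intended order: edges over a vertex of the bus
-/

set_option linter.unusedSectionVars false

namespace Pool.Agent.E8helper92.OQ

open Pool.Agent.H619R2.QP

/-- an edge which ends in the block after the level `i` -/
def KA (P M : ℕ) (Z : ℕ → ℕ) (h i : ℕ) (e : (ℕ × ℕ × ℕ) × (ℕ × ℕ × ℕ)) : Prop :=
  e.2.1 = h ∧ e.2.2.1 = 2 * i + 1 ∧ e.2.2.2 < P ∧
    (e.1.1 = 0 ∨ (e.1.1 = h ∧ e.1.2.1 = 2 * i ∧ Gd (2 * i + 1) e.1.2.2) ∨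
      (e.1.1 = h ∧ e.1.2.1 = 2 * i ∧ i < M ∧ e.1.2.2 = 4 + (P + 3) * Z i + 2 ∧ e.2.2.2 = 0))

/-- an edge inside the level `i` -/
def KB (P M : ℕ) (X Y : ℕ → ℕ) (h i : ℕ) (e : (ℕ × ℕ × ℕ) × (ℕ × ℕ × ℕ)) : Prop :=
  e.2.1 = h ∧ e.2.2.1 = 2 * i ∧ e.1.1 = h ∧ e.1.2.1 = 2 * i ∧ i < M ∧
    ((xin P (X i) e.1.2.2 ∧ xin P (Y i) e.2.2.2) ∨ (xin P (Y i) e.1.2.2 ∧ xin P (X i) e.2.2.2))

/-- an edge from the block before the level `i` -/
def KC (nb h i : ℕ) (e : (ℕ × ℕ × ℕ) × (ℕ × ℕ × ℕ)) : Prop :=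
  e.2.1 = h ∧ e.2.2.1 = 2 * i ∧ e.1.1 = h ∧ e.1.2.1 + 1 = 2 * i ∧ Gd (2 * i - 1) e.2.2.2 ∧
    e.2.2.2 < nb

/-- an arc of the bus -/
def KD (P nb h i : ℕ) (e : (ℕ × ℕ × ℕ) × (ℕ × ℕ × ℕ)) : Prop :=
  e.2.1 = h ∧ e.2.2.1 = 2 * i ∧ e.1.1 = h ∧ e.2.2.2 < nb ∧
    ((i = 1 ∧ e.1.2.1 = 0 ∧ e.1.2.2 = P + 1) ∨
      (2 ≤ i ∧ e.1.2.1 + 2 = 2 * i ∧ e.1.2.2 < nb ∧
        (e.2.2.2 = e.1.2.2 ∨ nxt (P + 3) e.1.2.2 e.2.2.2)))

theorem three {s a b c : ℕ} (ha : Gd s a) (hb : Gd s b) (hc : Gd s c) (h1 : a ≠ b) (h2 : b ≠ c)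
    (h3 : a ≠ c) : False := by
  unfold Gd at *
  omega

theorem xin_mod {P c v : ℕ} (h : xin P c v) :
    (v - 4) % (P + 3) = v - 4 - (P + 3) * c ∧ (v - 4) % (P + 3) < P - 1 ∧ 4 ≤ v := by
  obtain ⟨h1, h2⟩ := h
  obtain ⟨k, rfl⟩ : ∃ k, v = 4 + (P + 3) * c + k := ⟨v - (4 + (P + 3) * c), by omega⟩
  rw [show 4 + (P + 3) * c + k - 4 = (P + 3) * c + k by omega, Nat.mul_add_mod,
    Nat.mod_eq_of_lt (by omega)]
  omega

section

variable {P M nb T : ℕ} {X Y Z : ℕ → ℕ} {ord : ℕ → ℕ → ℕ}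
  {R : Finset ((ℕ × ℕ × ℕ) × (ℕ × ℕ × ℕ))} {y : ℕ × ℕ × ℕ} {h i a : ℕ}

section

variable (O : OrdOK P M nb X Y Z ord) (hR : RS P M nb T X Y Z ord R (h, 2 * i, a) y)
  (h1 : 1 ≤ i) (h2 : i ≤ M) (ha : a < nb)

include O hR h1 h2 ha

omit O ha in
theorem lt_left {e : (ℕ × ℕ × ℕ) × (ℕ × ℕ × ℕ)} (he : e ∈ R) (e1 : e.1.1 = h)
    (e2 : e.1.2.1 = 2 * i) : ord i e.1.2.2 < ord i a := by
  have l := hR.lx e he
  obtain ⟨⟨c1, s1, o1⟩, ⟨c2, s2, o2⟩⟩ := e
  unfold Lt at l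
  dsimp only at *
  have q1 : off M ord (h, 2 * i, a) = ord i a := off_lev rfl h1 h2
  have q2 : off M ord (c1, s1, o1) = ord i o1 := off_lev e2 h1 h2
  omega

omit O ha in
theorem lt_right {e : (ℕ × ℕ × ℕ) × (ℕ × ℕ × ℕ)} (he : e ∈ R) (e1 : e.2.1 = h)
    (e2 : e.2.2.1 = 2 * i) : ord i a < ord i e.2.2.2 := by
  have l := hR.xr e he
  obtain ⟨⟨c1, s1, o1⟩, ⟨c2, s2, o2⟩⟩ := e
  unfold Lt at l
  dsimp only at *
  have q1 : off M ord (h, 2 * i, a) = ord i a := off_lev rfl h1 h2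
  have q2 : off M ord (c2, s2, o2) = ord i o2 := off_lev e2 h1 h2
  omega

omit O hR h1 h2 ha in
theorem kinds (hP : 2 ≤ P) (hM : 1 ≤ M) (h1 : 1 ≤ i) (h2 : i ≤ M) {e : (ℕ × ℕ × ℕ) × (ℕ × ℕ × ℕ)}
    (he : OE P M nb T X Y Z ord e) (e1 : e.2.1 = h) (e2 : e.2.2.1 = 2 * i ∨ e.2.2.1 = 2 * i + 1) :
    KA P M Z h i e ∨ KB P M X Y h i e ∨ KC nb h i e ∨ KD P nb h i e := by
  obtain ⟨⟨c1, s1, o1⟩, ⟨c2, s2, o2⟩⟩ := e
  have t := he.ty hM
  unfold Ty at t
  dsimp only at e1 e2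
  rcases t with ⟨t1, t2, t3, t4, t5⟩ | ⟨t1, t2, t⟩
  · left
    exact ⟨e1, by dsimp only; omega, by dsimp only; omega, Or.inl t1⟩
  · rcases t with t | t | t | t | t | t | t | t
    · omega
    · right; right; right
      exact ⟨e1, by dsimp only; omega, by dsimp only; omega, by dsimp only; omega,
        Or.inl ⟨by omega, by dsimp only; omega, by dsimp only; omega⟩⟩
    · omega
    · right; right; right
      obtain ⟨a1, a2, a3, a4, a5, a6, a7⟩ := t
      exact ⟨e1, by dsimp only; omega, by dsimp only; omega, a6,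
        Or.inr ⟨by omega, by dsimp only; omega, a5, a7⟩⟩
    · left
      obtain ⟨a1, a2, a3, a4, a5, a6, a7⟩ := t
      have e3 : s2 = 2 * i + 1 := by omega
      subst e3
      exact ⟨e1, rfl, a6, Or.inr (Or.inl ⟨by dsimp only; omega, by dsimp only; omega, a5⟩)⟩
    · right; right; left
      obtain ⟨a1, a2, a3, a4, a5, a6⟩ := t
      have e3 : s1 = 2 * i - 1 := by omega
      subst e3
      exact ⟨e1, by dsimp only; omega, by dsimp only; omega, by dsimp only; omega, a4, a6⟩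
    · right; left
      obtain ⟨a1, a2, a3, a4, a5, a6, a7⟩ := t
      have e3 : s1 = 2 * i := by omega
      subst e3
      rw [show 2 * i / 2 = i by omega] at a7
      exact ⟨e1, by dsimp only; omega, by dsimp only; omega, rfl, by omega, a7⟩
    · left
      obtain ⟨a1, a2, a3, a4, a5, a6, a7⟩ := t
      have e3 : s1 = 2 * i := by omega
      subst e3
      rw [show 2 * i / 2 = i by omega] at a5
      exact ⟨e1, a4, by dsimp only; omega, Or.inr (Or.inr ⟨by dsimp only; omega, rfl, by omega,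
        a5, a7⟩)⟩

omit O hR h1 h2 ha in
theorem KB.eq4 {e : (ℕ × ℕ × ℕ) × (ℕ × ℕ × ℕ)} (k : KB P M X Y h i e) :
    (e.1.2.2 - 4) % (P + 3) < P - 1 ∧ 4 ≤ e.1.2.2 ∧ 4 ≤ e.2.2.2 := by
  obtain ⟨-, -, -, -, -, k⟩ := k
  rcases k with ⟨k, k'⟩ | ⟨k, k'⟩
  · exact ⟨(xin_mod k).2.1, (xin_mod k).2.2, (xin_mod k').2.2⟩
  · exact ⟨(xin_mod k).2.1, (xin_mod k).2.2, (xin_mod k').2.2⟩

theorem BB {e f : (ℕ × ℕ × ℕ) × (ℕ × ℕ × ℕ)} (he : e ∈ R) (hf : f ∈ R)
    (ke : KB P M X Y h i e) (kf : KB P M X Y h i f)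
    (hl : (e.1.2.2 - 4) % (P + 3) = (f.1.2.2 - 4) % (P + 3)) : e = f := by
  obtain ⟨a1, a2, a3, a4, a5, a6⟩ := ke
  obtain ⟨b1, b2, b3, b4, b5, b6⟩ := kf
  have l1 := lt_left hR h1 h2 he a3 a4
  have l2 := lt_right hR h1 h2 he a1 a2
  have l3 := lt_left hR h1 h2 hf b3 b4
  have l4 := lt_right hR h1 h2 hf b1 b2
  rcases a6 with ⟨p1, p2⟩ | ⟨p1, p2⟩ <;> rcases b6 with ⟨q1, q2⟩ | ⟨q1, q2⟩
  · have m1 := xin_mod p1
    have m2 := xin_mod q1
    have := p1.1
    have := q1.1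
    exact hR.left_inj he hf (Prod.ext (by omega) (Prod.ext (by omega) (by omega)))
  · exact (O.orient i h1 a5 _ _ _ _ p1 q2 p2 q1 (l1.trans l2) (l3.trans l4)).elim
  · exact (O.orient i h1 a5 _ _ _ _ q1 p2 q2 p1 (l3.trans l4) (l1.trans l2)).elim
  · have m1 := xin_mod p1
    have m2 := xin_mod q1
    have := p1.1
    have := q1.1
    exact hR.left_inj he hf (Prod.ext (by omega) (Prod.ext (by omega) (by omega)))

/-- if an edge from the previous block passes over `x` then `x` is the first vertex of the level -/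
theorem C_first {f : (ℕ × ℕ × ℕ) × (ℕ × ℕ × ℕ)} (hf : f ∈ R) (kf : KC nb h i f) :
    Gd (2 * i - 1) a ∧ ∀ b, b < nb → ord i b < ord i a → False := by
  obtain ⟨b1, b2, b3, b4, b5, b6⟩ := kf
  have l4 := lt_right hR h1 h2 hf b1 b2
  have g1 := O.gfirst i f.2.2.2 a h1 ha b5 l4
  refine ⟨g1, fun b hb hlt => ?_⟩
  have g2 := O.gfirst i a b h1 hb g1 hlt
  exact three g2 g1 b5 (by rintro rfl; omega) (by rintro rfl; omega) (by rintro rfl; omega)

theorem CC {e f : (ℕ × ℕ × ℕ) × (ℕ × ℕ × ℕ)} (he : e ∈ R) (hf : f ∈ R)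
    (ke : KC nb h i e) (kf : KC nb h i f) : e = f := by
  have g1 := (C_first O hR h1 h2 ha he ke).1
  obtain ⟨a1, a2, a3, a4, a5, a6⟩ := ke
  obtain ⟨b1, b2, b3, b4, b5, b6⟩ := kf
  have l2 := lt_right hR h1 h2 he a1 a2
  have l4 := lt_right hR h1 h2 hf b1 b2
  have : e.2.2.2 = f.2.2.2 := by
    by_contra hne
    exact three g1 a5 b5 (by intro hh; rw [hh] at l2; omega) hne (by intro hh; rw [hh] at l4; omega)
  exact hR.right_inj he hf (Prod.ext (by omega) (Prod.ext (by omega) this))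

omit ha in
theorem DD {e f : (ℕ × ℕ × ℕ) × (ℕ × ℕ × ℕ)} (he : e ∈ R) (hf : f ∈ R)
    (ke : KD P nb h i e) (kf : KD P nb h i f) : e = f := by
  have key : ∀ e f : (ℕ × ℕ × ℕ) × (ℕ × ℕ × ℕ), KD P nb h i e → KD P nb h i f →
      e.1.2.1 + 2 = 2 * i → f.1.2.1 + 2 = 2 * i → 2 ≤ i → Lt M ord e.1 f.1 → Lt M ord e.2 f.2 →
      False := by
    rintro ⟨⟨c1, s1, o1⟩, ⟨c2, s2, o2⟩⟩ ⟨⟨c1', s1', o1'⟩, ⟨c2', s2', o2'⟩⟩ ke kf e0 f0 hi2 l l'
    obtain ⟨a1, a2, a3, a4, a5⟩ := ke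
    obtain ⟨b1, b2, b3, b4, b5⟩ := kf
    dsimp only at *
    unfold Lt at l l'
    dsimp only at l l'
    have q1 : off M ord (c1, s1, o1) = ord (i - 1) o1 := off_lev (by omega) (by omega) (by omega)
    have q2 : off M ord (c2, s2, o2) = ord i o2 := off_lev (by omega) (by omega) (by omega)
    have q3 : off M ord (c1', s1', o1') = ord (i - 1) o1' :=
      off_lev (by omega) (by omega) (by omega)
    have q4 : off M ord (c2', s2', o2') = ord i o2' := off_lev (by omega) (by omega) (by omega)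
    rcases a5 with a5 | ⟨-, -, a6, a7⟩
    · omega
    · rcases b5 with b5 | ⟨-, -, b6, b7⟩
      · omega
      · have := O.arcs (i - 1) o1 o1' o2 o2' a6 b6 a4 b4 a7 b7 (by omega)
        rw [show i - 1 + 1 = i by omega] at this
        omega
  by_contra hne
  have hc := hR.cr e he f hf hne
  have ke' := ke
  have kf' := kf
  obtain ⟨a1, a2, a3, a4, a5⟩ := ke
  obtain ⟨b1, b2, b3, b4, b5⟩ := kf
  rcases a5 with ⟨a5, a6, a7⟩ | ⟨a5, a6, a7⟩
  · rcases b5 with ⟨b5, b6, b7⟩ | ⟨b5, b6, b7⟩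
    · exact hne (hR.left_inj he hf (Prod.ext (by omega) (Prod.ext (by omega) (by omega))))
    · omega
  · rcases b5 with ⟨b5, b6, b7⟩ | ⟨b5, b6, b7⟩
    · omega
    · rcases hc with hc | hc
      · exact key e f ke' kf' a6 b6 a5 hc.1 hc.2
      · exact key f e kf' ke' b6 a6 a5 hc.1 hc.2

omit O h1 h2 ha in
/-- an edge which ends in the next block does not start to the left of an edge which ends in the
level -/
theorem A_right (hh : 1 ≤ h) {e f : (ℕ × ℕ × ℕ) × (ℕ × ℕ × ℕ)} (he : e ∈ R) (hf : f ∈ R)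
    (ke : KA P M Z h i e) (f1 : f.2.1 = h) (f2 : f.2.2.1 = 2 * i) (f3 : f.1.1 = h) :
    Lt M ord f.1 e.1 ∧ e.1.1 = h ∧ e.1.2.1 = 2 * i := by
  obtain ⟨a1, a2, a3, a4⟩ := ke
  have hne : e ≠ f := by
    rintro rfl
    omega
  have hc := hR.cr e he f hf hne
  have h4 : ¬ Lt M ord e.2 f.2 := by
    unfold Lt
    omega
  have h5 : Lt M ord f.1 e.1 := by
    rcases hc with hc | hc
    · exact absurd hc.2 h4
    · exact hc.1
  refine ⟨h5, ?_⟩
  rcases a4 with a4 | a4 | a4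
  · unfold Lt at h5
    omega
  · exact ⟨a4.1, a4.2.1⟩
  · exact ⟨a4.1, a4.2.1⟩

theorem AB (hh : 1 ≤ h) {e f : (ℕ × ℕ × ℕ) × (ℕ × ℕ × ℕ)} (he : e ∈ R) (hf : f ∈ R)
    (ke : KA P M Z h i e) (kf : KB P M X Y h i f) : False := by
  have k4 := kf.eq4
  obtain ⟨b1, b2, b3, b4, b5, b6⟩ := kf
  obtain ⟨r1, r2, r3⟩ := A_right hR hh he hf ke b1 b2 b3
  have l1 := lt_left hR h1 h2 he r2 r3
  have l3 := lt_left hR h1 h2 hf b3 b4
  have l4 := lt_right hR h1 h2 hf b1 b2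
  obtain ⟨a1, a2, a3, a4⟩ := ke
  have l5 : ord i f.1.2.2 < ord i e.1.2.2 := by
    obtain ⟨⟨c1, s1, o1⟩, ⟨c2, s2, o2⟩⟩ := e
    obtain ⟨⟨c1', s1', o1'⟩, ⟨c2', s2', o2'⟩⟩ := f
    unfold Lt at r1
    dsimp only at *
    have q1 : off M ord (c1, s1, o1) = ord i o1 := off_lev r3 h1 h2
    have q3 : off M ord (c1', s1', o1') = ord i o1' := off_lev b4 h1 h2
    omega
  rcases a4 with a4 | ⟨-, -, a4⟩ | ⟨-, -, a4, a5, a6⟩
  · omega
  · have g1 := O.glast i e.1.2.2 a ha a4 l1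
    have g2 : Gd (2 * i + 1) f.2.2.2 := by
      refine O.glast i a f.2.2.2 ?_ g1 l4
      have := (hR.edge f hf).1.2.1
      unfold GV HV FV BV at this
      omega
    unfold Gd at g2
    omega
  · rw [a5] at l5 l1
    rcases b6 with ⟨b6, b7⟩ | ⟨b6, b7⟩
    · exact (O.test i h1 b5 _ _ b6 b7).1 ⟨l5, by omega⟩
    · exact (O.test i h1 b5 _ _ b7 b6).2 ⟨l5, by omega⟩

theorem AC (hh : 1 ≤ h) {e f : (ℕ × ℕ × ℕ) × (ℕ × ℕ × ℕ)} (he : e ∈ R) (hf : f ∈ R)
    (ke : KA P M Z h i e) (kf : KC nb h i f) : False := by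
  have k4 := C_first O hR h1 h2 ha hf kf
  obtain ⟨b1, b2, b3, b4, b5, b6⟩ := kf
  obtain ⟨r1, r2, r3⟩ := A_right hR hh he hf ke b1 b2 b3
  have l1 := lt_left hR h1 h2 he r2 r3
  refine k4.2 e.1.2.2 ?_ l1
  have := (hR.edge e he).1.1
  unfold GV HV FV BV at this
  omega

theorem AD (hP : 2 ≤ P) (hh : 1 ≤ h) {e f : (ℕ × ℕ × ℕ) × (ℕ × ℕ × ℕ)} (he : e ∈ R) (hf : f ∈ R)
    (ke : KA P M Z h i e) (kf : KD P nb h i f) (hl : e.2.2.2 = P - 1) : False := by
  obtain ⟨b1, b2, b3, b4, b5⟩ := kf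
  obtain ⟨r1, r2, r3⟩ := A_right hR hh he hf ke b1 b2 b3
  have l1 := lt_left hR h1 h2 he r2 r3
  have l4 := lt_right hR h1 h2 hf b1 b2
  obtain ⟨a1, a2, a3, a4⟩ := ke
  rcases a4 with a4 | ⟨-, -, a4⟩ | ⟨-, -, a4, a5, a6⟩
  · omega
  · have g1 := O.glast i e.1.2.2 a ha a4 l1
    have g2 : Gd (2 * i + 1) f.2.2.2 := O.glast i a f.2.2.2 b4 g1 l4
    exact three a4 g1 g2 (by intro hx; rw [hx] at l1; omega) (by intro hx; rw [← hx] at l4; omega)
      (by intro hx; rw [hx] at l1; omega)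
  · omega

theorem BC {e f : (ℕ × ℕ × ℕ) × (ℕ × ℕ × ℕ)} (he : e ∈ R) (hf : f ∈ R)
    (ke : KB P M X Y h i e) (kf : KC nb h i f) : False := by
  have k4 := C_first O hR h1 h2 ha hf kf
  obtain ⟨a1, a2, a3, a4, a5, a6⟩ := ke
  have l1 := lt_left hR h1 h2 he a3 a4
  refine k4.2 e.1.2.2 ?_ l1
  have := (hR.edge e he).1.1
  unfold GV HV FV BV at this
  omega

theorem card_level (hP : 2 ≤ P) (hh : 1 ≤ h)
    (hseg : ∀ e ∈ R, e.2.1 = h ∧ (e.2.2.1 = 2 * i ∨ e.2.2.1 = 2 * i + 1)) : R.card ≤ P := by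
  set lab : (ℕ × ℕ × ℕ) × (ℕ × ℕ × ℕ) → ℕ := fun e =>
    if e.2.2.1 = 2 * i + 1 then e.2.2.2 else
    if e.1.2.1 = 2 * i then (e.1.2.2 - 4) % (P + 3) else
    if e.1.2.1 + 1 = 2 * i then 0 else P - 1 with hlab
  have lA : ∀ e, KA P M Z h i e → lab e = e.2.2.2 ∧ e.2.2.2 < P := by
    intro e k
    rw [hlab]
    dsimp only
    rw [if_pos k.2.1]
    exact ⟨rfl, k.2.2.1⟩
  have lB : ∀ e, KB P M X Y h i e →
      lab e = (e.1.2.2 - 4) % (P + 3) ∧ (e.1.2.2 - 4) % (P + 3) < P - 1 := by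
    intro e k
    refine ⟨?_, k.eq4.1⟩
    obtain ⟨a1, a2, a3, a4, a5, a6⟩ := k
    rw [hlab]
    dsimp only
    rw [if_neg (by omega), if_pos a4]
  have lC : ∀ e, KC nb h i e → lab e = 0 := by
    intro e k
    obtain ⟨a1, a2, a3, a4, a5, a6⟩ := k
    rw [hlab]
    dsimp only
    rw [if_neg (by omega), if_neg (by omega), if_pos a4]
  have lD : ∀ e, KD P nb h i e → lab e = P - 1 := by
    intro e k
    obtain ⟨a1, a2, a3, a4, a5⟩ := k
    rw [hlab]
    dsimp only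
    rw [if_neg (by omega), if_neg (by omega), if_neg (by omega)]
  have kd : ∀ e ∈ R, KA P M Z h i e ∨ KB P M X Y h i e ∨ KC nb h i e ∨ KD P nb h i e :=
    fun e he => kinds hP (by omega) h1 h2 (hR.edge e he) (hseg e he).1 (hseg e he).2
  refine card_le_label lab (fun e he => ?_) ?_
  · rcases kd e he with k | k | k | k
    · have := lA e k
      omega
    · have := lB e k
      omega
    · have := lC e k
      omega
    · have := lD e k
      omega
  · intro e he f hf hef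
    rcases kd e he with k | k | k | k <;> rcases kd f hf with k' | k' | k' | k'
    · have q1 := lA e k
      have q2 := lA f k'
      exact hR.right_inj he hf (Prod.ext (k.1.trans k'.1.symm)
        (Prod.ext (k.2.1.trans k'.2.1.symm) (by omega)))
    · exact (AB O hR h1 h2 ha hh he hf k k').elim
    · exact (AC O hR h1 h2 ha hh he hf k k').elim
    · have q1 := lA e k
      have q2 := lD f k'
      exact (AD O hR h1 h2 ha hP hh he hf k k' (by omega)).elim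
    · exact (AB O hR h1 h2 ha hh hf he k' k).elim
    · have q1 := lB e k
      have q2 := lB f k'
      exact BB O hR h1 h2 ha he hf k k' (by omega)
    · exact (BC O hR h1 h2 ha he hf k k').elim
    · have q1 := lB e k
      have q2 := lD f k'
      omega
    · exact (AC O hR h1 h2 ha hh hf he k' k).elim
    · exact (BC O hR h1 h2 ha hf he k' k).elim
    · exact CC O hR h1 h2 ha he hf k k'
    · have q1 := lC e k
      have q2 := lD f k'
      omega
    · have q1 := lD e k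
      have q2 := lA f k'
      exact (AD O hR h1 h2 ha hP hh hf he k' k (by omega)).elim
    · have q1 := lD e k
      have q2 := lB f k'
      omega
    · have q1 := lD e k
      have q2 := lC f k'
      omega
    · exact DD O hR h1 h2 he hf k k'

end

/-- **at most `P` edges** cross the edge with the last left end -/
theorem card_R (O : OrdOK P M nb X Y Z ord) (hP : 2 ≤ P) (hM : 1 ≤ M) {x y : ℕ × ℕ × ℕ}
    (hxy : OE P M nb T X Y Z ord (x, y)) (hR : RS P M nb T X Y Z ord R x y) : R.card ≤ P := by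
  obtain ⟨h, s, o⟩ := x
  obtain ⟨h', s', o'⟩ := y
  have t := hxy.ty hM
  unfold Ty at t
  -- segments of the right ends
  rcases t with ⟨t1, t2, t3, t4, t5⟩ | ⟨t1, t2, t⟩
  · subst t1 t2
    exact card_hub hR hM t3
  · subst t2
    have seg : ∀ e ∈ R, e.2.1 = h' ∧ s ≤ e.2.2.1 ∧ e.2.2.1 ≤ s' := by
      intro e he
      have m := hR.xr e he
      have r := hR.ry e he
      unfold Lt at m r
      dsimp only at m r
      omega
    rcases t with ⟨a1, a2, a3, a4⟩ | ⟨a1, a2, a3, a4⟩ | ⟨a1, a2, a3, a4⟩ |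
      ⟨a1, a2, a3, a4, a5, a6, a7⟩ | ⟨a1, a2, a3, a4, a5, a6, a7⟩ | ⟨a1, a2, a3, a4, a5, a6⟩ |
      ⟨a1, a2, a3, a4, a5, a6, a7⟩ | ⟨a1, a2, a3, a4, a5, a6, a7⟩
    · subst a2
      exact card_clique hR a1 a4
    · subst a1 a2 a3
      exact card_first hR hM
    · -- last level to the right clique
      subst a1 a3 a4
      refine card_level O hR hM le_rfl a2 hP t1 (fun e he => ?_)
      have q := seg e he
      refine ⟨q.1, ?_⟩
      have r := hR.ry e he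
      obtain ⟨⟨c1, s1, o1⟩, ⟨c2, s2, o2⟩⟩ := e
      unfold Lt at r
      dsimp only at q r ⊢
      have e1 : off M ord (h', 2 * M + 2, 0) = 0 := off_post (by omega)
      omega
    · -- an arc of the bus
      obtain ⟨i, rfl⟩ : ∃ i, s = 2 * i := ⟨s / 2, by omega⟩
      refine card_level O hR (by omega) (by omega) a5 hP t1 (fun e he => ?_)
      have q := seg e he
      refine ⟨q.1, ?_⟩
      by_contra hcon
      have hs2 : e.2.2.1 = 2 * (i + 1) := by omega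
      have l := hR.lx e he
      have r := hR.ry e he
      have ht := (hR.edge e he)
      obtain ⟨⟨c1, s1, o1⟩, ⟨c2, s2, o2⟩⟩ := e
      have ht := ht.ty hM
      unfold Ty at ht
      unfold Lt at l r
      dsimp only at q l r hs2
      rcases ht with ht | ⟨b1, b2, ht⟩
      · omega
      · rcases ht with ht | ht | ht | ⟨d1, d2, d3, d4, d5, d6, d7⟩ | ht | ht | ht | ht
        · omega
        · omega
        · omega
        · have q1 : off M ord (c1, s1, o1) = ord i o1 := off_lev (by omega) (by omega) (by omega)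
          have q2 : off M ord (c2, s2, o2) = ord (i + 1) o2 :=
            off_lev (by omega) (by omega) (by omega)
          have q3 : off M ord (h', 2 * i, o) = ord i o := off_lev (by omega) (by omega) (by omega)
          have q4 : off M ord (h', s', o') = ord (i + 1) o' :=
            off_lev (by omega) (by omega) (by omega)
          have := O.arcs i o1 o o2 o' d5 a5 d6 a6 d7 a7 (by omega)
          omega
        · omega
        · omega
        · omega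
        · omega
    · -- from a guide to the next block
      obtain ⟨i, rfl⟩ : ∃ i, s = 2 * i := ⟨s / 2, by omega⟩
      refine card_level O hR (by omega) (by omega) a7 hP t1 (fun e he => ?_)
      have q := seg e he
      omega
    · -- from a block to a guide
      subst a2
      exact card_guide O hR a1 a3 a4 a5
    · -- inside a level
      subst a4
      obtain ⟨i, rfl⟩ : ∃ i, s' = 2 * i := ⟨s' / 2, by omega⟩
      refine card_level O hR (by omega) (by omega) a5 hP t1 (fun e he => ?_)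
      have q := seg e he
      omega
    · obtain ⟨i, rfl⟩ : ∃ i, s = 2 * i := ⟨s / 2, by omega⟩
      refine card_level O hR (by omega) (by omega) a6 hP t1 (fun e he => ?_)
      have q := seg e he
      omega

end

end Pool.Agent.E8helper92.OQ
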