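import Pool.Agent.H601R2.PP
import Pool.Agent.R544.Util2
import Pool.Agent.H619R2.QP.Graph
import Pool.Agent.H634R2.GraphDefs

/-!
# Recognition of outer `k`-quasi-planar graphs is in NP
-/

namespace Pool.Agent.E8helper92.OQ

open Pool.Agent.NPC Pool.Agent.H619R2.QP

/-- `acc` extends by `k` edges to a list of pairwise crossing edges -/
def Ext (E : List (ℕ × ℕ)) (pos : ℕ → ℕ) : ℕ → List (ℕ × ℕ) → Prop
  | 0, _ => True
  | k + 1, acc => ∃ e ∈ E, (∀ f ∈ acc, Cr pos e f) ∧ Ext E pos k (e :: acc)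

theorem ext_iff {E : List (ℕ × ℕ)} {pos : ℕ → ℕ} (k : ℕ) : ∀ acc, Ext E pos k acc ↔
    ∃ l : List (ℕ × ℕ), l.length = k ∧ (∀ e ∈ l, e ∈ E) ∧ l.Pairwise (Cr pos) ∧
      ∀ e ∈ l, ∀ f ∈ acc, Cr pos e f := by
  induction k with
  | zero =>
    intro acc
    exact ⟨fun _ => ⟨[], rfl, by simp, by simp, by simp⟩, fun _ => trivial⟩
  | succ k ih =>
    intro acc
    constructor
    · rintro ⟨e, he, hacc, h⟩
      obtain ⟨l, h1, h2, h3, h4⟩ := (ih _).1 h
      refine ⟨e :: l, by simp [h1], ?_, ?_, ?_⟩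
      · intro f hf
        rcases List.mem_cons.1 hf with rfl | hf
        · exact he
        · exact h2 f hf
      · rw [List.pairwise_cons]
        exact ⟨fun f hf => Cr_symm (h4 f hf e (by simp)), h3⟩
      · intro f hf g hg
        rcases List.mem_cons.1 hf with rfl | hf
        · exact hacc g hg
        · exact h4 f hf g (by simp [hg])
    · rintro ⟨l, h1, h2, h3, h4⟩
      obtain ⟨e, l', rfl⟩ : ∃ e l', l = e :: l' := by
        cases l with
        | nil => simp at h1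
        | cons e l' => exact ⟨e, l', rfl⟩
      rw [List.pairwise_cons] at h3
      refine ⟨e, h2 e (by simp), fun f hf => h4 e (by simp) f hf, (ih _).2 ⟨l', by simpa using h1,
        fun f hf => h2 f (by simp [hf]), h3.2, ?_⟩⟩
      intro f hf g hg
      rcases List.mem_cons.1 hg with rfl | hg
      · exact Cr_symm (h3.1 f hf)
      · exact h4 f (by simp [hf]) g hg

theorem noTwist_iff {k : ℕ} {E : List (ℕ × ℕ)} {pos : ℕ → ℕ} :
    NoTwist k E pos ↔ ¬ Ext E pos k [] := by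
  classical
  unfold NoTwist
  rw [ext_iff]
  refine not_congr ⟨?_, ?_⟩
  · rintro ⟨S, h1, h2, h3⟩
    refine ⟨S.toList, by rw [Finset.length_toList, h1], fun e he => h2 e (Finset.mem_toList.1 he),
      ?_, by simp⟩
    refine List.Pairwise.imp_of_mem ?_ (Finset.nodup_toList S)
    intro e f he hf hne
    exact h3 e (Finset.mem_toList.1 he) f (Finset.mem_toList.1 hf) hne
  · rintro ⟨l, h1, h2, h3, -⟩
    have hnd : l.Nodup := by
      refine h3.imp ?_
      rintro e f hef rfl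
      exact Cr_irrefl hef
    have hsym : Std.Symm (Cr pos) := ⟨fun _ _ h => Cr_symm h⟩
    refine ⟨l.toFinset, by rw [List.toFinset_card_of_nodup hnd, h1],
      fun e he => h2 e (List.mem_toFinset.1 he), ?_⟩
    intro e he f hf hne
    exact h3.forall (List.mem_toFinset.1 he) (List.mem_toFinset.1 hf) hne

theorem pp_cr {α : Type} [TEnc α] {a b c d : α → ℕ} (ha : NPC.Poly a) (hb : NPC.Poly b)
    (hc : NPC.Poly c) (hd : NPC.Poly d) : PP (fun x => cr (a x, b x) (c x, d x)) := by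
  have m1 := NPC.Poly.min ha hb
  have m2 := NPC.Poly.min hc hd
  have m3 := NPC.Poly.max ha hb
  have m4 := NPC.Poly.max hc hd
  exact PP.or (PP.and (PP.lt m1 m2) (PP.and (PP.lt m2 m3) (PP.lt m3 m4)))
    (PP.and (PP.lt m2 m1) (PP.and (PP.lt m1 m4) (PP.lt m4 m3)))

theorem pp_ext (k : ℕ) : PP (fun x : ((List ℕ × List (ℕ × ℕ)) × List ℕ) × List (ℕ × ℕ) =>
    Ext x.1.1.2 (index x.1.2) k x.2) := by
  induction k with
  | zero => exact ⟨fun _ => true, NPC.Poly.const _, fun a => by simp [Ext]⟩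
  | succ k ih =>
    refine PP.bex (l := fun x : ((List ℕ × List (ℕ × ℕ)) × List ℕ) × List (ℕ × ℕ) => x.1.1.2)
      (r := fun x e => (∀ f ∈ x.2, Cr (index x.1.2) e f) ∧ Ext x.1.1.2 (index x.1.2) k (e :: x.2))
      (by fun_prop) ?_
    refine PP.and ?_ ?_
    · refine PP.ball (l := fun y : (((List ℕ × List (ℕ × ℕ)) × List ℕ) × List (ℕ × ℕ)) ×
        (ℕ × ℕ) => y.1.2) (r := fun y f => Cr (index y.1.1.2) y.2 f) (by fun_prop) ?_
      exact pp_cr (NPC.Poly.index (by fun_prop) (by fun_prop))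
        (NPC.Poly.index (by fun_prop) (by fun_prop))
        (NPC.Poly.index (by fun_prop) (by fun_prop))
        (NPC.Poly.index (by fun_prop) (by fun_prop))
    · exact ih.comp (f := fun y : (((List ℕ × List (ℕ × ℕ)) × List ℕ) × List (ℕ × ℕ)) ×
        (ℕ × ℕ) => (y.1.1, y.2 :: y.1.2)) (by fun_prop)

theorem isGraph_iff' (V : List ℕ) (E : List (ℕ × ℕ)) : Pool.Agent.NPC.H634R2.IsGraph V E ↔
    V.dedup = V ∧ (∀ e ∈ E, e.1 ∈ V ∧ e.2 ∈ V ∧ e.1 ≠ e.2) ∧
      (E.dedup = E ∧ ∀ e ∈ E, (e.2, e.1) ∉ E) := by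
  unfold Pool.Agent.NPC.H634R2.IsGraph
  rw [List.dedup_eq_self, List.dedup_eq_self]
  refine and_congr_right fun _ => and_congr_right fun hE => ?_
  constructor
  · intro h
    refine ⟨h.of_map _, fun e he he' => ?_⟩
    have := List.inj_on_of_nodup_map h he he' (by simp [Sym2.eq_swap])
    have h2 := hE e he
    rw [Prod.ext_iff] at this
    exact h2.2.2 this.1
  · rintro ⟨h1, h2⟩
    refine List.Nodup.map_on ?_ h1
    intro e he f hf hef
    rw [Sym2.eq_iff] at hef
    rcases hef with ⟨e1, e2⟩ | ⟨e1, e2⟩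
    · exact Prod.ext e1 e2
    · exfalso
      refine h2 e he ?_
      rw [e1, e2]
      exact hf

theorem pp_isGraph : PP (fun x : List ℕ × List (ℕ × ℕ) =>
    Pool.Agent.NPC.H634R2.IsGraph x.1 x.2) := by
  refine PP.congr ?_ (fun x => (isGraph_iff' x.1 x.2).symm)
  refine PP.and (PP.eq (R544.poly_dedup (by fun_prop)) (by fun_prop)) (PP.and ?_ (PP.and
    (PP.eq (R544.poly_dedup (by fun_prop)) (by fun_prop)) ?_))
  · refine PP.ball (l := fun x : List ℕ × List (ℕ × ℕ) => x.2)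
      (r := fun x e => e.1 ∈ x.1 ∧ e.2 ∈ x.1 ∧ e.1 ≠ e.2) (by fun_prop) ?_
    exact PP.and (PP.mem (by fun_prop) (by fun_prop)) (PP.and (PP.mem (by fun_prop) (by fun_prop))
      (PP.ne (by fun_prop) (by fun_prop)))
  · refine PP.ball (l := fun x : List ℕ × List (ℕ × ℕ) => x.2)
      (r := fun x e => (e.2, e.1) ∉ x.2) (by fun_prop) ?_
    exact PP.not (PP.mem (by fun_prop) (by fun_prop))

theorem sz_perm {α : Type} [TEnc α] {l l' : List α} (h : l.Perm l') : sz l = sz l' := by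
  induction h with
  | nil => rfl
  | cons a _ ih => rw [sz_list_cons, sz_list_cons, ih]
  | swap a b l =>
    rw [sz_list_cons, sz_list_cons, sz_list_cons, sz_list_cons]
    omega
  | trans _ _ ih1 ih2 => exact ih1.trans ih2

/-- a sorted list orders its members like `pos` -/
theorem index_sorted {V : List ℕ} {pos : ℕ → ℕ} (hinj : ∀ u ∈ V, ∀ v ∈ V, pos u = pos v → u = v) :
    ∃ w : List ℕ, w.Perm V ∧ ∀ u ∈ V, ∀ v ∈ V, index w u < index w v ↔ pos u < pos v := by
  set r : ℕ → ℕ → Prop := fun a b => pos a ≤ pos b with hr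
  have : DecidableRel r := fun a b => Nat.decLe _ _
  have : Std.Total r := ⟨fun a b => le_total (pos a) (pos b)⟩
  have : IsTrans ℕ r := ⟨fun a b c h1 h2 => le_trans h1 h2⟩
  refine ⟨V.insertionSort r, List.perm_insertionSort r V, ?_⟩
  have hs := List.pairwise_insertionSort r V
  have hmem : ∀ u, u ∈ V.insertionSort r ↔ u ∈ V := fun u => (List.perm_insertionSort r V).mem_iff
  have key : ∀ u ∈ V, ∀ v ∈ V, index (V.insertionSort r) u < index (V.insertionSort r) v →
      pos u ≤ pos v := by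
    intro u hu v hv h
    have h1 := getElem?_index ((hmem u).2 hu)
    have h2 := getElem?_index ((hmem v).2 hv)
    obtain ⟨k1, e1⟩ := List.getElem?_eq_some_iff.1 h1
    obtain ⟨k2, e2⟩ := List.getElem?_eq_some_iff.1 h2
    have := List.pairwise_iff_getElem.1 hs _ _ k1 k2 h
    rw [e1, e2] at this
    exact this
  intro u hu v hv
  constructor
  · intro h
    have h1 := key u hu v hv h
    have h2 : pos u ≠ pos v := by
      intro he
      rw [hinj u hu v hv he] at h
      exact absurd h (lt_irrefl _)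
    omega
  · intro h
    by_contra hc
    rcases Nat.lt_or_eq_of_le (not_lt.1 hc) with h1 | h1
    · have := key v hv u hu h1
      omega
    · have := index_inj ((hmem v).2 hv) ((hmem u).2 hu) h1
      rw [this] at h
      exact absurd h (lt_irrefl _)

theorem inNPP_recognition (k : ℕ) : InNPP (fun G : List ℕ × List (ℕ × ℕ) =>
    Pool.Agent.NPC.H634R2.IsGraph G.1 G.2 ∧ ∃ pos : ℕ → ℕ,
      (∀ u ∈ G.1, ∀ v ∈ G.1, pos u = pos v → u = v) ∧ NoTwist k G.2 pos) := by
  refine R544.inNPP_of_pp (β := List ℕ) (R := fun G w =>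
    Pool.Agent.NPC.H634R2.IsGraph G.1 G.2 ∧ (∀ v ∈ G.1, v ∈ w) ∧ ¬ Ext G.2 (index w) k [])
    ?_ Polynomial.X ?_ ?_
  · refine PP.and (pp_isGraph.comp (f := fun x : (List ℕ × List (ℕ × ℕ)) × List ℕ => x.1)
      (by fun_prop)) (PP.and ?_ ?_)
    · exact PP.ball (l := fun x : (List ℕ × List (ℕ × ℕ)) × List ℕ => x.1.1)
        (r := fun x v => v ∈ x.2) (by fun_prop) (PP.mem (by fun_prop) (by fun_prop))
    · exact PP.not ((pp_ext k).comp (f := fun x : (List ℕ × List (ℕ × ℕ)) × List ℕ =>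
        (x, ([] : List (ℕ × ℕ)))) (by fun_prop))
  · rintro ⟨V, E⟩ ⟨hG, pos, hinj, hnt⟩
    dsimp only at hG hinj hnt ⊢
    obtain ⟨w, hw, hwp⟩ := index_sorted hinj
    refine ⟨w, ?_, hG, fun v hv => hw.mem_iff.2 hv, ?_⟩
    · rw [sz_perm hw, Polynomial.eval_X, sz_pair]
      omega
    · rw [ext_iff]
      rintro ⟨l, h1, h2, h3, -⟩
      rw [noTwist_iff, ext_iff] at hnt
      refine hnt ⟨l, h1, h2, List.Pairwise.imp_of_mem ?_ h3, by simp⟩
      intro e f he hf hef
      obtain ⟨e1, e2, -⟩ := hG.2.1 e (h2 e he)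
      obtain ⟨f1, f2, -⟩ := hG.2.1 f (h2 f hf)
      have a1 := hwp _ e1 _ e2
      have a2 := hwp _ e2 _ e1
      have a3 := hwp _ e1 _ f1
      have a4 := hwp _ f1 _ e1
      have a5 := hwp _ e1 _ f2
      have a6 := hwp _ f2 _ e1
      have a7 := hwp _ e2 _ f1
      have a8 := hwp _ f1 _ e2
      have a9 := hwp _ e2 _ f2
      have a10 := hwp _ f2 _ e2
      have a11 := hwp _ f1 _ f2
      have a12 := hwp _ f2 _ f1
      unfold Cr cr at hef ⊢
      dsimp only at hef ⊢
      omega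
  · rintro ⟨V, E⟩ w ⟨hG, hw, hext⟩
    refine ⟨hG, index w, fun u hu v hv huv => index_inj (hw u hu) (hw v hv) huv, ?_⟩
    rw [noTwist_iff]
    exact hext

end Pool.Agent.E8helper92.OQ
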