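import Pool.Agent.E8helper92.OQ.Defs
import Pool.Agent.R544.Nae3

/-!
# NP-hardness of the non-betweenness problem `NBsat`, by a reduction from monotone NAE-3-SAT
-/

set_option autoImplicit false

namespace Pool.Agent.E8helper92.OQ.Nb

open Pool.Agent.NPC Pool.Agent.R544

/-- cluster of the variable `v` -/
def cx (v : ℕ) : ℕ := 1 + v

/-- auxiliary cluster number `r` of the clause `j` -/
def cu (n j r : ℕ) : ℕ := 1 + 3 * n + 4 * j + r

/-- the tests of clause `j` with variables `t` -/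
def tests (n j : ℕ) (t : ℕ × ℕ × ℕ) : NBI :=
  [(cx t.1, cu n j 0, 0), (cx t.2.1, cu n j 1, 0), (cx t.2.2, cu n j 2, 0),
   (cu n j 3, cu n j 0, cu n j 1), (cu n j 3, cu n j 1, cu n j 0),
   (0, cu n j 3, cu n j 2), (0, cu n j 2, cu n j 3)]

/-- the reduction -/
def red (φ : N3) : NBI := (List.range φ.length).flatMap (fun j => tests φ.length j (tr φ j))

theorem poly_red : NPC.Poly red := by
  unfold red
  refine NPC.Poly.flatMap (l := fun φ : N3 => List.range φ.length)
    (F := fun (φ : N3) j => tests φ.length j (tr φ j)) (UPoly.range (UPoly.length NPC.Poly.id)) ?_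
  unfold tests cx cu
  fun_prop

theorem red_length (φ : N3) : (red φ).length = 7 * φ.length := by
  unfold red
  rw [List.length_flatMap]
  have h : ∀ m : ℕ, ((List.range m).map fun j => (tests φ.length j (tr φ j)).length).sum = 7 * m := by
    intro m
    induction m with
    | zero => rfl
    | succ m ih =>
      rw [List.range_succ, List.map_append, List.sum_append, ih]
      simp [tests]
      ring
  exact h _

theorem forall_red (φ : N3) (P : ℕ × ℕ × ℕ → Prop) :
    (∀ t ∈ red φ, P t) ↔ ∀ j < φ.length, ∀ t ∈ tests φ.length j (tr φ j), P t := by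
  unfold red
  simp only [List.mem_flatMap, List.mem_range]
  constructor
  · intro h j hj t ht
    exact h t ⟨j, hj, ht⟩
  · rintro h t ⟨j, hj, ht⟩
    exact h j hj t ht

theorem forall_tests (n j : ℕ) (u : ℕ × ℕ × ℕ) (P : ℕ × ℕ × ℕ → Prop) :
    (∀ t ∈ tests n j u, P t) ↔
      P (cx u.1, cu n j 0, 0) ∧ P (cx u.2.1, cu n j 1, 0) ∧ P (cx u.2.2, cu n j 2, 0) ∧
      P (cu n j 3, cu n j 0, cu n j 1) ∧ P (cu n j 3, cu n j 1, cu n j 0) ∧
      P (0, cu n j 3, cu n j 2) ∧ P (0, cu n j 2, cu n j 3) := by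
  unfold tests
  simp only [List.mem_cons, List.not_mem_nil, or_false, forall_eq_or_imp, forall_eq]

theorem tr_bound {φ : N3} (h : BN φ) {j : ℕ} (hj : j < φ.length) :
    (tr φ j).1 < 3 * φ.length ∧ (tr φ j).2.1 < 3 * φ.length ∧ (tr φ j).2.2 < 3 * φ.length :=
  h _ (tr_mem hj)

theorem ok_red (φ : N3) (h : BN φ) : NBok (red φ) := by
  unfold NBok
  rw [forall_red]
  intro j hj
  obtain ⟨h1, h2, h3⟩ := tr_bound h hj
  rw [forall_tests, red_length]
  simp only [cx, cu]
  refine ⟨?_, ?_, ?_, ?_, ?_, ?_, ?_⟩ <;> omega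

/-! ### soundness -/

theorem sound (φ : N3) (hb : BN φ) (h : NBsat (red φ)) : NAE3 φ := by
  obtain ⟨K, hK, hT⟩ := h
  rw [red_length] at hK
  rw [forall_red] at hT
  rw [nae3_iff]
  refine ⟨fun v => decide (K 0 < K (cx v)), fun j hj hcon => ?_⟩
  obtain ⟨h1, h2, h3⟩ := tr_bound hb hj
  have hT := hT j hj
  rw [forall_tests] at hT
  simp only at hT
  obtain ⟨t1, t2, t3, t4, t5, t6, t7⟩ := hT
  simp only [decide_eq_decide] at hcon
  obtain ⟨c1, c2⟩ := hcon
  have hne : ∀ a b : ℕ, a ≤ 7 * φ.length → b ≤ 7 * φ.length → a ≠ b → K a ≠ K b :=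
    fun a b ha hb' hab h => hab (hK a ha b hb' h)
  have b0 : ∀ r < 4, cu φ.length j r ≤ 7 * φ.length := by
    intro r hr
    unfold cu
    omega
  have bx : ∀ v < 3 * φ.length, cx v ≤ 7 * φ.length := by
    intro v hv
    unfold cx
    omega
  have n0 : ∀ r < 4, K 0 ≠ K (cu φ.length j r) := by
    intro r hr
    refine hne _ _ (Nat.zero_le _) (b0 r hr) ?_
    unfold cu
    omega
  have nx : ∀ v < 3 * φ.length, K 0 ≠ K (cx v) := by
    intro v hv
    refine hne _ _ (Nat.zero_le _) (bx v hv) ?_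
    unfold cx
    omega
  have nuu : ∀ r < 4, ∀ s < 4, r ≠ s → K (cu φ.length j r) ≠ K (cu φ.length j s) := by
    intro r hr s hs hrs
    refine hne _ _ (b0 r hr) (b0 s hs) ?_
    unfold cu
    omega
  have e1 := n0 0 (by norm_num)
  have e2 := n0 1 (by norm_num)
  have e3 := n0 2 (by norm_num)
  have e4 := n0 3 (by norm_num)
  have f1 := nx _ h1
  have f2 := nx _ h2
  have f3 := nx _ h3
  have g1 := nuu 0 (by norm_num) 1 (by norm_num) (by norm_num)
  have g2 := nuu 0 (by norm_num) 3 (by norm_num) (by norm_num)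
  have g3 := nuu 1 (by norm_num) 3 (by norm_num) (by norm_num)
  have g4 := nuu 2 (by norm_num) 3 (by norm_num) (by norm_num)
  generalize K (cu φ.length j 0) = u0 at *
  generalize K (cu φ.length j 1) = u1 at *
  generalize K (cu φ.length j 2) = u2 at *
  generalize K (cu φ.length j 3) = u3 at *
  generalize K (cx (tr φ j).1) = x1 at *
  generalize K (cx (tr φ j).2.1) = x2 at *
  generalize K (cx (tr φ j).2.2) = x3 at *
  generalize K 0 = o at *
  clear hK hne b0 bx n0 nx nuu
  rcases lt_or_gt_of_ne f1 with k1 | k1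
  · have k2 := c1.1 k1
    have k3 := c2.1 k2
    omega
  · have k2 : ¬ o < x2 := fun h => by have := c1.2 h; omega
    have k3 : ¬ o < x3 := fun h => k2 (c2.2 h)
    omega

/-! ### completeness -/

/-- the offset of the auxiliary cluster number `r` -/
def off (s : Bool) (r : ℕ) : ℕ :=
  if r = 0 then 1 else if r = 1 then 3 else if r = 2 then 4 else if s then 2 else 0

/-- absolute value of the position -/
def av (n : ℕ) (S : ℕ → Bool) (c : ℕ) : ℕ :=
  if c ≤ 3 * n then c else
    3 * n + 1 + 5 * ((c - 1 - 3 * n) / 4) + off (S ((c - 1 - 3 * n) / 4)) ((c - 1 - 3 * n) % 4)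

/-- the side of a cluster -/
def sd (φ : N3) (τ : ℕ → Bool) (c : ℕ) : Bool :=
  if c ≤ 3 * φ.length then τ (c - 1) else
    let t := tr φ ((c - 1 - 3 * φ.length) / 4)
    let r := (c - 1 - 3 * φ.length) % 4
    if r = 0 then τ t.1 else if r = 1 then τ t.2.1 else if r = 2 then τ t.2.2 else !(τ t.2.2)

theorem off_le (s : Bool) (r : ℕ) : off s r ≤ 4 := by
  unfold off
  split_ifs <;> omega

theorem off_inj {s : Bool} {r r' : ℕ} (hr : r < 4) (hr' : r' < 4) (h : off s r = off s r') :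
    r = r' := by
  unfold off at h
  split_ifs at h <;> omega

theorem av_inj {n : ℕ} {S : ℕ → Bool} {a b : ℕ} (h : av n S a = av n S b) : a = b := by
  unfold av at h
  have o1 := off_le (S ((a - 1 - 3 * n) / 4)) ((a - 1 - 3 * n) % 4)
  have o2 := off_le (S ((b - 1 - 3 * n) / 4)) ((b - 1 - 3 * n) % 4)
  split_ifs at h with h1 h2 h2
  · exact h
  · omega
  · omega
  · have h3 : (a - 1 - 3 * n) / 4 = (b - 1 - 3 * n) / 4 := by omega
    rw [h3] at h
    have h4 : off (S ((b - 1 - 3 * n) / 4)) ((a - 1 - 3 * n) % 4) =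
      off (S ((b - 1 - 3 * n) / 4)) ((b - 1 - 3 * n) % 4) := by omega
    have h5 := off_inj (Nat.mod_lt _ (by norm_num)) (Nat.mod_lt _ (by norm_num)) h4
    omega

theorem av_le {n : ℕ} {S : ℕ → Bool} {c : ℕ} (hc : c ≤ 7 * n) : av n S c ≤ 8 * n + 1 := by
  unfold av
  have o1 := off_le (S ((c - 1 - 3 * n) / 4)) ((c - 1 - 3 * n) % 4)
  split_ifs <;> omega

theorem av_zero {n : ℕ} {S : ℕ → Bool} {c : ℕ} : av n S c = 0 ↔ c = 0 := by
  unfold av
  split_ifs <;> omega

/-- the position -/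
def Kf (φ : N3) (τ : ℕ → Bool) (S : ℕ → Bool) (c : ℕ) : ℕ :=
  if sd φ τ c then 8 * φ.length + 1 + av φ.length S c else 8 * φ.length + 1 - av φ.length S c

theorem av_cx {n v : ℕ} {S : ℕ → Bool} (h : v < 3 * n) : av n S (cx v) = 1 + v := by
  unfold av cx
  rw [if_pos (by omega)]

theorem av_cu {n j r : ℕ} {S : ℕ → Bool} (hr : r < 4) :
    av n S (cu n j r) = 3 * n + 1 + 5 * j + off (S j) r := by
  unfold av cu
  rw [if_neg (by omega)]
  have h1 : (1 + 3 * n + 4 * j + r - 1 - 3 * n) / 4 = j := by omega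
  have h2 : (1 + 3 * n + 4 * j + r - 1 - 3 * n) % 4 = r := by omega
  rw [h1, h2]

theorem sd_cx {φ : N3} {τ : ℕ → Bool} {v : ℕ} (h : v < 3 * φ.length) : sd φ τ (cx v) = τ v := by
  unfold sd cx
  rw [if_pos (by omega)]
  congr 1
  omega

theorem sd_cu {φ : N3} {τ : ℕ → Bool} {j r : ℕ} (hr : r < 4) :
    sd φ τ (cu φ.length j r) = if r = 0 then τ (tr φ j).1 else if r = 1 then τ (tr φ j).2.1 else
      if r = 2 then τ (tr φ j).2.2 else !(τ (tr φ j).2.2) := by
  unfold sd cu
  rw [if_neg (by omega)]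
  have h1 : (1 + 3 * φ.length + 4 * j + r - 1 - 3 * φ.length) / 4 = j := by omega
  have h2 : (1 + 3 * φ.length + 4 * j + r - 1 - 3 * φ.length) % 4 = r := by omega
  rw [h1, h2]

theorem complete (φ : N3) (hb : BN φ) (h : NAE3 φ) : NBsat (red φ) := by
  rw [nae3_iff] at h
  obtain ⟨τ, hτ⟩ := h
  obtain ⟨S, hS⟩ : ∃ S : ℕ → Bool, ∀ j, S j = decide (τ (tr φ j).1 = τ (tr φ j).2.1) :=
    ⟨fun j => decide (τ (tr φ j).1 = τ (tr φ j).2.1), fun j => rfl⟩
  refine ⟨Kf φ τ S, ?_, ?_⟩
  · rw [red_length]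
    intro a ha b hb h
    have la := av_le (S := S) ha
    have lb := av_le (S := S) hb
    unfold Kf at h
    by_cases h1 : av φ.length S a = av φ.length S b
    · exact av_inj h1
    · exfalso
      split_ifs at h <;> omega
  · rw [forall_red]
    intro j hj
    obtain ⟨h1, h2, h3⟩ := tr_bound hb hj
    rw [forall_tests]
    have hn := hτ j hj
    have k0 : Kf φ τ S 0 = 8 * φ.length + 1 := by
      unfold Kf
      have : av φ.length S 0 = 0 := av_zero.2 rfl
      rw [this]
      split_ifs <;> rfl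
    have kx : ∀ v < 3 * φ.length, Kf φ τ S (cx v) =
        if τ v then 8 * φ.length + 1 + (1 + v) else 8 * φ.length + 1 - (1 + v) := by
      intro v hv
      unfold Kf
      rw [sd_cx hv, av_cx hv]
    have ku : ∀ r, r < 4 → Kf φ τ S (cu φ.length j r) =
        if (if r = 0 then τ (tr φ j).1 else if r = 1 then τ (tr φ j).2.1 else
      if r = 2 then τ (tr φ j).2.2 else !(τ (tr φ j).2.2)) then
          8 * φ.length + 1 + (3 * φ.length + 1 + 5 * j + off (S j) r) else
          8 * φ.length + 1 - (3 * φ.length + 1 + 5 * j + off (S j) r) := by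
      intro r hr
      unfold Kf
      rw [sd_cu hr, av_cu hr]
    have u0 := ku 0 (by norm_num)
    have u1 := ku 1 (by norm_num)
    have u2 := ku 2 (by norm_num)
    have u3 := ku 3 (by norm_num)
    have x1 := kx _ h1
    have x2 := kx _ h2
    have x3 := kx _ h3
    have hSj := hS j
    simp only [k0, u0, u1, u2, u3, x1, x2, x3, off]
    generalize (tr φ j).1 = v1 at *
    generalize (tr φ j).2.1 = v2 at *
    generalize (tr φ j).2.2 = v3 at *
    clear hS hτ kx ku u0 u1 u2 u3 x1 x2 x3 k0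
    cases h4 : τ v1 <;> cases h5 : τ v2 <;> cases h6 : τ v3 <;> simp only [h4, h5, h6] at hSj hn <;>
      simp at hSj hn <;> simp [hSj] <;> omega

theorem hardPr_NB : Pool.Agent.NPC.HardPr NBok NBsat :=
  Pool.Agent.R544.hardPr_NAE3.trans poly_red ok_red
    fun φ hb => ⟨complete φ hb, sound φ hb⟩

end Pool.Agent.E8helper92.OQ.Nb
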