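import Pool.Agent.E8helper92.OQ.Rank
import Pool.Agent.E8helper92.OQ.Defs

/-!
# The order of a copy which lies in one gap of the hub
-/

set_option linter.unusedSectionVars false

namespace Pool.Agent.E8helper92.OQ

open Pool.Agent.H619R2.QP

/-- the block vertices of a copy -/
def Pf (P M : ℕ) : Finset (ℕ × ℕ) :=
  ((Finset.range (P + 2)).image (fun o => (0, o)) ∪
    (Finset.range (M + 1) ×ˢ Finset.range P).image (fun x => (2 * x.1 + 1, x.2))) ∪
    (Finset.range (P + 2)).image (fun o => (2 * M + 2, o))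

theorem mem_Pf {P M : ℕ} {v : ℕ × ℕ} : v ∈ Pf P M ↔ FV P M v := by
  obtain ⟨s, o⟩ := v
  unfold Pf FV
  simp only [Finset.mem_union, Finset.mem_image, Finset.mem_product, Finset.mem_range,
    Prod.mk.injEq, Prod.exists]
  constructor
  · rintro ((⟨a, h1, h2, h3⟩ | ⟨a, b, ⟨h1, h2⟩, h3, h4⟩) | ⟨a, h1, h2, h3⟩) <;> omega
  · rintro (⟨h1, h2⟩ | ⟨h1, h2, h3⟩ | ⟨h1, h2⟩)
    · exact Or.inl (Or.inl ⟨o, h2, h1.symm, rfl⟩)
    · exact Or.inl (Or.inr ⟨s / 2, o, ⟨by omega, h3⟩, by omega, rfl⟩)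
    · exact Or.inr ⟨o, h2, h1.symm, rfl⟩

theorem card_Pf (P M : ℕ) : (Pf P M).card = P * (M + 3) + 4 := by
  unfold Pf
  rw [Finset.card_union_of_disjoint, Finset.card_union_of_disjoint,
    Finset.card_image_of_injective, Finset.card_image_of_injective,
    Finset.card_image_of_injective, Finset.card_product, Finset.card_range, Finset.card_range,
    Finset.card_range]
  · ring
  · intro a b h
    simpa using h
  · rintro ⟨a, b⟩ ⟨c, d⟩ h
    simp only [Prod.mk.injEq] at h ⊢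
    omega
  · intro a b h
    simpa using h
  · rw [Finset.disjoint_left]
    rintro ⟨a, b⟩ h1 h2
    simp only [Finset.mem_image, Finset.mem_range, Prod.mk.injEq, Prod.exists,
      Finset.mem_product] at h1 h2
    obtain ⟨_, _, _, _⟩ := h1
    obtain ⟨_, _, _, _, _⟩ := h2
    omega
  · rw [Finset.disjoint_left]
    rintro ⟨a, b⟩ h1 h2
    simp only [Finset.mem_union, Finset.mem_image, Finset.mem_range, Prod.mk.injEq, Prod.exists,
      Finset.mem_product] at h1 h2
    obtain ⟨_, _, _, _⟩ := h2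
    rcases h1 with ⟨_, _, _, _⟩ | ⟨_, _, _, _, _⟩
    · omega
    · omega

section

variable {P M nb : ℕ} {X Y Z : ℕ → ℕ}

theorem hL {o : ℕ} (h : o < P + 2) : HV P M nb (0, o) := Or.inl (Or.inl ⟨rfl, h⟩)

theorem hR {o : ℕ} (h : o < P + 2) : HV P M nb (2 * M + 2, o) := Or.inl (Or.inr (Or.inr ⟨rfl, h⟩))

theorem hB {j o : ℕ} (hj : j ≤ M) (h : o < P) : HV P M nb (2 * j + 1, o) :=
  Or.inl (Or.inr (Or.inl ⟨by dsimp only; omega, by dsimp only; omega, h⟩))

theorem hV {i e : ℕ} (h1 : 1 ≤ i) (h2 : i ≤ M) (h : e < nb) : HV P M nb (2 * i, e) :=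
  Or.inr ⟨by dsimp only; omega, by dsimp only; omega, by dsimp only; omega, h⟩

theorem lev_nF {i e : ℕ} (h1 : 1 ≤ i) (h2 : i ≤ M) : (2 * i, e) ∉ Pf P M := by
  rw [mem_Pf]
  unfold FV
  dsimp only
  omega

theorem aL {o o' : ℕ} (h : o < o') (h' : o' < P + 2) : LA P M nb X Y Z (0, o) (0, o') :=
  ⟨hL (by omega), hL h', Or.inl (Or.inl ⟨Or.inl rfl, rfl, h⟩)⟩

theorem aR {o o' : ℕ} (h : o < o') (h' : o' < P + 2) :
    LA P M nb X Y Z (2 * M + 2, o) (2 * M + 2, o') :=
  ⟨hR (by omega), hR h', Or.inl (Or.inl ⟨Or.inr rfl, rfl, h⟩)⟩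

theorem aL1 {e : ℕ} (hM : 1 ≤ M) (h : e < nb) : LA P M nb X Y Z (0, P + 1) (2 * 1, e) :=
  ⟨hL (by omega), hV (by omega) hM h, Or.inl (Or.inr (Or.inl ⟨rfl, rfl, rfl⟩))⟩

theorem aR1 {e : ℕ} (hM : 1 ≤ M) (h : e < nb) : LA P M nb X Y Z (2 * M, e) (2 * M + 2, 0) :=
  ⟨hV hM le_rfl h, hR (by omega), Or.inl (Or.inr (Or.inr (Or.inl ⟨rfl, rfl, rfl⟩)))⟩

theorem arc {i e e' : ℕ} (h1 : 1 ≤ i) (h2 : i < M) (h : e < nb) (h' : e' < nb)
    (hn : e' = e ∨ nxt (P + 3) e e') : LA P M nb X Y Z (2 * i, e) (2 * (i + 1), e') :=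
  ⟨hV h1 (by omega) h, hV (by omega) (by omega) h', Or.inl (Or.inr (Or.inr (Or.inr (Or.inl
    ⟨by dsimp only; omega, by dsimp only; omega, by dsimp only; omega, by dsimp only; omega,
      hn⟩))))⟩

theorem gl {i g o : ℕ} (hnb : 4 ≤ nb) (h1 : 1 ≤ i) (h2 : i ≤ M) (hg : Gd (2 * i + 1) g)
    (ho : o < P) : LA P M nb X Y Z (2 * i, g) (2 * i + 1, o) :=
  ⟨hV h1 h2 (by unfold Gd at hg; omega), hB h2 ho, Or.inl (Or.inr (Or.inr (Or.inr (Or.inr (Or.inl
    ⟨by dsimp only; omega, by dsimp only; omega, rfl, hg⟩)))))⟩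

theorem gr' {j g o : ℕ} (hnb : 4 ≤ nb) (h2 : j < M) (hg : Gd (2 * j + 1) g)
    (ho : o < P) : LA P M nb X Y Z (2 * j + 1, o) (2 * (j + 1), g) :=
  ⟨hB (by omega) ho, hV (by omega) (by omega) (by unfold Gd at hg; omega),
    Or.inl (Or.inr (Or.inr (Or.inr (Or.inr (Or.inr (Or.inl
    ⟨by dsimp only; omega, by dsimp only; omega, by dsimp only; omega, hg⟩))))))⟩

/-- the two guides of a block -/
theorem two_guides (j : ℕ) : ∃ g g', Gd (2 * j + 1) g ∧ Gd (2 * j + 1) g' ∧ g ≠ g' := by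
  unfold Gd
  rcases Nat.mod_two_eq_zero_or_one j with h | h
  · exact ⟨0, 1, by omega, by omega, by omega⟩
  · exact ⟨2, 3, by omega, by omega, by omega⟩

variable {pos : ℕ × ℕ → ℕ}

/-- rank of the vertex `v` of a copy -/
abbrev rr (P M : ℕ) (pos : ℕ × ℕ → ℕ) (v : ℕ × ℕ) : ℕ := rk (Pf P M) pos v

section

variable (H : Loc P (HV P M nb) (Pf P M) (LA P M nb X Y Z) pos) (hM : 1 ≤ M) (hnb : 4 ≤ nb)

include H hM

theorem lev_le_L {e : ℕ} (he : e < nb) {i : ℕ} (h1 : 1 ≤ i) (h2 : i ≤ M) :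
    rr P M pos (2 * i, e) ≤ rr P M pos (0, P + 1) + i * P + 1 := by
  induction i, h1 using Nat.le_induction with
  | base =>
    have := H.step1 (aL1 hM he)
    rw [Nat.one_mul]
    exact this
  | succ i h1 ih =>
    have h3 := ih (by omega)
    have h4 := H.step (arc (X := X) (Y := Y) (Z := Z) h1 (by omega) he he (Or.inl rfl))
      (lev_nF h1 (by omega))
    rw [Nat.add_mul]
    unfold rr at *
    omega

theorem L_le_lev {e : ℕ} (he : e < nb) {i : ℕ} (h1 : 1 ≤ i) (h2 : i ≤ M) :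
    rr P M pos (0, P + 1) ≤ rr P M pos (2 * i, e) + i * P := by
  induction i, h1 using Nat.le_induction with
  | base =>
    have := H.step (aL1 hM he).symm (lev_nF le_rfl h2)
    rw [Nat.one_mul]
    exact this
  | succ i h1 ih =>
    have h3 := ih (by omega)
    have h4 := H.step (arc (X := X) (Y := Y) (Z := Z) h1 (by omega) he he (Or.inl rfl)).symm
      (lev_nF (by omega) (by omega))
    rw [Nat.add_mul]
    unfold rr at *
    omega

theorem lev_le_R {e : ℕ} (he : e < nb) (k : ℕ) : ∀ i, 1 ≤ i → i + k = M →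
    rr P M pos (2 * i, e) ≤ rr P M pos (2 * M + 2, 0) + (k + 1) * P + 1 := by
  induction k with
  | zero =>
    intro i h1 h2
    have h3 : i = M := by omega
    subst h3
    have := H.step1 (aR1 (X := X) (Y := Y) (Z := Z) hM he).symm
    rw [Nat.add_mul]
    unfold rr
    omega
  | succ k ih =>
    intro i h1 h2
    have h3 := ih (i + 1) (by omega) (by omega)
    have h4 := H.step (arc (X := X) (Y := Y) (Z := Z) h1 (by omega) he he (Or.inl rfl)).symm
      (lev_nF (by omega) (by omega))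
    have h5 : (k + 1 + 1) * P = (k + 1) * P + P := by ring
    unfold rr at *
    omega

theorem R_le_lev {e : ℕ} (he : e < nb) (k : ℕ) : ∀ i, 1 ≤ i → i + k = M →
    rr P M pos (2 * M + 2, 0) ≤ rr P M pos (2 * i, e) + (k + 1) * P := by
  induction k with
  | zero =>
    intro i h1 h2
    have h3 : i = M := by omega
    subst h3
    have := H.step (aR1 (X := X) (Y := Y) (Z := Z) hM he) (lev_nF hM le_rfl)
    rw [Nat.add_mul]
    unfold rr
    omega
  | succ k ih =>
    intro i h1 h2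
    have h3 := ih (i + 1) (by omega) (by omega)
    have h4 := H.step (arc (X := X) (Y := Y) (Z := Z) h1 (by omega) he he (Or.inl rfl))
      (lev_nF (by omega) (by omega))
    have h5 : (k + 1 + 1) * P = (k + 1) * P + P := by ring
    unfold rr at *
    omega

include hnb

/-- the distance of a block from the left clique -/
theorem block_L {j o : ℕ} (hj : j ≤ M) (ho : o < P) :
    rr P M pos (2 * j + 1, o) ≤ rr P M pos (0, P + 1) + max (j + 1) 2 * P + 1 ∧
    rr P M pos (0, P + 1) ≤ rr P M pos (2 * j + 1, o) + max (j + 1) 2 * P + 1 := by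
  obtain ⟨g, g', hg, hg', -⟩ := two_guides j
  have hgn : g < nb := by
    unfold Gd at hg
    omega
  rcases Nat.eq_zero_or_pos j with h0 | h0
  · subst h0
    have h1 := H.step (gr' (X := X) (Y := Y) (Z := Z) hnb (by omega) hg ho).symm
      (lev_nF (by omega) (by omega))
    have h2 := H.step1 (gr' (X := X) (Y := Y) (Z := Z) hnb (by omega) hg ho)
    have h3 := lev_le_L H hM hgn (i := 1) le_rfl hM
    have h4 := L_le_lev H hM hgn (i := 1) le_rfl hM
    rw [show max (0 + 1) 2 * P = P + P by rw [show max (0 + 1) 2 = 2 from rfl]; ring]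
    unfold rr at *
    simp only [Nat.zero_add, Nat.mul_one, Nat.one_mul, Nat.mul_zero] at *
    omega
  · have h1 := H.step (gl (X := X) (Y := Y) (Z := Z) hnb h0 hj hg ho) (lev_nF h0 hj)
    have h2 := H.step1 (gl (X := X) (Y := Y) (Z := Z) hnb h0 hj hg ho).symm
    have h3 := lev_le_L H hM hgn h0 hj
    have h4 := L_le_lev H hM hgn h0 hj
    rw [show max (j + 1) 2 * P = j * P + P by rw [show max (j + 1) 2 = j + 1 by omega]; ring]
    unfold rr at *
    omega

/-- the distance of a block from the right clique -/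
theorem block_R {j o : ℕ} (hj : j ≤ M) (ho : o < P) :
    rr P M pos (2 * j + 1, o) ≤ rr P M pos (2 * M + 2, 0) + max (M + 1 - j) 2 * P + 1 ∧
    rr P M pos (2 * M + 2, 0) ≤ rr P M pos (2 * j + 1, o) + max (M + 1 - j) 2 * P + 1 := by
  obtain ⟨g, g', hg, hg', -⟩ := two_guides j
  have hgn : g < nb := by
    unfold Gd at hg
    omega
  rcases Nat.lt_or_ge j M with h0 | h0
  · obtain ⟨k, rfl⟩ : ∃ k, M = j + 1 + k := ⟨M - (j + 1), by omega⟩
    have h1 := H.step (gr' (X := X) (Y := Y) (Z := Z) hnb (by omega) hg ho).symm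
      (lev_nF (by omega) (by omega))
    have h2 := H.step1 (gr' (X := X) (Y := Y) (Z := Z) hnb (by omega) hg ho)
    have h3 := lev_le_R H hM hgn k (j + 1) (by omega) (by omega)
    have h4 := R_le_lev H hM hgn k (j + 1) (by omega) (by omega)
    rw [show max (j + 1 + k + 1 - j) 2 * P = (k + 1) * P + P by
      rw [show max (j + 1 + k + 1 - j) 2 = k + 1 + 1 by omega]; ring]
    unfold rr at *
    omega
  · have h5 : j = M := by omega
    subst h5
    have h1 := H.step (gl (X := X) (Y := Y) (Z := Z) hnb hM hj hg ho) (lev_nF hM hj)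
    have h2 := H.step1 (gl (X := X) (Y := Y) (Z := Z) hnb hM hj hg ho).symm
    have h3 := lev_le_R H hM hgn 0 j hM (by omega)
    have h4 := R_le_lev H hM hgn 0 j hM (by omega)
    rw [show max (j + 1 - j) 2 * P = P + P by rw [show max (j + 1 - j) 2 = 2 by omega]; ring]
    unfold rr at *
    simp only [Nat.zero_add, Nat.one_mul] at *
    omega

omit hM hnb in
theorem clique_L {o : ℕ} (ho : o < P + 2) {o' : ℕ} (ho' : o' < P + 2) :
    rr P M pos (0, o) ≤ rr P M pos (0, o') + P + 1 := by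
  rcases lt_trichotomy o o' with h | h | h
  · exact H.step1 (aL (X := X) (Y := Y) (Z := Z) h ho').symm
  · subst h
    omega
  · exact H.step1 (aL (X := X) (Y := Y) (Z := Z) h ho)

omit hM hnb in
theorem clique_R {o : ℕ} (ho : o < P + 2) {o' : ℕ} (ho' : o' < P + 2) :
    rr P M pos (2 * M + 2, o) ≤ rr P M pos (2 * M + 2, o') + P + 1 := by
  rcases lt_trichotomy o o' with h | h | h
  · exact H.step1 (aR (X := X) (Y := Y) (Z := Z) h ho').symm
  · subst h
    omega
  · exact H.step1 (aR (X := X) (Y := Y) (Z := Z) h ho)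

/-- distance numbers -/
def dA (v : ℕ × ℕ) : ℕ := if v.1 = 0 then 1 else max ((v.1 + 1) / 2) 2
def dB (M : ℕ) (v : ℕ × ℕ) : ℕ := if v.1 = 2 * M + 2 then 1 else max (M + 1 - v.1 / 2) 2

theorem far_L {v : ℕ × ℕ} (hv : FV P M v) (hv' : v.1 ≠ 2 * M + 2) :
    rr P M pos v ≤ rr P M pos (0, P + 1) + dA v * P + 1 ∧
    rr P M pos (0, P + 1) ≤ rr P M pos v + dA v * P + 1 := by
  obtain ⟨s, o⟩ := v
  unfold FV at hv
  unfold dA
  dsimp only at *
  rcases hv with ⟨h1, h2⟩ | ⟨h1, h2, h3⟩ | ⟨h1, h2⟩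
  · subst h1
    rw [if_pos rfl, Nat.one_mul]
    exact ⟨clique_L H h2 (by omega), clique_L H (by omega) h2⟩
  · rw [if_neg (by omega)]
    have h4 := block_L H hM hnb (j := s / 2) (o := o) (by omega) h3
    rw [show 2 * (s / 2) + 1 = s by omega, show s / 2 + 1 = (s + 1) / 2 by omega] at h4
    exact h4
  · exact absurd h1 hv'

theorem far_R {v : ℕ × ℕ} (hv : FV P M v) (hv' : v.1 ≠ 0) :
    rr P M pos v ≤ rr P M pos (2 * M + 2, 0) + dB M v * P + 1 ∧
    rr P M pos (2 * M + 2, 0) ≤ rr P M pos v + dB M v * P + 1 := by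
  obtain ⟨s, o⟩ := v
  unfold FV at hv
  unfold dB
  dsimp only at *
  rcases hv with ⟨h1, h2⟩ | ⟨h1, h2, h3⟩ | ⟨h1, h2⟩
  · exact absurd h1 hv'
  · rw [if_neg (by omega)]
    have h4 := block_R H hM hnb (j := s / 2) (o := o) (by omega) h3
    rw [show 2 * (s / 2) + 1 = s by omega] at h4
    exact h4
  · subst h1
    rw [if_pos rfl, Nat.one_mul]
    exact ⟨clique_R H h2 (by omega), clique_R H (by omega) h2⟩

/-- the first and the last block vertex belong to the two cliques -/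
theorem extremes {a b : ℕ × ℕ} (ha : FV P M a) (hb : FV P M b) (ha0 : rr P M pos a = 0)
    (hb0 : rr P M pos b = P * (M + 3) + 3) :
    (a.1 = 0 ∧ b.1 = 2 * M + 2) ∨ (a.1 = 2 * M + 2 ∧ b.1 = 0) := by
  have hmul : ∀ c : ℕ, c ≤ M + 3 → c * P ≤ P * (M + 3) := by
    intro c hc
    rw [Nat.mul_comm P]
    exact Nat.mul_le_mul_right P hc
  by_contra hcon
  have hA : a.1 ≠ 2 * M + 2 → b.1 ≠ 2 * M + 2 → M + 3 < dA a + dA b := by
    intro h1 h2
    by_contra h3
    have h4 := hmul _ (not_lt.1 h3)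
    have h5 := far_L H hM hnb ha h1
    have h6 := far_L H hM hnb hb h2
    rw [Nat.add_mul] at h4
    omega
  have hB : a.1 ≠ 0 → b.1 ≠ 0 → M + 3 < dB M a + dB M b := by
    intro h1 h2
    by_contra h3
    have h4 := hmul _ (not_lt.1 h3)
    have h5 := far_R H hM hnb ha h1
    have h6 := far_R H hM hnb hb h2
    rw [Nat.add_mul] at h4
    omega
  obtain ⟨s, o⟩ := a
  obtain ⟨s', o'⟩ := b
  unfold FV at ha hb
  unfold dA at hA
  unfold dB at hB
  dsimp only at *
  rcases ha with ⟨h1, h2⟩ | ⟨h1, h2, h3⟩ | ⟨h1, h2⟩ <;>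
    rcases hb with ⟨k1, k2⟩ | ⟨k1, k2, k3⟩ | ⟨k1, k2⟩
  · have := hA (by omega) (by omega)
    rw [if_pos h1, if_pos k1] at this
    omega
  · have := hA (by omega) (by omega)
    rw [if_pos h1, if_neg (by omega)] at this
    omega
  · exact hcon (Or.inl ⟨h1, k1⟩)
  · have := hA (by omega) (by omega)
    rw [if_neg (by omega), if_pos k1] at this
    omega
  · have e1 := hA (by omega) (by omega)
    have e2 := hB (by omega) (by omega)
    rw [if_neg (by omega), if_neg (by omega)] at e1 e2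
    omega
  · have := hB (by omega) (by omega)
    rw [if_neg (by omega), if_pos k1] at this
    omega
  · exact hcon (Or.inr ⟨h1, k1⟩)
  · have := hB (by omega) (by omega)
    rw [if_pos h1, if_neg (by omega)] at this
    omega
  · have := hB (by omega) (by omega)
    rw [if_pos h1, if_pos k1] at this
    omega

end

/-- the order is such that the left clique is on the left -/
structure Std (P M nb : ℕ) (X Y Z : ℕ → ℕ) (pos : ℕ × ℕ → ℕ) : Prop where
  loc : Loc P (HV P M nb) (Pf P M) (LA P M nb X Y Z) pos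
  left : ∃ o, o < P + 2 ∧ rr P M pos (0, o) = 0
  right : ∃ o, o < P + 2 ∧ rr P M pos (2 * M + 2, o) = P * (M + 3) + 3

/-- the ranks of the levels -/
theorem Std.lev_rk (H : Std P M nb X Y Z pos) (hM : 1 ≤ M) {i e : ℕ} (h1 : 1 ≤ i) (h2 : i ≤ M)
    (he : e < nb) : rr P M pos (2 * i, e) = (i + 1) * P + 2 := by
  obtain ⟨o, ho, hl⟩ := H.left
  obtain ⟨o', ho', hr⟩ := H.right
  have e1 := clique_L H.loc (o := P + 1) (by omega) ho
  have e2 := clique_R H.loc ho' (o' := 0) (by omega)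
  have e3 := lev_le_L H.loc hM he h1 h2
  obtain ⟨k, rfl⟩ : ∃ k, M = i + k := ⟨M - i, by omega⟩
  have e4 := R_le_lev H.loc hM he k i h1 rfl
  have e5 : P * (i + k + 3) = (i + 1) * P + (k + 1) * P + P := by ring
  have e6 : (i + 1) * P = i * P + P := by ring
  unfold rr at *
  omega

theorem Std.L_rk (H : Std P M nb X Y Z pos) : rr P M pos (0, P + 1) ≤ P + 1 := by
  obtain ⟨o, ho, hl⟩ := H.left
  have e1 := clique_L H.loc (o := P + 1) (by omega) ho
  unfold rr at *
  omega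

end

end Pool.Agent.E8helper92.OQ
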