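import Pool.Agent.H619R2.QP.Basic

/-!
# Ranks: the number of block vertices to the left
-/

set_option linter.unusedSectionVars false

namespace Pool.Agent.E8helper92.OQ

open Pool.Agent.H619R2.QP

/-- What is used about a copy which lies in one gap of the hub. -/
structure Loc {β : Type*} (P : ℕ) (V : β → Prop) (F : Finset β) (Adj : β → β → Prop)
    (pos : β → ℕ) : Prop where
  VF : ∀ f ∈ F, V f
  symm : ∀ u v, Adj u v → Adj v u
  adjV : ∀ u v, Adj u v → V u
  inj : ∀ u v, V u → V v → pos u = pos v → u = v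
  one : ∀ u v, Adj u v → ∀ S ⊆ F, (∀ s ∈ S, pos u < pos s ∧ pos s < pos v) → S.card ≤ P
  two : ∀ u v u' v', Adj u v → Adj u' v' → pos u < pos u' → pos u' < pos v → pos v < pos v' →
    ∀ S ⊆ F, (∀ s ∈ S, pos u' < pos s ∧ pos s < pos v) → S.card < P
  nt : NT (P + 2) pos Adj

/-- the number of block vertices to the left of `v` -/
def rk {β : Type*} (F : Finset β) (pos : β → ℕ) (v : β) : ℕ :=
  (F.filter (fun f => pos f < pos v)).card

section

variable {β : Type*} [DecidableEq β] {P : ℕ} {V : β → Prop} {F : Finset β}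
  {Adj : β → β → Prop} {pos : β → ℕ}

theorem Loc.adjV' (H : Loc P V F Adj pos) {u v : β} (h : Adj u v) : V v :=
  H.adjV _ _ (H.symm _ _ h)

theorem rk_mono {u v : β} (h : pos u ≤ pos v) : rk F pos u ≤ rk F pos v := by
  refine Finset.card_le_card fun f hf => ?_
  rw [Finset.mem_filter] at hf ⊢
  exact ⟨hf.1, by omega⟩

theorem pos_lt_of_rk {u v : β} (h : rk F pos u < rk F pos v) : pos u < pos v := by
  by_contra hc
  have := rk_mono (F := F) (pos := pos) (u := v) (v := u) (by omega)
  omega

theorem rk_lt {u v : β} (hu : u ∈ F) (h : pos u < pos v) : rk F pos u < rk F pos v := by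
  refine Finset.card_lt_card ⟨fun f hf => ?_, fun hsub => ?_⟩
  · rw [Finset.mem_filter] at hf ⊢
    exact ⟨hf.1, by omega⟩
  · have : u ∈ F.filter (fun f => pos f < pos u) := hsub (Finset.mem_filter.2 ⟨hu, h⟩)
    rw [Finset.mem_filter] at this
    omega

theorem rk_lt_card {u : β} (hu : u ∈ F) : rk F pos u < F.card := by
  refine Finset.card_lt_card ⟨Finset.filter_subset _ _, fun hsub => ?_⟩
  have := hsub hu
  rw [Finset.mem_filter] at this
  omega

theorem rk_le_card (u : β) : rk F pos u ≤ F.card := Finset.card_filter_le _ _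

theorem rk_eq_zero {u : β} (h : ∀ f ∈ F, pos u ≤ pos f) : rk F pos u = 0 := by
  unfold rk
  rw [Finset.card_eq_zero, Finset.filter_eq_empty_iff]
  intro f hf
  have := h f hf
  omega

theorem Loc.rk_last (H : Loc P V F Adj pos) {u : β} (hu : u ∈ F)
    (h : ∀ f ∈ F, pos f ≤ pos u) : rk F pos u = F.card - 1 := by
  unfold rk
  rw [← Finset.card_erase_of_mem hu]
  congr 1
  ext f
  rw [Finset.mem_filter, Finset.mem_erase]
  constructor
  · rintro ⟨h1, h2⟩
    refine ⟨?_, h1⟩
    rintro rfl
    omega
  · rintro ⟨h1, h2⟩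
    refine ⟨h2, ?_⟩
    have := h f h2
    have h3 : pos f ≠ pos u := fun he => h1 (H.inj _ _ (H.VF _ h2) (H.VF _ hu) he)
    omega

theorem Loc.cnt (H : Loc P V F Adj pos) {u v : β} (hu : V u) (huF : u ∉ F)
    (huv : pos u < pos v) :
    rk F pos v = rk F pos u + (F.filter (fun f => pos u < pos f ∧ pos f < pos v)).card := by
  unfold rk
  rw [← Finset.card_union_of_disjoint]
  · congr 1
    ext f
    rw [Finset.mem_filter, Finset.mem_union, Finset.mem_filter, Finset.mem_filter]
    constructor
    · rintro ⟨h1, h2⟩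
      rcases lt_trichotomy (pos f) (pos u) with h | h | h
      · exact Or.inl ⟨h1, h⟩
      · exact absurd (H.inj _ _ (H.VF _ h1) hu h ▸ h1) huF
      · exact Or.inr ⟨h1, h, h2⟩
    · rintro (⟨h1, h2⟩ | ⟨h1, h2, h3⟩)
      · exact ⟨h1, by omega⟩
      · exact ⟨h1, h3⟩
  · rw [Finset.disjoint_left]
    intro f hf hf'
    rw [Finset.mem_filter] at hf hf'
    omega

theorem Loc.step (H : Loc P V F Adj pos) {u v : β} (huv : Adj u v) (huF : u ∉ F) :
    rk F pos v ≤ rk F pos u + P := by
  rcases le_or_gt (pos v) (pos u) with h | h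
  · have := rk_mono (F := F) h
    omega
  · rw [H.cnt (H.adjV _ _ huv) huF h]
    have := H.one u v huv (F.filter (fun f => pos u < pos f ∧ pos f < pos v))
      (Finset.filter_subset _ _) (fun s hs => (Finset.mem_filter.1 hs).2)
    omega

theorem Loc.step1 (H : Loc P V F Adj pos) {u v : β} (huv : Adj u v) :
    rk F pos v ≤ rk F pos u + P + 1 := by
  rcases le_or_gt (pos v) (pos u) with h | h
  · have := rk_mono (F := F) h
    omega
  · have h1 := H.one u v huv (F.filter (fun f => pos u < pos f ∧ pos f < pos v))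
      (Finset.filter_subset _ _) (fun s hs => (Finset.mem_filter.1 hs).2)
    have h2 : F.filter (fun f => pos f < pos v) ⊆ F.filter (fun f => pos f < pos u) ∪
        F.filter (fun f => pos u < pos f ∧ pos f < pos v) ∪ {u} := by
      intro f hf
      rw [Finset.mem_filter] at hf
      rw [Finset.mem_union, Finset.mem_union, Finset.mem_filter, Finset.mem_filter,
        Finset.mem_singleton]
      rcases lt_trichotomy (pos f) (pos u) with h | h | h
      · exact Or.inl (Or.inl ⟨hf.1, h⟩)
      · exact Or.inr (H.inj _ _ (H.VF _ hf.1) (H.adjV _ _ huv) h)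
      · exact Or.inl (Or.inr ⟨hf.1, h, hf.2⟩)
    have h3 := Finset.card_le_card h2
    have h4 := Finset.card_union_le (F.filter (fun f => pos f < pos u) ∪
        F.filter (fun f => pos u < pos f ∧ pos f < pos v)) {u}
    have h5 := Finset.card_union_le (F.filter (fun f => pos f < pos u))
        (F.filter (fun f => pos u < pos f ∧ pos f < pos v))
    rw [Finset.card_singleton] at h4
    unfold rk
    omega

/-- two crossing edges and the ranks -/
theorem Loc.two_rk (H : Loc P V F Adj pos) {u v u' v' : β} (huv : Adj u v) (huv' : Adj u' v')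
    (huF : u' ∉ F) (e1 : pos u < pos u') (e2 : pos u' < pos v) (e3 : pos v < pos v') :
    rk F pos v < rk F pos u' + P := by
  rw [H.cnt (H.adjV _ _ huv') huF e2]
  have := H.two u v u' v' huv huv' e1 e2 e3 (F.filter (fun f => pos u' < pos f ∧ pos f < pos v))
      (Finset.filter_subset _ _) (fun s hs => (Finset.mem_filter.1 hs).2)
  omega

/-- Reversing the order. -/
theorem Loc.rev (H : Loc P V F Adj pos) {N : ℕ} (hN : ∀ v, V v → pos v < N) :
    Loc P V F Adj (fun v => N - pos v) := by
  refine ⟨H.VF, H.symm, H.adjV, ?_, ?_, ?_, ?_⟩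
  · intro u v hu hv huv
    have h1 := hN u hu
    have h2 := hN v hv
    exact H.inj u v hu hv (by omega)
  · intro u v huv S hS hb
    refine H.one v u (H.symm _ _ huv) S hS (fun s hs => ?_)
    have h1 := hN u (H.adjV _ _ huv)
    have h2 := hN v (H.adjV' huv)
    have h3 := hN s (H.VF _ (hS hs))
    have h4 := hb s hs
    omega
  · intro u v u' v' huv huv' e1 e2 e3 S hS hb
    have h1 := hN u (H.adjV _ _ huv)
    have h2 := hN v (H.adjV' huv)
    have h1' := hN u' (H.adjV _ _ huv')
    have h2' := hN v' (H.adjV' huv')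
    refine H.two v' u' v u (H.symm _ _ huv') (H.symm _ _ huv) (by omega) (by omega) (by omega)
      S hS (fun s hs => ?_)
    have h3 := hN s (H.VF _ (hS hs))
    have h4 := hb s hs
    omega
  · intro l hl hE hp
    refine H.nt l hl hE (List.Pairwise.imp_of_mem ?_ hp)
    intro e f he hf hef
    exact cr_refl (hN _ (H.adjV _ _ (hE e he))) (hN _ (H.adjV' (hE e he)))
      (hN _ (H.adjV _ _ (hE f hf))) (hN _ (H.adjV' (hE f hf))) hef

end

end Pool.Agent.E8helper92.OQ
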