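import Pool.Agent.E8helper92.OQ.Place

/-!
# A copy in one gap: the order of the bus solves the instance
-/

set_option linter.unusedSectionVars false

namespace Pool.Agent.E8helper92.OQ

open Pool.Agent.H619R2.QP

section

variable {P M nb : ℕ} {X Y Z : ℕ → ℕ} {pos : ℕ × ℕ → ℕ}
  (H : Std P M nb X Y Z pos) (hP : 2 ≤ P) (hM : 1 ≤ M) (hnb : 4 ≤ nb)

include H hP hM hnb

omit hnb in
theorem lev_lt {i i' e e' : ℕ} (h1 : 1 ≤ i) (hi : i < i') (h2 : i' ≤ M) (he : e < nb)
    (he' : e' < nb) : pos (2 * i, e) < pos (2 * i', e') := by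
  refine pos_lt_of_rk (F := Pf P M) ?_
  have e1 := H.lev_rk hM h1 (by omega) he
  have e2 := H.lev_rk hM (by omega) h2 he'
  have e3 : (i + 1 + 1) * P ≤ (i' + 1) * P := Nat.mul_le_mul_right P (by omega)
  have e4 : (i + 1 + 1) * P = (i + 1) * P + P := by ring
  unfold rr at *
  omega

omit hnb in
theorem L_lt {e : ℕ} (he : e < nb) : pos (0, P + 1) < pos (2 * 1, e) := by
  refine pos_lt_of_rk (F := Pf P M) ?_
  have e1 := H.lev_rk hM le_rfl hM he
  have e2 := H.L_rk
  unfold rr at *
  omega

omit hnb in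
theorem arcs_rev {i e e' f f' : ℕ} (h1 : 1 ≤ i) (h2 : i < M) (he' : e' < nb)
    (hf : f < nb) (a1 : LA P M nb X Y Z (2 * i, e) (2 * (i + 1), f))
    (a2 : LA P M nb X Y Z (2 * i, e') (2 * (i + 1), f'))
    (h : pos (2 * i, e) < pos (2 * i, e')) : pos (2 * (i + 1), f') ≤ pos (2 * (i + 1), f) := by
  by_contra hc
  have h3 := lev_lt H hP hM (i := i) (i' := i + 1) (e := e') (e' := f) h1 (by omega) (by omega)
    he' hf
  have h4 := H.loc.two_rk a1 a2 (lev_nF h1 (by omega)) h h3 (by omega)
  have e1 := H.lev_rk hM h1 (by omega) he'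
  have e2 := H.lev_rk hM (i := i + 1) (by omega) (by omega) hf
  have e4 : (i + 1 + 1) * P = (i + 1) * P + P := by ring
  unfold rr at *
  omega

omit hP hnb in
theorem lev_ne {i e e' : ℕ} (h1 : 1 ≤ i) (h2 : i ≤ M) (he : e < nb) (he' : e' < nb)
    (hne : e ≠ e') : pos (2 * i, e) ≠ pos (2 * i, e') := by
  intro h
  have := H.loc.inj _ _ (hV h1 h2 he) (hV h1 h2 he') h
  rw [Prod.mk.injEq] at this
  exact hne this.2

omit hnb in
theorem rev_lt {i e e' : ℕ} (h1 : 1 ≤ i) (h2 : i < M) (he : e < nb) (he' : e' < nb)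
    (h : pos (2 * i, e) < pos (2 * i, e')) :
    pos (2 * (i + 1), e') < pos (2 * (i + 1), e) := by
  have h3 := arcs_rev H hP hM h1 h2 he' he
    (arc (X := X) (Y := Y) (Z := Z) h1 h2 he he (Or.inl rfl))
    (arc (X := X) (Y := Y) (Z := Z) h1 h2 he' he' (Or.inl rfl)) h
  have h4 := lev_ne H hM (i := i + 1) (e := e) (e' := e') (by omega) (by omega) he he' (by
    rintro rfl
    omega)
  omega

omit hnb in
theorem rev_iff {i e e' : ℕ} (h1 : 1 ≤ i) (h2 : i < M) (he : e < nb) (he' : e' < nb) :
    pos (2 * i, e) < pos (2 * i, e') ↔ pos (2 * (i + 1), e') < pos (2 * (i + 1), e) := by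
  constructor
  · exact rev_lt H hP hM h1 h2 he he'
  · intro h
    by_contra hc
    have h3 := lev_ne H hM (i := i) (e := e) (e' := e') h1 (by omega) he he' (by
      rintro rfl
      omega)
    have := rev_lt H hP hM h1 h2 he' he (by omega)
    omega

omit hnb in
/-- all levels have the same order up to reversal -/
theorem lev_one {e e' : ℕ} (he : e < nb) (he' : e' < nb) {i : ℕ} (h1 : 1 ≤ i) (h2 : i ≤ M) :
    (i % 2 = 1 → (pos (2 * i, e) < pos (2 * i, e') ↔ pos (2 * 1, e) < pos (2 * 1, e'))) ∧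
    (i % 2 = 0 → (pos (2 * i, e) < pos (2 * i, e') ↔ pos (2 * 1, e') < pos (2 * 1, e))) := by
  induction i, h1 using Nat.le_induction generalizing e e' with
  | base => exact ⟨fun _ => Iff.rfl, fun h => absurd h (by omega)⟩
  | succ i h1 ih =>
    have h3 := ih he' he (by omega)
    have h4 := rev_iff H hP hM h1 (by omega) he' he
    constructor
    · intro h5
      rw [← h4]
      exact h3.2 (by omega)
    · intro h5
      rw [← h4]
      exact h3.1 (by omega)

omit hnb in
/-- consecutive elements of a cluster are consecutive in the order -/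
theorem consec {i e e' x : ℕ} (h1 : 1 ≤ i) (h2 : i < M) (he : e < nb) (he' : e' < nb)
    (hx : x < nb) (hn : nxt (P + 3) e e') (hx' : x ≠ e') :
    ¬ (pos (2 * i, e) < pos (2 * i, x) ∧ pos (2 * i, x) < pos (2 * i, e')) ∧
    ¬ (pos (2 * i, e') < pos (2 * i, x) ∧ pos (2 * i, x) < pos (2 * i, e)) := by
  have ne := lev_ne H hM (i := i + 1) (by omega) (by omega) hx he' hx'
  constructor
  · rintro ⟨k1, k2⟩
    have h3 := rev_lt H hP hM h1 h2 hx he' k2
    have h4 := arcs_rev H hP hM h1 h2 hx he'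
      (arc (X := X) (Y := Y) (Z := Z) h1 h2 he he' (Or.inr hn))
      (arc (X := X) (Y := Y) (Z := Z) h1 h2 hx hx (Or.inl rfl)) k1
    omega
  · rintro ⟨k1, k2⟩
    have h3 := rev_lt H hP hM h1 h2 he' hx k1
    have h4 := arcs_rev H hP hM h1 h2 he hx
      (arc (X := X) (Y := Y) (Z := Z) h1 h2 hx hx (Or.inl rfl))
      (arc (X := X) (Y := Y) (Z := Z) h1 h2 he he' (Or.inr hn)) k2
    omega

omit H hP hM hnb in
theorem nxt_cl {c k : ℕ} (hk : k + 1 < P + 3) :
    nxt (P + 3) (4 + (P + 3) * c + k) (4 + (P + 3) * c + (k + 1)) := by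
  refine ⟨by omega, by omega, ?_⟩
  rw [show 4 + (P + 3) * c + k - 4 = (P + 3) * c + k by omega, Nat.mul_add_mod,
    Nat.mod_eq_of_lt (by omega)]
  omega

omit hnb in
/-- a vertex outside a cluster is on one side of the cluster -/
theorem clus {i x c : ℕ} (h1 : 1 ≤ i) (h2 : i < M) (hx : x < nb)
    (hc : 4 + (P + 3) * c + (P + 3) ≤ nb) (hxc : x < 4 + (P + 3) * c ∨ 4 + (P + 3) * c + (P + 3) ≤ x)
    {k : ℕ} (hk : k < P + 3) :
    pos (2 * i, x) < pos (2 * i, 4 + (P + 3) * c + k) ↔
      pos (2 * i, x) < pos (2 * i, 4 + (P + 3) * c + 0) := by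
  induction k with
  | zero => exact Iff.rfl
  | succ k ih =>
    rw [← ih (by omega)]
    have h3 := consec H hP hM (i := i) (e := 4 + (P + 3) * c + k)
      (e' := 4 + (P + 3) * c + (k + 1)) (x := x) h1 h2 (by omega) (by omega) hx
      (nxt_cl hk) (by omega)
    have n1 := lev_ne H hM (i := i) (e := x) (e' := 4 + (P + 3) * c + k) h1 (by omega) hx
      (by omega) (by omega)
    have n2 := lev_ne H hM (i := i) (e := x) (e' := 4 + (P + 3) * c + (k + 1)) h1 (by omega) hx
      (by omega) (by omega)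
    omega

omit hnb in
/-- clusters are monotone -/
theorem mono_cl {i c : ℕ} (h1 : 1 ≤ i) (h2 : i < M) (hc : 4 + (P + 3) * c + (P + 3) ≤ nb)
    {k : ℕ} (hk : k + 2 < P + 3) :
    pos (2 * i, 4 + (P + 3) * c + k) < pos (2 * i, 4 + (P + 3) * c + (k + 1)) ↔
      pos (2 * i, 4 + (P + 3) * c + (k + 1)) < pos (2 * i, 4 + (P + 3) * c + (k + 2)) := by
  have h3 := consec H hP hM (i := i) (e := 4 + (P + 3) * c + k)
      (e' := 4 + (P + 3) * c + (k + 1)) (x := 4 + (P + 3) * c + (k + 2)) h1 h2 (by omega)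
      (by omega) (by omega) (nxt_cl (by omega)) (by omega)
  have h4 := consec H hP hM (i := i) (e := 4 + (P + 3) * c + (k + 1))
      (e' := 4 + (P + 3) * c + (k + 2)) (x := 4 + (P + 3) * c + k) h1 h2 (by omega)
      (by omega) (by omega) (nxt_cl (by omega)) (by omega)
  have n1 := lev_ne H hM (i := i) (e := 4 + (P + 3) * c + k)
    (e' := 4 + (P + 3) * c + (k + 1)) h1 (by omega) (by omega) (by omega) (by omega)
  have n2 := lev_ne H hM (i := i) (e := 4 + (P + 3) * c + k)
    (e' := 4 + (P + 3) * c + (k + 2)) h1 (by omega) (by omega) (by omega) (by omega)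
  have n3 := lev_ne H hM (i := i) (e := 4 + (P + 3) * c + (k + 1))
    (e' := 4 + (P + 3) * c + (k + 2)) h1 (by omega) (by omega) (by omega) (by omega)
  omega

omit hnb in
/-- two elements of the cluster are to the right of the element number `2` -/
theorem right_two {i c : ℕ} (h1 : 1 ≤ i) (h2 : i < M) (hc : 4 + (P + 3) * c + (P + 3) ≤ nb) :
    ∃ k l, k < P + 3 ∧ l < P + 3 ∧
      pos (2 * i, 4 + (P + 3) * c + 2) < pos (2 * i, 4 + (P + 3) * c + k) ∧
      pos (2 * i, 4 + (P + 3) * c + k) < pos (2 * i, 4 + (P + 3) * c + l) := by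
  have m0 := mono_cl H hP hM (i := i) (c := c) h1 h2 hc (k := 0) (by omega)
  have m1 := mono_cl H hP hM (i := i) (c := c) h1 h2 hc (k := 1) (by omega)
  have m2 := mono_cl H hP hM (i := i) (c := c) h1 h2 hc (k := 2) (by omega)
  have n0 := lev_ne H hM (i := i) (e := 4 + (P + 3) * c + 0)
    (e' := 4 + (P + 3) * c + 1) h1 (by omega) (by omega) (by omega) (by omega)
  have n1 := lev_ne H hM (i := i) (e := 4 + (P + 3) * c + 1)
    (e' := 4 + (P + 3) * c + 2) h1 (by omega) (by omega) (by omega) (by omega)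
  simp only [Nat.zero_add, Nat.reduceAdd] at m0 m1 m2
  by_cases h : pos (2 * i, 4 + (P + 3) * c + 0) < pos (2 * i, 4 + (P + 3) * c + 1)
  · exact ⟨3, 4, by omega, by omega, by omega, by omega⟩
  · exact ⟨1, 0, by omega, by omega, by omega, by omega⟩

/-- the inner blocks are between their levels -/
theorem block_place {j o x : ℕ} (h1 : 1 ≤ j) (h2 : j < M) (ho : o < P) (hx : x < nb) :
    pos (2 * j, x) < pos (2 * j + 1, o) ∧ pos (2 * j + 1, o) < pos (2 * (j + 1), x) := by
  obtain ⟨g, g', hg, hg', hgg⟩ := two_guides j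
  have hgn : ∀ g, Gd (2 * j + 1) g → g < nb := by
    intro g hg
    unfold Gd at hg
    omega
  have hpF : (2 * j + 1, o) ∈ Pf P M := by
    rw [mem_Pf]
    exact Or.inr (Or.inl ⟨by dsimp only; omega, by dsimp only; omega, ho⟩)
  have hpV := hB (nb := nb) (P := P) (M := M) (j := j) (o := o) (by omega) ho
  have r1 : ∀ e, e < nb → rr P M pos (2 * j, e) = (j + 1) * P + 2 := fun e he =>
    H.lev_rk hM h1 (by omega) he
  have r2 : ∀ e, e < nb → rr P M pos (2 * (j + 1), e) = (j + 1) * P + 2 + P := fun e he => by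
    have := H.lev_rk hM (i := j + 1) (by omega) (by omega) he
    rw [this]
    ring
  have ne1 : ∀ e, e < nb → pos (2 * j, e) ≠ pos (2 * j + 1, o) := by
    intro e he h
    have := H.loc.inj _ _ (hV h1 (by omega) he) hpV h
    rw [Prod.mk.injEq] at this
    omega
  have ne2 : ∀ e, e < nb → pos (2 * (j + 1), e) ≠ pos (2 * j + 1, o) := by
    intro e he h
    have := H.loc.inj _ _ (hV (i := j + 1) (by omega) (by omega) he) hpV h
    rw [Prod.mk.injEq] at this
    omega
  -- all elements of a level are on the same side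
  have s1 : ∀ e, e < nb → pos (2 * j + 1, o) < pos (2 * j, e) →
      ∀ e', e' < nb → pos (2 * j + 1, o) < pos (2 * j, e') := by
    intro e he h e' he'
    have h3 := rk_lt hpF h
    have h4 := r1 e he
    have h5 := r1 e' he'
    have h6 := pos_lt_of_rk (F := Pf P M) (pos := pos) (u := (2 * j + 1, o)) (v := (2 * j, e')) (by
      unfold rr at *
      omega)
    exact h6
  have s2 : ∀ e, e < nb → pos (2 * (j + 1), e) < pos (2 * j + 1, o) →
      ∀ e', e' < nb → pos (2 * (j + 1), e') < pos (2 * j + 1, o) := by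
    intro e he h e' he'
    by_contra hc
    have h7 := ne2 e' he'
    have h3 := rk_lt (F := Pf P M) hpF (show pos (2 * j + 1, o) < pos (2 * (j + 1), e') by omega)
    have h4 := r2 e he
    have h5 := r2 e' he'
    have h6 := rk_mono (F := Pf P M) (pos := pos) (u := (2 * (j + 1), e)) (v := (2 * j + 1, o))
      h.le
    unfold rr at *
    omega
  constructor
  · by_contra hc
    have h3 := s1 x hx (by have := ne1 x hx; omega)
    -- the guides at level j + 1
    obtain ⟨a, b, ha, hb, hab⟩ : ∃ a b, Gd (2 * j + 1) a ∧ Gd (2 * j + 1) b ∧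
        pos (2 * (j + 1), a) < pos (2 * (j + 1), b) := by
      have := lev_ne H hM (i := j + 1) (by omega) (by omega) (hgn g hg) (hgn g' hg') hgg
      rcases lt_or_gt_of_ne this with h | h
      · exact ⟨g, g', hg, hg', h⟩
      · exact ⟨g', g, hg', hg, h⟩
    have h4 := H.loc.two_rk (gr' (X := X) (Y := Y) (Z := Z) hnb h2 ha ho)
      (arc (X := X) (Y := Y) (Z := Z) (e := b) (e' := b) h1 h2 (hgn b hb) (hgn b hb) (Or.inl rfl))
      (lev_nF h1 (by omega)) (h3 b (hgn b hb))
      (lev_lt H hP hM h1 (by omega) (by omega) (hgn b hb) (hgn a ha)) hab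
    have h5 := r1 b (hgn b hb)
    have h6 := r2 a (hgn a ha)
    unfold rr at *
    omega
  · by_contra hc
    have h3 := s2 x hx (by have := ne2 x hx; omega)
    obtain ⟨a, b, ha, hb, hab⟩ : ∃ a b, Gd (2 * j + 1) a ∧ Gd (2 * j + 1) b ∧
        pos (2 * j, a) < pos (2 * j, b) := by
      have := lev_ne H hM (i := j) h1 (by omega) (hgn g hg) (hgn g' hg') hgg
      rcases lt_or_gt_of_ne this with h | h
      · exact ⟨g, g', hg, hg', h⟩
      · exact ⟨g', g, hg', hg, h⟩
    have h4 := H.loc.two_rk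
      (arc (X := X) (Y := Y) (Z := Z) (e := a) (e' := a) h1 h2 (hgn a ha) (hgn a ha) (Or.inl rfl))
      (gl (X := X) (Y := Y) (Z := Z) hnb h1 (by omega) hb ho)
      (lev_nF h1 (by omega)) hab
      (lev_lt H hP hM h1 (by omega) (by omega) (hgn b hb) (hgn a ha)) (h3 a (hgn a ha))
    have h5 := r1 b (hgn b hb)
    have h6 := r2 a (hgn a ha)
    unfold rr at *
    omega

omit H hP hM hnb in
theorem cl_disj {a b k : ℕ} (hab : a ≠ b) (hk : k < P + 3) :
    4 + (P + 3) * a + k < 4 + (P + 3) * b ∨ 4 + (P + 3) * b + (P + 3) ≤ 4 + (P + 3) * a + k := by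
  rcases lt_or_gt_of_ne hab with h | h
  · have : (P + 3) * (a + 1) ≤ (P + 3) * b := Nat.mul_le_mul_left _ h
    rw [Nat.mul_add] at this
    omega
  · have : (P + 3) * (b + 1) ≤ (P + 3) * a := Nat.mul_le_mul_left _ h
    rw [Nat.mul_add] at this
    omega

/-- the long ladder of a violated test -/
theorem ladder {i x y z : ℕ} (h1 : 1 ≤ i) (h2 : i < M) (hx : 4 + (P + 3) * x + (P + 3) ≤ nb)
    (hy : 4 + (P + 3) * y + (P + 3) ≤ nb) (hz : 4 + (P + 3) * z + (P + 3) ≤ nb)
    (hxy : ∀ k l, k < P - 1 → l < P - 1 →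
      LA P M nb X Y Z (2 * i, 4 + (P + 3) * x + k) (2 * i, 4 + (P + 3) * y + l))
    (hzz : LA P M nb X Y Z (2 * i, 4 + (P + 3) * z + 2) (2 * i + 1, 0))
    (hxz : ∀ k l, k < P + 3 → l < P + 3 →
      pos (2 * i, 4 + (P + 3) * x + k) < pos (2 * i, 4 + (P + 3) * z + l))
    (hzy : ∀ k l, k < P + 3 → l < P + 3 →
      pos (2 * i, 4 + (P + 3) * z + k) < pos (2 * i, 4 + (P + 3) * y + l)) : False := by
  classical
  obtain ⟨k, l, hk, hl, hk', hl'⟩ := right_two H hP hM (i := i) (c := z) h1 h2 hz
  -- the left arc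
  obtain ⟨q, hq, hq'⟩ : ∃ q, LA P M nb X Y Z q (2 * i, 4 + (P + 3) * z + l) ∧
      ∀ e, e < nb → pos q < pos (2 * i, e) := by
    rcases Nat.eq_or_lt_of_le h1 with h | h
    · subst h
      exact ⟨(0, P + 1), aL1 hM (by omega), fun e he => L_lt H hP hM he⟩
    · obtain ⟨m, rfl⟩ : ∃ m, i = m + 1 := ⟨i - 1, by omega⟩
      exact ⟨(2 * m, 4 + (P + 3) * z + l), arc (by omega) (by omega) (by omega) (by omega)
        (Or.inl rfl), fun e he => lev_lt H hP hM (by omega) (by omega) (by omega) (by omega) he⟩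
  have hpl := fun e he => (block_place H hP hM hnb (j := i) (o := 0) (x := e) h1 h2 (by omega) he)
  have harc := arc (X := X) (Y := Y) (Z := Z) (P := P) (nb := nb) (i := i)
    (e := 4 + (P + 3) * z + k) (e' := 4 + (P + 3) * z + k) h1 h2 (by omega) (by omega)
    (Or.inl rfl)
  set A : Finset (ℕ × ℕ) := (Finset.range (P - 1)).image (fun k => (2 * i, 4 + (P + 3) * x + k))
    with hA
  set B : Finset (ℕ × ℕ) := (Finset.range (P - 1)).image (fun k => (2 * i, 4 + (P + 3) * y + k))
    with hB'
  have cardA : A.card = P - 1 := by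
    rw [hA, Finset.card_image_of_injective, Finset.card_range]
    intro a b hab
    simp only [Prod.mk.injEq] at hab
    omega
  have cardB : B.card = P - 1 := by
    rw [hB', Finset.card_image_of_injective, Finset.card_range]
    intro a b hab
    simp only [Prod.mk.injEq] at hab
    omega
  have memA : ∀ u ∈ A, ∃ m, m < P - 1 ∧ u = (2 * i, 4 + (P + 3) * x + m) := by
    intro u hu
    rw [hA, Finset.mem_image] at hu
    obtain ⟨m, hm, rfl⟩ := hu
    exact ⟨m, Finset.mem_range.1 hm, rfl⟩
  have memB : ∀ u ∈ B, ∃ m, m < P - 1 ∧ u = (2 * i, 4 + (P + 3) * y + m) := by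
    intro u hu
    rw [hB', Finset.mem_image] at hu
    obtain ⟨m, hm, rfl⟩ := hu
    exact ⟨m, Finset.mem_range.1 hm, rfl⟩
  have injA : Set.InjOn pos A := by
    intro u hu v hv huv
    obtain ⟨m, hm, rfl⟩ := memA u hu
    obtain ⟨m', hm', rfl⟩ := memA v hv
    exact H.loc.inj _ _ (hV h1 (by omega) (by omega)) (hV h1 (by omega) (by omega)) huv
  have injB : Set.InjOn pos B := by
    intro u hu v hv huv
    obtain ⟨m, hm, rfl⟩ := memB u hu
    obtain ⟨m', hm', rfl⟩ := memB v hv
    exact H.loc.inj _ _ (hV h1 (by omega) (by omega)) (hV h1 (by omega) (by omega)) huv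
  obtain ⟨l2, hl2, L2⟩ := Lad.of_sets (pos := pos) (Adj := LA P M nb X Y Z) (A := A) (B := B)
    (n := P - 1) cardA.ge cardB.ge (by
      intro u hu v hv
      obtain ⟨m, hm, rfl⟩ := memA u hu
      obtain ⟨m', hm', rfl⟩ := memB v hv
      exact hxy m m' hm hm') injA injB
  have L1 := Lad.single (pos := pos) hq
  have L3 := Lad.single (pos := pos) hzz
  have L4 := Lad.single (pos := pos) harc
  -- comparisons
  have cA : ∀ u ∈ A, pos q < pos u ∧ (∀ m, m < P + 3 → pos u < pos (2 * i, 4 + (P + 3) * z + m)) := by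
    intro u hu
    obtain ⟨m, hm, rfl⟩ := memA u hu
    exact ⟨hq' _ (by omega), fun m' hm' => hxz m m' (by omega) hm'⟩
  have cB : ∀ u ∈ B, (∀ m, m < P + 3 → pos (2 * i, 4 + (P + 3) * z + m) < pos u) ∧
      pos u < pos (2 * i + 1, 0) := by
    intro u hu
    obtain ⟨m, hm, rfl⟩ := memB u hu
    exact ⟨fun m' hm' => hzy m' m hm' (by omega), (hpl _ (by omega)).1⟩
  have c1 := hq' (4 + (P + 3) * z + 2) (by omega)
  have c2 := (hpl (4 + (P + 3) * z + l) (by omega)).1
  have c3 := (hpl (4 + (P + 3) * z + k) (by omega)).2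
  have L12 := L1.append L2 (by
      intro a ha b hb
      rw [Set.mem_singleton_iff] at ha
      subst ha
      exact (cA b hb).1) (by
      intro a ha b hb
      rw [Set.mem_singleton_iff] at ha
      subst ha
      exact (cB b hb).1 l hl)
  have L123 := L12.append L3 (by
      intro a ha b hb
      rw [Set.mem_singleton_iff] at hb
      subst hb
      rcases ha with ha | ha
      · rw [Set.mem_singleton_iff] at ha
        subst ha
        exact c1
      · exact (cA a ha).2 2 (by omega)) (by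
      intro a ha b hb
      rw [Set.mem_singleton_iff] at hb
      subst hb
      rcases ha with ha | ha
      · rw [Set.mem_singleton_iff] at ha
        subst ha
        exact c2
      · exact (cB a ha).2)
  have L := L123.append L4 (by
      intro a ha b hb
      rw [Set.mem_singleton_iff] at hb
      subst hb
      rcases ha with (ha | ha) | ha
      · rw [Set.mem_singleton_iff] at ha
        subst ha
        exact c1.trans hk'
      · exact (cA a ha).2 k hk
      · rw [Set.mem_singleton_iff] at ha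
        subst ha
        exact hk') (by
      intro a ha b hb
      rw [Set.mem_singleton_iff] at hb
      subst hb
      rcases ha with (ha | ha) | ha
      · rw [Set.mem_singleton_iff] at ha
        subst ha
        exact c2.trans c3
      · exact (cB a ha).2.trans c3
      · rw [Set.mem_singleton_iff] at ha
        subst ha
        exact c3)
  have := H.loc.nt.lad L (by
    -- all left ends are at most `k`, all right ends at least `l`
    have left : ∀ a ∈ (({q} ∪ (↑A : Set (ℕ × ℕ)) ∪ {(2 * i, 4 + (P + 3) * z + 2)} ∪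
        {(2 * i, 4 + (P + 3) * z + k)} : Set (ℕ × ℕ))),
        pos a < pos (2 * i, 4 + (P + 3) * z + l) := by
      intro a ha
      rcases ha with ((ha | ha) | ha) | ha
      · rw [Set.mem_singleton_iff] at ha
        subst ha
        omega
      · exact (cA a ha).2 l hl
      · rw [Set.mem_singleton_iff] at ha
        subst ha
        omega
      · rw [Set.mem_singleton_iff] at ha
        subst ha
        exact hl'
    intro a ha b hb
    have h3 := left a ha
    rcases hb with ((hb | hb) | hb) | hb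
    · rw [Set.mem_singleton_iff] at hb
      subst hb
      exact h3
    · exact h3.trans ((cB b hb).1 l hl)
    · rw [Set.mem_singleton_iff] at hb
      subst hb
      omega
    · rw [Set.mem_singleton_iff] at hb
      subst hb
      omega)
  simp only [List.length_append, List.length_singleton, hl2] at this
  omega

end

end Pool.Agent.E8helper92.OQ
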